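import Mathlib

/-!
Convex-block stabilisation and Rademacher-type trees for bounded sequences of functions
(abstract form), following the ideas of Hagler-Johnson.
-/

namespace Pool.Agent.H85.JN

open Filter Topology Set

variable {V : Type*} [AddCommGroup V] [Module ℝ V] {Γ : Type*}

/-- `Blk g f`: eventually, the terms of `g` are convex combinations of far-out terms of `f`. -/
def Blk (g f : ℕ → V) : Prop := ∀ N, ∀ᶠ n in atTop, g n ∈ convexHull ℝ (f '' Ici N)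

lemma Blk.refl (f : ℕ → V) : Blk f f := by
  intro N
  filter_upwards [eventually_ge_atTop N] with n hn
  exact subset_convexHull ℝ _ ⟨n, hn, rfl⟩

lemma Blk.trans {h g f : ℕ → V} (h1 : Blk h g) (h2 : Blk g f) : Blk h f := by
  intro N
  obtain ⟨M, hM⟩ := eventually_atTop.1 (h2 N)
  filter_upwards [h1 M] with n hn
  refine convexHull_min ?_ (convex_convexHull ℝ _) hn
  rintro _ ⟨m, hm, rfl⟩
  exact hM m hm

/-- diagonal sequence -/
lemma exists_diagonal (G : ℕ → ℕ → V) (hG : ∀ k, Blk (G (k + 1)) (G k)) :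
    ∃ g : ℕ → V, ∀ k, Blk g (G k) := by
  have hG' : ∀ k n, k ≤ n → Blk (G n) (G k) := by
    intro k n hkn
    induction n, hkn using Nat.le_induction with
    | base => exact Blk.refl _
    | succ n _ ih => exact (hG n).trans ih
  have : ∀ n, ∃ m, ∀ k ≤ n, G n m ∈ convexHull ℝ (G k '' Ici n) := by
    intro n
    have h : ∀ᶠ m in atTop, ∀ k ∈ Finset.range (n + 1), G n m ∈ convexHull ℝ (G k '' Ici n) := by
      rw [eventually_all_finset]
      intro k hk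
      exact hG' k n (by simpa [Nat.lt_succ_iff] using hk) n
    obtain ⟨m, hm⟩ := h.exists
    exact ⟨m, fun k hk => hm k (by simpa [Nat.lt_succ_iff] using hk)⟩
  choose m hm using this
  refine ⟨fun n => G n (m n), fun k N => ?_⟩
  filter_upwards [eventually_ge_atTop (max k N)] with n hn
  have := hm n k (le_trans (le_max_left _ _) hn)
  refine convexHull_mono (image_mono (Ici_subset_Ici.2 (le_trans (le_max_right _ _) hn))) this

/-- the oscillation at infinity of `g` is at most `ε` at every point -/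
def OscLe (ev : Γ → V →ₗ[ℝ] ℝ) (g : ℕ → V) (ε : ℝ) : Prop :=
  ∀ x, ∀ η > 0, ∃ N, ∀ m ≥ N, ∀ n ≥ N, ev x (g m) ≤ ev x (g n) + ε + η

lemma OscLe.hull {ev : Γ → V →ₗ[ℝ] ℝ} {g : ℕ → V} {c : ℝ} {x : Γ} {N : ℕ}
    (h : ∀ m ≥ N, ∀ n ≥ N, ev x (g m) ≤ ev x (g n) + c) {a b : V}
    (ha : a ∈ convexHull ℝ (g '' Ici N)) (hb : b ∈ convexHull ℝ (g '' Ici N)) :
    ev x a ≤ ev x b + c := by
  have h1 : ∀ n ≥ N, ev x a ≤ ev x (g n) + c := by
    intro n hn
    have hconv : Convex ℝ {v : V | ev x v ≤ ev x (g n) + c} :=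
      convex_halfSpace_le (ev x).isLinear _
    refine convexHull_min ?_ hconv ha
    rintro _ ⟨m, hm, rfl⟩
    exact h m hm n hn
  have hconv : Convex ℝ {v : V | ev x a - c ≤ ev x v} :=
    convex_halfSpace_ge (ev x).isLinear _
  have : b ∈ {v : V | ev x a - c ≤ ev x v} := by
    refine convexHull_min ?_ hconv hb
    rintro _ ⟨m, hm, rfl⟩
    have := h1 m hm
    simp only [mem_ofPred_eq]
    linarith
  simp only [mem_ofPred_eq] at this
  linarith

lemma OscLe.blk {ev : Γ → V →ₗ[ℝ] ℝ} {g h : ℕ → V} {ε : ℝ} (hg : OscLe ev g ε)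
    (hb : Blk h g) : OscLe ev h ε := by
  intro x η hη
  obtain ⟨N, hN⟩ := hg x η hη
  obtain ⟨M, hM⟩ := eventually_atTop.1 (hb N)
  refine ⟨M, fun m hm n hn => ?_⟩
  have := OscLe.hull (ev := ev) (g := g) (c := ε + η) (x := x) (N := N)
    (fun m hm n hn => by have := hN m hm n hn; linarith) (hM m hm) (hM n hn)
  linarith

lemma OscLe.mono {ev : Γ → V →ₗ[ℝ] ℝ} {g : ℕ → V} {ε ε' : ℝ} (hg : OscLe ev g ε)
    (h : ε ≤ ε') : OscLe ev g ε' := by
  intro x η hη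
  obtain ⟨N, hN⟩ := hg x η hη
  exact ⟨N, fun m hm n hn => by have := hN m hm n hn; linarith⟩

lemma OscLe.closed {ev : Γ → V →ₗ[ℝ] ℝ} {g : ℕ → V} {ε : ℝ}
    (hg : ∀ δ > 0, OscLe ev g (ε + δ)) : OscLe ev g ε := by
  intro x η hη
  obtain ⟨N, hN⟩ := hg (η / 2) (by positivity) x (η / 2) (by positivity)
  exact ⟨N, fun m hm n hn => by have := hN m hm n hn; linarith⟩

/-- the smallest oscillation among convex blocks -/
noncomputable def minOsc (ev : Γ → V →ₗ[ℝ] ℝ) (g : ℕ → V) : ℝ :=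
  sInf {ε | 0 ≤ ε ∧ ∃ h, Blk h g ∧ OscLe ev h ε}

lemma bddBelow_minOsc (ev : Γ → V →ₗ[ℝ] ℝ) (g : ℕ → V) :
    BddBelow {ε | 0 ≤ ε ∧ ∃ h, Blk h g ∧ OscLe ev h ε} := ⟨0, fun _ h => h.1⟩

lemma minOsc_nonneg (ev : Γ → V →ₗ[ℝ] ℝ) (g : ℕ → V) : 0 ≤ minOsc ev g :=
  Real.sInf_nonneg (fun _ h => h.1)

lemma minOsc_le {ev : Γ → V →ₗ[ℝ] ℝ} {g h : ℕ → V} {ε : ℝ} (hε : 0 ≤ ε) (hb : Blk h g)
    (ho : OscLe ev h ε) : minOsc ev g ≤ ε :=
  csInf_le (bddBelow_minOsc ev g) ⟨hε, h, hb, ho⟩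

lemma minOsc_mono {ev : Γ → V →ₗ[ℝ] ℝ} {g h : ℕ → V} (hb : Blk h g)
    (hne : ∃ ε, 0 ≤ ε ∧ OscLe ev g ε) : minOsc ev g ≤ minOsc ev h := by
  obtain ⟨ε, hε, ho⟩ := hne
  refine csInf_le_csInf (bddBelow_minOsc ev g) ⟨ε, hε, h, Blk.refl _, ho.blk hb⟩ ?_
  rintro c ⟨hc, k, hk, hko⟩
  exact ⟨hc, k, hk.trans hb, hko⟩

lemma exists_near_minOsc {ev : Γ → V →ₗ[ℝ] ℝ} {g : ℕ → V}
    (hne : ∃ ε, 0 ≤ ε ∧ OscLe ev g ε) {δ : ℝ} (hδ : 0 < δ) :
    ∃ h, Blk h g ∧ OscLe ev h (minOsc ev g + δ) := by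
  obtain ⟨ε, hε, ho⟩ := hne
  have hnem : {ε | 0 ≤ ε ∧ ∃ h, Blk h g ∧ OscLe ev h ε}.Nonempty :=
    ⟨ε, hε, g, Blk.refl _, ho⟩
  obtain ⟨c, ⟨_, h, hb, hh⟩, hc⟩ := exists_lt_of_csInf_lt hnem
    (show minOsc ev g < minOsc ev g + δ by linarith)
  exact ⟨h, hb, hh.mono hc.le⟩

/-- Existence of a stable convex block sequence. -/
lemma exists_stable (ev : Γ → V →ₗ[ℝ] ℝ) (f : ℕ → V) (hne : ∃ ε, 0 ≤ ε ∧ OscLe ev f ε) :
    ∃ g, Blk g f ∧ ∃ ε, 0 ≤ ε ∧ OscLe ev g ε ∧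
      ∀ h, Blk h g → ∀ ε', 0 ≤ ε' → ε' < ε → ¬ OscLe ev h ε' := by
  classical
  have step : ∀ (k : ℕ) (g : {g : ℕ → V // Blk g f}), ∃ h : {h : ℕ → V // Blk h f},
      Blk h.1 g.1 ∧ OscLe ev h.1 (minOsc ev g.1 + 1 / ((k : ℝ) + 1)) := by
    intro k g
    obtain ⟨ε, hε, ho⟩ := hne
    obtain ⟨h, hb, hh⟩ := exists_near_minOsc (ev := ev) (g := g.1) ⟨ε, hε, ho.blk g.2⟩
      (δ := 1 / ((k : ℝ) + 1)) (by positivity)
    exact ⟨⟨h, hb.trans g.2⟩, hb, hh⟩
  choose nxt hnxt using step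
  let G : ℕ → {g : ℕ → V // Blk g f} := fun n =>
    Nat.rec ⟨f, Blk.refl f⟩ (fun k g => nxt k g) n
  have hG : ∀ k, G (k + 1) = nxt k (G k) := fun k => rfl
  obtain ⟨g, hg⟩ := exists_diagonal (fun k => (G k).1) (fun k => by
    simp only [hG k]; exact (hnxt k (G k)).1)
  have hgf : Blk g f := by simpa [G] using hg 0
  have hneG : ∀ k, ∃ ε, 0 ≤ ε ∧ OscLe ev (G k).1 ε := by
    obtain ⟨ε, hε, ho⟩ := hne
    exact fun k => ⟨ε, hε, ho.blk (G k).2⟩
  refine ⟨g, hgf, minOsc ev g, minOsc_nonneg _ _, ?_, ?_⟩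
  · apply OscLe.closed
    intro δ hδ
    obtain ⟨k, hk⟩ := exists_nat_one_div_lt hδ
    have h1 : OscLe ev g (minOsc ev (G k).1 + 1 / ((k : ℝ) + 1)) := by
      have := (hnxt k (G k)).2
      rw [← hG k] at this
      exact this.blk (hg (k + 1))
    refine h1.mono ?_
    have h2 : minOsc ev (G k).1 ≤ minOsc ev g := minOsc_mono (hg k) (hneG k)
    linarith
  · intro h hb ε' h0 hlt ho
    exact absurd (minOsc_le h0 hb ho) (not_le.2 hlt)

/-- sign of a boolean -/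
def sgn (b : Bool) : ℝ := if b then 1 else -1

/-- tree condition at level `k` -/
def TreeP (ev : Γ → V →ₗ[ℝ] ℝ) (g : ℕ → V) (c : ℝ) (k : ℕ) (x : Fin k → Γ × ℝ) : Prop :=
  ∀ N, ∃ n : (Fin k → Bool) → ℕ, (∀ s, N ≤ n s) ∧
    ∀ s j, c ≤ sgn (s j) * (ev (x j).1 (g (n s)) - (x j).2)

lemma treeP_zero (ev : Γ → V →ₗ[ℝ] ℝ) (g : ℕ → V) (c : ℝ) (x : Fin 0 → Γ × ℝ) :
    TreeP ev g c 0 x := fun N => ⟨fun _ => N, fun _ => le_rfl, fun _ j => j.elim0⟩

lemma card_bool_fun (k : ℕ) : (Fintype.card (Fin k → Bool)) = 2 ^ k := by simp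

/-- if an average of `K` numbers is large and all are at most `B`, each one is large -/
lemma each_ge_of_avg {ι : Type*} [Fintype ι] (v : ι → ℝ) (A B : ℝ)
    (hB : ∀ i, v i ≤ B) (hA : A * (Fintype.card ι) ≤ ∑ i, v i) (i : ι) :
    B - (B - A) * (Fintype.card ι) ≤ v i := by
  classical
  have h1 : ∑ j, v j = v i + ∑ j ∈ Finset.univ.erase i, v j :=
    (Finset.add_sum_erase _ _ (Finset.mem_univ i)).symm
  have h2 : ∑ j ∈ Finset.univ.erase i, v j ≤ ((Fintype.card ι : ℝ) - 1) * B := by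
    calc ∑ j ∈ Finset.univ.erase i, v j ≤ ∑ _j ∈ Finset.univ.erase i, B :=
          Finset.sum_le_sum (fun j _ => hB j)
      _ = ((Fintype.card ι : ℝ) - 1) * B := by
          rw [Finset.sum_const, Finset.card_erase_of_mem (Finset.mem_univ i), Finset.card_univ,
            nsmul_eq_mul, Nat.cast_sub (Fintype.card_pos_iff.2 ⟨i⟩)]
          simp
  nlinarith

lemma avg_mem (g : ℕ → V) (k N : ℕ) (n : (Fin k → Bool) → ℕ) (hn : ∀ s, N ≤ n s) :
    ((2 : ℝ) ^ k)⁻¹ • ∑ s, g (n s) ∈ convexHull ℝ (g '' Ici N) := by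
  rw [Finset.smul_sum]
  refine (convex_convexHull ℝ _).sum_mem (fun _ _ => by positivity) ?_
    (fun s _ => subset_convexHull ℝ _ ⟨n s, hn s, rfl⟩)
  simp [Finset.sum_const]

lemma treeP_step (ev : Γ → V →ₗ[ℝ] ℝ) (g : ℕ → V) {ε : ℝ} (hε : 0 < ε) (hg : OscLe ev g ε)
    (hst : ∀ h, Blk h g → ∀ ε', 0 ≤ ε' → ε' < ε → ¬ OscLe ev h ε') (k : ℕ)
    (x : Fin k → Γ × ℝ) (hx : TreeP ev g (ε / 4) k x) :
    ∃ y : Γ × ℝ, TreeP ev g (ε / 4) (k + 1) (Fin.snoc x y : Fin (k + 1) → Γ × ℝ) := by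
  classical
  choose n hnN hn using hx
  set K : ℝ := (2 : ℝ) ^ k with hK
  have hK1 : 1 ≤ K := one_le_pow₀ (by norm_num)
  let h : ℕ → V := fun N => K⁻¹ • ∑ s, g (n N s)
  have hmem : ∀ N, h N ∈ convexHull ℝ (g '' Ici N) := fun N => avg_mem g k N (n N) (hnN N)
  have hb : Blk h g := by
    intro N
    filter_upwards [eventually_ge_atTop N] with m hm
    exact convexHull_mono (image_mono (Ici_subset_Ici.2 hm)) (hmem m)
  set δ : ℝ := ε / (32 * K) with hδ
  have hδ0 : 0 < δ := by positivity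
  have hKδ : K * δ = ε / 32 := by
    rw [hδ]; field_simp
  have hδε : δ ≤ ε / 32 := by nlinarith
  have hno := hst h hb (ε - δ) (by linarith) (by linarith)
  simp only [OscLe, not_forall, not_exists, not_le, exists_prop] at hno
  obtain ⟨y, η, hη, hfreq⟩ := hno
  obtain ⟨N₁, hN₁⟩ := hg y δ hδ0
  have hull : ∀ a ∈ convexHull ℝ (g '' Ici N₁), ∀ b ∈ convexHull ℝ (g '' Ici N₁),
      ev y a ≤ ev y b + (ε + δ) := fun a ha b hb' =>
    OscLe.hull (ev := ev) (g := g) (c := ε + δ) (x := y) (N := N₁)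
      (fun m hm n hn => by have := hN₁ m hm n hn; linarith) ha hb'
  obtain ⟨m₀, hm₀, n₀, hn₀, h₀⟩ := hfreq N₁
  have hmem₁ : ∀ N, N₁ ≤ N → h N ∈ convexHull ℝ (g '' Ici N₁) := fun N hN =>
    convexHull_mono (image_mono (Ici_subset_Ici.2 hN)) (hmem N)
  have hval : ∀ N, ev y (h N) * (Fintype.card (Fin k → Bool)) = ∑ s, ev y (g (n N s)) := by
    intro N
    simp only [h, map_smul, map_sum, smul_eq_mul, card_bool_fun]
    push_cast
    rw [← hK]
    field_simp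
  refine ⟨(y, (ev y (h m₀) + ev y (h n₀)) / 2), ?_⟩
  intro N
  obtain ⟨m, hm, m', hm', hmm⟩ := hfreq (max N N₁)
  have hmN₁ : N₁ ≤ m := le_trans (le_max_right _ _) hm
  have hmN₁' : N₁ ≤ m' := le_trans (le_max_right _ _) hm'
  have hcard : (Fintype.card (Fin k → Bool) : ℝ) = K := by
    rw [card_bool_fun, hK]; push_cast; ring
  -- upper family
  have hup : ∀ s, ev y (h m₀) - 6 * K * δ ≤ ev y (g (n m s)) := by
    intro s
    have hB : ∀ s, ev y (g (n m s)) ≤ ev y (h m₀) + 2 * δ := by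
      intro s
      have := hull (g (n m s)) (subset_convexHull ℝ _ ⟨n m s, le_trans hmN₁ (hnN m s), rfl⟩)
        (h n₀) (hmem₁ n₀ hn₀)
      linarith
    have hA : (ev y (h m₀) - 2 * δ) * (Fintype.card (Fin k → Bool)) ≤
        ∑ s, ev y (g (n m s)) := by
      rw [← hval m]
      apply mul_le_mul_of_nonneg_right _ (Nat.cast_nonneg _)
      have := hull (h m₀) (hmem₁ m₀ hm₀) (h m') (hmem₁ m' hmN₁')
      linarith
    have := each_ge_of_avg (fun s => ev y (g (n m s))) _ _ hB hA s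
    rw [hcard] at this
    have h3 : δ ≤ K * δ := by nlinarith
    nlinarith
  have hlow : ∀ s, ev y (g (n m' s)) ≤ ev y (h n₀) + 6 * K * δ := by
    intro s
    have hB : ∀ s, -ev y (g (n m' s)) ≤ -ev y (h n₀) + 2 * δ := by
      intro s
      have := hull (h m₀) (hmem₁ m₀ hm₀) (g (n m' s))
        (subset_convexHull ℝ _ ⟨n m' s, le_trans hmN₁' (hnN m' s), rfl⟩)
      linarith
    have hA : (-ev y (h n₀) - 2 * δ) * (Fintype.card (Fin k → Bool)) ≤
        ∑ s, -ev y (g (n m' s)) := by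
      rw [Finset.sum_neg_distrib, ← hval m', ← neg_mul]
      apply mul_le_mul_of_nonneg_right _ (Nat.cast_nonneg _)
      have := hull (h m) (hmem₁ m hmN₁) (h n₀) (hmem₁ n₀ hn₀)
      linarith
    have := each_ge_of_avg (fun s => -ev y (g (n m' s))) _ _ hB hA s
    rw [hcard] at this
    have h3 : δ ≤ K * δ := by nlinarith
    nlinarith
  refine ⟨fun s => if s (Fin.last k) then n m (Fin.init s) else n m' (Fin.init s), ?_, ?_⟩
  · intro s
    dsimp only
    split_ifs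
    · exact le_trans (le_trans (le_max_left _ _) hm) (hnN m _)
    · exact le_trans (le_trans (le_max_left _ _) hm') (hnN m' _)
  · intro s j
    refine Fin.lastCases ?_ (fun j => ?_) j
    · simp only [Fin.snoc_last]
      by_cases hs : s (Fin.last k)
      · simp only [hs, if_true, sgn]
        have := hup (Fin.init s)
        nlinarith
      · simp only [hs, sgn]
        have := hlow (Fin.init s)
        simp only [Bool.false_eq_true, if_false]
        nlinarith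
    · simp only [Fin.snoc_castSucc]
      have hsj : s (Fin.castSucc j) = Fin.init s j := rfl
      rw [hsj]
      split_ifs
      · exact hn m (Fin.init s) j
      · exact hn m' (Fin.init s) j

/-- building an infinite sequence from one-step extensions of finite sequences -/
lemma exists_seq_of_snoc {α : Type*} (P : (k : ℕ) → (Fin k → α) → Prop)
    (h0 : P 0 (fun i => i.elim0))
    (hs : ∀ k (x : Fin k → α), P k x → ∃ y, P (k + 1) (Fin.snoc x y : Fin (k + 1) → α)) :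
    ∃ x : ℕ → α, ∀ k, P k (fun i => x i) := by
  classical
  choose y hy using hs
  let F : (k : ℕ) → {x : Fin k → α // P k x} := fun k =>
    Nat.rec ⟨_, h0⟩ (fun k z => ⟨Fin.snoc z.1 (y k z.1 z.2), hy k z.1 z.2⟩) k
  have hF : ∀ k, F (k + 1) = ⟨Fin.snoc (F k).1 (y k (F k).1 (F k).2),
    hy k (F k).1 (F k).2⟩ := fun k => rfl
  let x : ℕ → α := fun i => (F (i + 1)).1 (Fin.last i)
  have hx : ∀ k, (F k).1 = fun i : Fin k => x i := by
    intro k
    induction k with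
    | zero => ext i; exact i.elim0
    | succ k ih =>
      funext i
      refine Fin.lastCases ?_ (fun i => ?_) i
      · simp [x]
      · rw [hF k]
        simp only [Fin.snoc_castSucc, Fin.val_castSucc]
        rw [ih]
  refine ⟨x, fun k => ?_⟩
  have := (F k).2
  rwa [hx k] at this

/-- The tree dichotomy, second alternative. -/
lemma exists_tree (ev : Γ → V →ₗ[ℝ] ℝ) (g : ℕ → V) {ε : ℝ} (hε : 0 < ε) (hg : OscLe ev g ε)
    (hst : ∀ h, Blk h g → ∀ ε', 0 ≤ ε' → ε' < ε → ¬ OscLe ev h ε') :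
    ∃ x : ℕ → Γ × ℝ, ∀ k, TreeP ev g (ε / 4) k (fun i => x i) := by
  refine exists_seq_of_snoc (fun k x => TreeP ev g (ε / 4) k x) (treeP_zero ev g _ _) ?_
  intro k x hx
  exact treeP_step ev g hε hg hst k x hx

end Pool.Agent.H85.JN
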