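import Mathlib
import Pool.Agent.H85.JNTree

/-!
Auxiliary facts on dual spaces used for the Josefson-Nissenzweig theorem:
a Mazur-type sequence in the dual, weak-star limits along ultrafilters, a Bessel inequality.
-/

namespace Pool.Agent.H85.JN

open Filter Topology Set

variable {𝕜 : Type*} [RCLike 𝕜] {E : Type*} [NormedAddCommGroup E] [NormedSpace 𝕜 E]

/-- A finite dimensional space of functionals is 2-normed by a finite dimensional subspace. -/
lemma exists_norming (W : Submodule 𝕜 (StrongDual 𝕜 E)) [FiniteDimensional 𝕜 W] :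
    ∃ U : Submodule 𝕜 E, FiniteDimensional 𝕜 U ∧
      ∀ f ∈ W, ∃ x ∈ U, ‖x‖ ≤ 1 ∧ ‖f‖ ≤ 2 * ‖f x‖ := by
  classical
  have hcomp : IsCompact ((fun w : W => (w : StrongDual 𝕜 E)) '' Metric.sphere (0 : W) 1) := by
    have : ProperSpace W := FiniteDimensional.proper 𝕜 W
    exact (isCompact_sphere (0 : W) 1).image continuous_subtype_val
  have hcov : (fun w : W => (w : StrongDual 𝕜 E)) '' Metric.sphere (0 : W) 1 ⊆
      ⋃ x : {x : E // ‖x‖ ≤ 1}, {f : StrongDual 𝕜 E | 1 / 2 < ‖f x.1‖} := by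
    rintro _ ⟨w, hw, rfl⟩
    have hw1 : ‖(w : StrongDual 𝕜 E)‖ = 1 := mem_sphere_zero_iff_norm.1 hw
    by_contra hcon
    simp only [mem_iUnion, mem_ofPred_eq, not_exists, not_lt] at hcon
    have : ‖(w : StrongDual 𝕜 E)‖ ≤ 1 / 2 := by
      refine ContinuousLinearMap.opNorm_le_of_unit_norm (𝕜 := 𝕜) (by norm_num) ?_
      intro x hx
      exact hcon ⟨x, hx.le⟩
    rw [hw1] at this
    norm_num at this
  obtain ⟨t, ht⟩ := hcomp.elim_finite_subcover _ (fun x => by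
    refine isOpen_lt continuous_const (Continuous.norm ?_)
    exact (ContinuousLinearMap.apply 𝕜 𝕜 x.1).continuous) hcov
  refine ⟨Submodule.span 𝕜 ((fun x : {x : E // ‖x‖ ≤ 1} => x.1) '' (t : Set _)), ?_, ?_⟩
  · exact FiniteDimensional.span_of_finite 𝕜 (t.finite_toSet.image _)
  · intro f hf
    by_cases hf0 : f = 0
    · exact ⟨0, Submodule.zero_mem _, by simp, by simp [hf0]⟩
    have hfn : ‖f‖ ≠ 0 := by simpa using hf0
    have hmem : ((‖f‖⁻¹ : 𝕜) • f) ∈ (fun w : W => (w : StrongDual 𝕜 E)) ''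
        Metric.sphere (0 : W) 1 := by
      refine ⟨⟨((‖f‖⁻¹ : 𝕜) • f), W.smul_mem _ hf⟩, ?_, rfl⟩
      refine (mem_sphere_zero_iff_norm (a := (⟨((‖f‖⁻¹ : 𝕜) • f), W.smul_mem _ hf⟩ : W))).2 ?_
      change ‖((‖f‖⁻¹ : 𝕜) • f)‖ = 1
      rw [norm_smul]
      simp [hfn]
    have := ht hmem
    simp only [mem_iUnion, mem_ofPred_eq] at this
    obtain ⟨x, hxt, hx⟩ := this
    refine ⟨x.1, Submodule.subset_span ⟨x, hxt, rfl⟩, x.2, ?_⟩
    have h2 : ‖((‖f‖⁻¹ : 𝕜) • f) x.1‖ = ‖f‖⁻¹ * ‖f x.1‖ := by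
      rw [_root_.smul_apply, norm_smul]
      simp
    rw [h2] at hx
    have hpos : 0 < ‖f‖ := by positivity
    rw [inv_mul_eq_div, lt_div_iff₀ hpos] at hx
    linarith

/-- A norm-one functional vanishing on a given finite dimensional subspace. -/
lemma exists_annihilating (hE : ¬ FiniteDimensional 𝕜 E) (U : Submodule 𝕜 E)
    [FiniteDimensional 𝕜 U] : ∃ f : StrongDual 𝕜 E, ‖f‖ = 1 ∧ ∀ x ∈ U, f x = 0 := by
  have hcl : IsClosed (U : Set E) := U.closed_of_finiteDimensional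
  have hne : U ≠ ⊤ := by
    rintro rfl
    exact hE (LinearEquiv.finiteDimensional (Submodule.topEquiv (R := 𝕜) (M := E)))
  have := hcl
  have : Nontrivial (E ⧸ U) := Submodule.Quotient.nontrivial_iff.2 hne
  obtain ⟨y, hy⟩ := exists_ne (0 : E ⧸ U)
  obtain ⟨g, hg1, hg⟩ := exists_dual_vector 𝕜 y (by simpa using hy)
  let F : StrongDual 𝕜 E := g.comp (U.mkQL)
  have hF : F ≠ 0 := by
    intro h0
    obtain ⟨x, rfl⟩ := Submodule.Quotient.mk_surjective U y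
    have h1 : F x = g (Submodule.Quotient.mk x) := rfl
    rw [h0, hg] at h1
    simp only [_root_.zero_apply] at h1
    have h2 : ‖(Submodule.Quotient.mk x : E ⧸ U)‖ = 0 := by exact_mod_cast h1.symm
    exact hy (by simpa using h2)
  have hFn : ‖F‖ ≠ 0 := by simpa using hF
  refine ⟨((‖F‖⁻¹ : 𝕜) • F), ?_, ?_⟩
  · rw [norm_smul]; simp [hFn]
  · intro x hx
    have : F x = g (Submodule.Quotient.mk x) := rfl
    rw [_root_.smul_apply, this, (Submodule.Quotient.mk_eq_zero U).2 hx]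
    simp

/-- iterating a one-step relation -/
lemma exists_seq_rel {S : Type*} (R : S → S → Prop) (p0 : S) (h : ∀ p, ∃ q, R p q) :
    ∃ s : ℕ → S, s 0 = p0 ∧ ∀ n, R (s n) (s (n + 1)) := by
  choose q hq using h
  exact ⟨fun n => Nat.rec p0 (fun _ p => q p) n, rfl, fun n => hq _⟩

/-- The state in the Mazur-type construction. -/
structure MState (𝕜 : Type*) [RCLike 𝕜] (E : Type*) [NormedAddCommGroup E]
    [NormedSpace 𝕜 E] where
  W : Submodule 𝕜 (StrongDual 𝕜 E)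
  U : Submodule 𝕜 E
  f : StrongDual 𝕜 E
  fdW : FiniteDimensional 𝕜 W
  fdU : FiniteDimensional 𝕜 U
  norm_f : ‖f‖ = 1
  f_mem : f ∈ W
  norming : ∀ g ∈ W, ∃ x ∈ U, ‖x‖ ≤ 1 ∧ ‖g‖ ≤ 2 * ‖g x‖

lemma exists_mazur (hE : ¬ FiniteDimensional 𝕜 E) :
    ∃ (f : ℕ → StrongDual 𝕜 E) (W : ℕ → Submodule 𝕜 (StrongDual 𝕜 E))
      (U : ℕ → Submodule 𝕜 E), (∀ n, ‖f n‖ = 1) ∧ Monotone W ∧ (∀ n, f n ∈ W n) ∧
      (∀ m n, m < n → ∀ x ∈ U m, f n x = 0) ∧
      (∀ n, ∀ g ∈ W n, ∃ x ∈ U n, ‖x‖ ≤ 1 ∧ ‖g‖ ≤ 2 * ‖g x‖) := by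
  let R : MState 𝕜 E → MState 𝕜 E → Prop := fun p q =>
    p.W ≤ q.W ∧ p.U ≤ q.U ∧ ∀ x ∈ p.U, q.f x = 0
  have h0 : Nonempty (MState 𝕜 E) := by
    obtain ⟨f, hf, -⟩ := exists_annihilating hE (⊥ : Submodule 𝕜 E)
    have : FiniteDimensional 𝕜 (Submodule.span 𝕜 {f}) := inferInstance
    obtain ⟨U, hU, hn⟩ := exists_norming (Submodule.span 𝕜 {f})
    exact ⟨⟨_, U, f, this, hU, hf, Submodule.mem_span_singleton_self f, hn⟩⟩
  have hstep : ∀ p : MState 𝕜 E, ∃ q, R p q := by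
    intro p
    have := p.fdU
    have := p.fdW
    obtain ⟨f, hf, hfz⟩ := exists_annihilating hE p.U
    have hW : FiniteDimensional 𝕜 (p.W ⊔ Submodule.span 𝕜 {f} : Submodule 𝕜 _) :=
      Submodule.finiteDimensional_sup _ _
    obtain ⟨U, hU, hn⟩ := exists_norming (p.W ⊔ Submodule.span 𝕜 {f})
    have := hU
    have hUU : FiniteDimensional 𝕜 (p.U ⊔ U : Submodule 𝕜 E) :=
      Submodule.finiteDimensional_sup _ _
    refine ⟨⟨p.W ⊔ Submodule.span 𝕜 {f}, p.U ⊔ U, f, hW, hUU, hf,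
      (le_sup_right : _ ≤ p.W ⊔ Submodule.span 𝕜 {f}) (Submodule.mem_span_singleton_self f), ?_⟩,
      le_sup_left, le_sup_left, hfz⟩
    intro g hg
    obtain ⟨x, hx, h1, h2⟩ := hn g hg
    exact ⟨x, (le_sup_right : U ≤ p.U ⊔ U) hx, h1, h2⟩
  obtain ⟨s, -, hs⟩ := exists_seq_rel R h0.some hstep
  have hWm : Monotone (fun n => (s n).W) := monotone_nat_of_le_succ (fun n => (hs n).1)
  have hUm : Monotone (fun n => (s n).U) := monotone_nat_of_le_succ (fun n => (hs n).2.1)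
  refine ⟨fun n => (s n).f, fun n => (s n).W, fun n => (s n).U, fun n => (s n).norm_f, hWm,
    fun n => (s n).f_mem, ?_, fun n => (s n).norming⟩
  intro m n hmn x hx
  obtain ⟨k, rfl⟩ : ∃ k, n = k + 1 := ⟨n - 1, by omega⟩
  exact (hs k).2.2 x (hUm (by omega : m ≤ k) hx)

/-- weak-star limits along an ultrafilter -/
lemma exists_ultra_limit {ι : Type*} (U : Ultrafilter ι) (F : ι → StrongDual 𝕜 E) (C : ℝ)
    (hF : ∀ i, ‖F i‖ ≤ C) :
    ∃ h : StrongDual 𝕜 E, ∀ x, Tendsto (fun i => F i x) U (𝓝 (h x)) := by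
  have hK := WeakDual.isCompact_closedBall (𝕜 := 𝕜) (E := E) 0 C
  have hmem : (U.map (fun i => StrongDual.toWeakDual (F i)) : Filter (WeakDual 𝕜 E)) ≤
      𝓟 (WeakDual.toStrongDual ⁻¹' Metric.closedBall (0 : StrongDual 𝕜 E) C) := by
    rw [le_principal_iff]
    refine Filter.mem_map.2 (Filter.univ_mem' ?_)
    intro i
    simpa using hF i
  obtain ⟨h, -, hh⟩ := hK.ultrafilter_le_nhds (U.map fun i => StrongDual.toWeakDual (F i)) hmem
  refine ⟨WeakDual.toStrongDual h, fun x => ?_⟩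
  have h1 : Tendsto (fun y : WeakDual 𝕜 E => y x) (𝓝 h) (𝓝 (h x)) :=
    (WeakDual.eval_continuous x).continuousAt
  have h2 : Tendsto (fun i => StrongDual.toWeakDual (F i)) U (𝓝 h) := hh
  exact h1.comp h2

lemma sgn_mul_self (b : Bool) : sgn b * sgn b = 1 := by cases b <;> simp [sgn]

lemma sgn_not (b : Bool) : sgn (!b) = - sgn b := by cases b <;> simp [sgn]

lemma abs_sgn (b : Bool) : |sgn b| = 1 := by cases b <;> simp [sgn]

/-- flipping one coordinate -/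
def flip1 {k : ℕ} (i : Fin k) : (Fin k → Bool) ≃ (Fin k → Bool) where
  toFun s := Function.update s i (!s i)
  invFun s := Function.update s i (!s i)
  left_inv s := by simp
  right_inv s := by simp

lemma flip1_same {k : ℕ} (i : Fin k) (s : Fin k → Bool) : flip1 i s i = !s i := by
  simp [flip1]

lemma flip1_ne {k : ℕ} {i j : Fin k} (h : j ≠ i) (s : Fin k → Bool) : flip1 i s j = s j := by
  simp [flip1, h]

lemma sum_sgn {k : ℕ} (i : Fin k) : ∑ s : Fin k → Bool, sgn (s i) = 0 := by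
  have h : ∑ s : Fin k → Bool, sgn (s i) = ∑ s : Fin k → Bool, sgn (flip1 i s i) :=
    (Equiv.sum_comp (flip1 i) (fun s => sgn (s i))).symm
  have h2 : ∑ s : Fin k → Bool, sgn (flip1 i s i) = - ∑ s : Fin k → Bool, sgn (s i) := by
    rw [← Finset.sum_neg_distrib]
    exact Finset.sum_congr rfl (fun s _ => by rw [flip1_same, sgn_not])
  linarith

lemma sum_sgn_mul_sgn {k : ℕ} {i j : Fin k} (hij : j ≠ i) :
    ∑ s : Fin k → Bool, sgn (s i) * sgn (s j) = 0 := by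
  have h : ∑ s : Fin k → Bool, sgn (s i) * sgn (s j) =
      ∑ s : Fin k → Bool, sgn (flip1 i s i) * sgn (flip1 i s j) :=
    (Equiv.sum_comp (flip1 i) (fun s => sgn (s i) * sgn (s j))).symm
  have h2 : ∑ s : Fin k → Bool, sgn (flip1 i s i) * sgn (flip1 i s j) =
      - ∑ s : Fin k → Bool, sgn (s i) * sgn (s j) := by
    rw [← Finset.sum_neg_distrib]
    exact Finset.sum_congr rfl (fun s _ => by rw [flip1_same, flip1_ne hij, sgn_not]; ring)
  linarith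

/-- Bessel's inequality for the Rademacher functions on the discrete cube. -/
lemma bessel (k : ℕ) (c : (Fin k → Bool) → 𝕜) :
    ∑ j : Fin k, ‖((2 : ℝ) ^ k)⁻¹ • ∑ s, sgn (s j) • c s‖ ^ 2 ≤
      ((2 : ℝ) ^ k)⁻¹ * ∑ s, ‖c s‖ ^ 2 := by
  classical
  set K : ℝ := (2 : ℝ) ^ k with hK
  have hKpos : 0 < K := by positivity
  let v : Fin k → EuclideanSpace 𝕜 (Fin k → Bool) := fun j =>
    WithLp.toLp 2 (fun s => (((Real.sqrt K)⁻¹ * sgn (s j) : ℝ) : 𝕜))
  have hsq : Real.sqrt K * Real.sqrt K = K := Real.mul_self_sqrt hKpos.le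
  have hsqpos : 0 < Real.sqrt K := Real.sqrt_pos.2 hKpos
  have hcard : ∑ _s : Fin k → Bool, (1 : ℝ) = K := by
    simp [hK]
  have hv : Orthonormal 𝕜 v := by
    rw [orthonormal_iff_ite]
    intro i j
    have h1 : inner 𝕜 (v i) (v j) =
        ((∑ s : Fin k → Bool, ((Real.sqrt K)⁻¹ * sgn (s i)) * ((Real.sqrt K)⁻¹ * sgn (s j)) : ℝ)
          : 𝕜) := by
      simp only [v, PiLp.inner_apply, RCLike.inner_apply, RCLike.conj_ofReal]
      push_cast
      exact Finset.sum_congr rfl (fun s _ => by ring)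
    rw [h1]
    have h2 : ∑ s : Fin k → Bool, ((Real.sqrt K)⁻¹ * sgn (s i)) * ((Real.sqrt K)⁻¹ * sgn (s j))
        = K⁻¹ * ∑ s : Fin k → Bool, sgn (s i) * sgn (s j) := by
      rw [Finset.mul_sum]
      refine Finset.sum_congr rfl (fun s _ => ?_)
      have : K⁻¹ = (Real.sqrt K)⁻¹ * (Real.sqrt K)⁻¹ := by
        rw [← mul_inv, hsq]
      rw [this]; ring
    rw [h2]
    split_ifs with hij
    · subst hij
      simp only [sgn_mul_self, hcard]
      rw [inv_mul_cancel₀ hKpos.ne']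
      simp
    · rw [sum_sgn_mul_sgn (Ne.symm hij)]
      simp
  have hb := hv.sum_inner_products_le (WithLp.toLp 2 c) (s := Finset.univ)
  have h3 : ∀ j, inner 𝕜 (v j) (WithLp.toLp 2 c) = (((Real.sqrt K)⁻¹ : ℝ) : 𝕜) *
      ∑ s, sgn (s j) • c s := by
    intro j
    simp only [v, PiLp.inner_apply, RCLike.inner_apply, RCLike.conj_ofReal]
    rw [Finset.mul_sum]
    refine Finset.sum_congr rfl (fun s _ => ?_)
    rw [RCLike.real_smul_eq_coe_mul]
    push_cast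
    ring
  have h4 : ‖(WithLp.toLp 2 c : EuclideanSpace 𝕜 (Fin k → Bool))‖ ^ 2 = ∑ s, ‖c s‖ ^ 2 := by
    rw [EuclideanSpace.norm_eq, Real.sq_sqrt (Finset.sum_nonneg (fun _ _ => by positivity))]
  rw [h4] at hb
  have h5 : ∀ j : Fin k, ‖K⁻¹ • ∑ s, sgn (s j) • c s‖ ^ 2 =
      K⁻¹ * ‖inner 𝕜 (v j) (WithLp.toLp 2 c)‖ ^ 2 := by
    intro j
    rw [h3 j, norm_smul, norm_mul, RCLike.norm_ofReal, mul_pow, mul_pow]
    rw [Real.norm_of_nonneg (inv_nonneg.2 hKpos.le), abs_of_nonneg (inv_nonneg.2 hsqpos.le)]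
    have : (Real.sqrt K)⁻¹ ^ 2 = K⁻¹ := by
      rw [inv_pow, sq, hsq]
    rw [this]; ring
  calc ∑ j : Fin k, ‖K⁻¹ • ∑ s, sgn (s j) • c s‖ ^ 2
      = K⁻¹ * ∑ j : Fin k, ‖inner 𝕜 (v j) (WithLp.toLp 2 c)‖ ^ 2 := by
        rw [Finset.mul_sum]; exact Finset.sum_congr rfl (fun j _ => h5 j)
    _ ≤ K⁻¹ * ∑ s, ‖c s‖ ^ 2 := by
        exact mul_le_mul_of_nonneg_left hb (inv_nonneg.2 hKpos.le)

end Pool.Agent.H85.JN
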