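import Mathlib
import Pool.Agent.H85.JNBasic

/-!
The Josefson-Nissenzweig theorem.
-/

namespace Pool.Agent.H85.JN

open Filter Topology Set

variable {𝕜 : Type*} [RCLike 𝕜] {E : Type*} [NormedAddCommGroup E] [NormedSpace 𝕜 E]

/-- real part of the evaluation at a point of the unit ball -/
def evR (x : {x : E // ‖x‖ ≤ 1}) : StrongDual 𝕜 E →ₗ[ℝ] ℝ where
  toFun v := RCLike.re (v x.1)
  map_add' := by intro a b; simp
  map_smul' := by intro c a; simp [RCLike.smul_re]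

lemma evR_apply (x : {x : E // ‖x‖ ≤ 1}) (v : StrongDual 𝕜 E) :
    evR x v = RCLike.re (v x.1) := rfl

lemma abs_evR_le (x : {x : E // ‖x‖ ≤ 1}) (v : StrongDual 𝕜 E) : |evR x v| ≤ ‖v‖ := by
  rw [evR_apply]
  calc |RCLike.re (v x.1)| ≤ ‖v x.1‖ := RCLike.abs_re_le_norm _
    _ ≤ ‖v‖ * ‖x.1‖ := v.le_opNorm _
    _ ≤ ‖v‖ * 1 := by gcongr; exact x.2
    _ = ‖v‖ := mul_one _

lemma norm_le_of_mem_hull {f : ℕ → StrongDual 𝕜 E} {C : ℝ} (hf : ∀ n, ‖f n‖ ≤ C) {N : ℕ}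
    {a : StrongDual 𝕜 E} (ha : a ∈ convexHull ℝ (f '' Ici N)) : ‖a‖ ≤ C := by
  have h1 : a ∈ Metric.closedBall (0 : StrongDual 𝕜 E) C := by
    refine convexHull_min ?_ (convex_closedBall _ _) ha
    rintro _ ⟨n, _, rfl⟩
    simpa using hf n
  simpa using h1

lemma norm_le_re_im (z : 𝕜) : ‖z‖ ≤ |RCLike.re z| + |RCLike.im z| := by
  have h1 : ‖(RCLike.I : 𝕜)‖ ≤ 1 := by
    rcases RCLike.I_eq_zero_or_im_I_eq_one (K := 𝕜) with h | h
    · rw [h]; simp
    · exact (RCLike.norm_I_of_ne_zero (by rintro h0; rw [h0] at h; simp at h)).le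
  calc ‖z‖ = ‖((RCLike.re z : ℝ) : 𝕜) + ((RCLike.im z : ℝ) : 𝕜) * RCLike.I‖ := by
        rw [RCLike.re_add_im]
    _ ≤ ‖((RCLike.re z : ℝ) : 𝕜)‖ + ‖((RCLike.im z : ℝ) : 𝕜) * RCLike.I‖ := norm_add_le _ _
    _ = |RCLike.re z| + |RCLike.im z| * ‖(RCLike.I : 𝕜)‖ := by
        rw [norm_mul, RCLike.norm_ofReal, RCLike.norm_ofReal]
    _ ≤ |RCLike.re z| + |RCLike.im z| * 1 := by gcongr
    _ = _ := by rw [mul_one]

/-- If `g` has oscillation zero then differences `g n - g (m n)` are weak-star null. -/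
lemma tendsto_of_oscLe_zero {g : ℕ → StrongDual 𝕜 E} (hg : OscLe (evR (𝕜 := 𝕜) (E := E)) g 0)
    (m : ℕ → ℕ) (hm : ∀ n, n ≤ m n) (x : E) :
    Tendsto (fun n => (g n - g (m n)) x) atTop (𝓝 0) := by
  have key : ∀ x : {x : E // ‖x‖ ≤ 1},
      Tendsto (fun n => (RCLike.re ((g n - g (m n)) x.1) : ℝ)) atTop (𝓝 0) := by
    intro x
    rw [Metric.tendsto_atTop]
    intro η hη
    obtain ⟨N, hN⟩ := hg x (η / 2) (by positivity)
    refine ⟨N, fun n hn => ?_⟩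
    have h1 := hN n hn (m n) (le_trans hn (hm n))
    have h2 := hN (m n) (le_trans hn (hm n)) n hn
    simp only [evR_apply] at h1 h2
    simp only [Real.dist_eq, sub_zero, _root_.sub_apply, map_sub]
    rw [abs_lt]
    constructor <;> linarith
  have key2 : ∀ x : {x : E // ‖x‖ ≤ 1},
      Tendsto (fun n => (g n - g (m n)) x.1) atTop (𝓝 0) := by
    intro x
    have hI : ‖(RCLike.I : 𝕜) • x.1‖ ≤ 1 := by
      rw [norm_smul]
      have : ‖(RCLike.I : 𝕜)‖ ≤ 1 := by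
        rcases RCLike.I_eq_zero_or_im_I_eq_one (K := 𝕜) with h | h
        · rw [h]; simp
        · exact (RCLike.norm_I_of_ne_zero (by rintro h0; rw [h0] at h; simp at h)).le
      calc ‖(RCLike.I : 𝕜)‖ * ‖x.1‖ ≤ 1 * 1 := by
            gcongr; exact x.2
        _ = 1 := by norm_num
    have h1 := key x
    have h2 := key ⟨_, hI⟩
    rw [tendsto_zero_iff_norm_tendsto_zero]
    have h3 : Tendsto (fun n => |(RCLike.re ((g n - g (m n)) x.1) : ℝ)| +
        |(RCLike.re ((g n - g (m n)) ((RCLike.I : 𝕜) • x.1)) : ℝ)|) atTop (𝓝 0) := by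
      simpa using h1.abs.add h2.abs
    refine squeeze_zero (fun _ => norm_nonneg _) (fun n => ?_) h3
    rw [map_smul, smul_eq_mul]
    have h5 : RCLike.re ((RCLike.I : 𝕜) * (g n - g (m n)) x.1) =
        - RCLike.im ((g n - g (m n)) x.1) := RCLike.I_mul_re _
    rw [h5, abs_neg]
    exact norm_le_re_im _
  by_cases hx : x = 0
  · subst hx; simp
  have hxn : (‖x‖ : 𝕜) ≠ 0 := by
    simpa using hx
  have h1 := key2 ⟨((‖x‖ : 𝕜)⁻¹) • x, by
    rw [norm_smul]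
    have : ‖x‖ ≠ 0 := by simpa using hx
    simp [this]⟩
  have h2 := h1.const_mul (‖x‖ : 𝕜)
  rw [mul_zero] at h2
  refine h2.congr (fun n => ?_)
  simp only [map_smul, smul_eq_mul]
  rw [← mul_assoc, mul_inv_cancel₀ hxn, one_mul]

/-- From a tree one obtains a weak-star null sequence bounded below in norm. -/
lemma exists_of_tree {g : ℕ → StrongDual 𝕜 E} (hg : ∀ᶠ n in atTop, ‖g n‖ ≤ 1) {ε : ℝ}
    (x : ℕ → {x : E // ‖x‖ ≤ 1} × ℝ)
    (hx : ∀ k, TreeP (evR (𝕜 := 𝕜) (E := E)) g ε k (fun i => x i)) :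
    ∃ d : ℕ → StrongDual 𝕜 E, (∀ n, ε ≤ ‖d n‖) ∧
      ∀ y, Tendsto (fun n => d n y) atTop (𝓝 0) := by
  classical
  obtain ⟨N₀, hN₀⟩ := eventually_atTop.1 hg
  choose n hnN hn using fun k => hx k N₀
  let H : ℕ → ℕ → StrongDual 𝕜 E := fun k j =>
    if h : j < k then ((2 : ℝ) ^ k)⁻¹ • ∑ s, sgn (s ⟨j, h⟩) • g (n k s) else 0
  have hbes : ∀ k (y : E), ∑ j ∈ Finset.range k, ‖H k j y‖ ^ 2 ≤ ‖y‖ ^ 2 := by
    intro k y
    rw [Finset.sum_range]
    have h1 : ∀ j : Fin k, H k j y = ((2 : ℝ) ^ k)⁻¹ • ∑ s, sgn (s j) • g (n k s) y := by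
      intro j
      simp [H]
    simp only [h1]
    refine (bessel k (fun s => g (n k s) y)).trans ?_
    have h2 : ∑ s, ‖g (n k s) y‖ ^ 2 ≤ ∑ _s : Fin k → Bool, ‖y‖ ^ 2 := by
      refine Finset.sum_le_sum (fun s _ => ?_)
      have h3 : ‖g (n k s) y‖ ≤ ‖y‖ := by
        calc ‖g (n k s) y‖ ≤ ‖g (n k s)‖ * ‖y‖ := ContinuousLinearMap.le_opNorm _ _
          _ ≤ 1 * ‖y‖ := by gcongr; exact hN₀ _ (hnN k s)
          _ = ‖y‖ := one_mul _
      exact pow_le_pow_left₀ (norm_nonneg _) h3 2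
    calc ((2 : ℝ) ^ k)⁻¹ * ∑ s, ‖g (n k s) y‖ ^ 2
        ≤ ((2 : ℝ) ^ k)⁻¹ * ∑ _s : Fin k → Bool, ‖y‖ ^ 2 := by gcongr
      _ = ‖y‖ ^ 2 := by
        rw [Finset.sum_const, Finset.card_univ, card_bool_fun, nsmul_eq_mul]
        push_cast
        rw [← mul_assoc, inv_mul_cancel₀ (by positivity), one_mul]
  have hHnorm : ∀ j k, ‖H k j‖ ≤ 1 := by
    intro j k
    by_cases hjk : j < k
    · refine ContinuousLinearMap.opNorm_le_bound _ zero_le_one (fun y => ?_)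
      have h1 : ‖H k j y‖ ^ 2 ≤ ‖y‖ ^ 2 :=
        (Finset.single_le_sum (f := fun j => ‖H k j y‖ ^ 2) (fun _ _ => by positivity)
          (Finset.mem_range.2 hjk)).trans (hbes k y)
      rw [one_mul]
      exact (pow_le_pow_iff_left₀ (norm_nonneg _) (norm_nonneg _) two_ne_zero).1 h1
    · simp [H, hjk]
  have hlow : ∀ j k, j < k → ε ≤ RCLike.re (H k j (x j).1.1) := by
    intro j k hjk
    have h1 : RCLike.re (H k j (x j).1.1) =
        ((2 : ℝ) ^ k)⁻¹ * ∑ s, sgn (s ⟨j, hjk⟩) * evR (x j).1 (g (n k s)) := by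
      have : H k j (x j).1.1 =
          ((2 : ℝ) ^ k)⁻¹ • ∑ s, sgn (s ⟨j, hjk⟩) • g (n k s) (x j).1.1 := by
        simp [H, hjk]
      rw [this, RCLike.smul_re, map_sum]
      simp only [RCLike.smul_re, evR_apply]
    have h2 : ∑ s : Fin k → Bool, ε ≤
        ∑ s, sgn (s ⟨j, hjk⟩) * (evR (x j).1 (g (n k s)) - (x j).2) :=
      Finset.sum_le_sum (fun s _ => hn k s ⟨j, hjk⟩)
    have h3 : ∑ s, sgn (s ⟨j, hjk⟩) * (evR (x j).1 (g (n k s)) - (x j).2) =
        ∑ s, sgn (s ⟨j, hjk⟩) * evR (x j).1 (g (n k s)) := by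
      have : ∀ s : Fin k → Bool, sgn (s ⟨j, hjk⟩) * (evR (x j).1 (g (n k s)) - (x j).2) =
          sgn (s ⟨j, hjk⟩) * evR (x j).1 (g (n k s)) - sgn (s ⟨j, hjk⟩) * (x j).2 :=
        fun s => by ring
      simp only [this]
      rw [Finset.sum_sub_distrib, ← Finset.sum_mul, sum_sgn, zero_mul, sub_zero]
    rw [h3, Finset.sum_const, Finset.card_univ, card_bool_fun, nsmul_eq_mul] at h2
    push_cast at h2
    rw [h1, inv_mul_eq_div, le_div_iff₀ (by positivity)]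
    linarith
  choose h hh using fun j => exists_ultra_limit (hyperfilter ℕ) (fun k => H k j) 1 (hHnorm j)
  have hlarge : ∀ K : ℕ, ∀ᶠ k in (hyperfilter ℕ : Filter ℕ), K < k := by
    intro K
    have : ∀ᶠ k in atTop, K < k := eventually_gt_atTop K
    rw [← Nat.cofinite_eq_atTop] at this
    exact this.filter_mono (hyperfilter_le_cofinite)
  refine ⟨h, fun j => ?_, fun y => ?_⟩
  · have h1 : Tendsto (fun k => (RCLike.re (H k j (x j).1.1) : ℝ)) (hyperfilter ℕ)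
        (𝓝 (RCLike.re (h j (x j).1.1))) :=
      (RCLike.continuous_re.tendsto _).comp (hh j (x j).1.1)
    have h2 : ε ≤ RCLike.re (h j (x j).1.1) := by
      refine ge_of_tendsto h1 ?_
      filter_upwards [hlarge j] with k hk
      exact hlow j k hk
    calc ε ≤ RCLike.re (h j (x j).1.1) := h2
      _ = evR (x j).1 (h j) := rfl
      _ ≤ |evR (x j).1 (h j)| := le_abs_self _
      _ ≤ ‖h j‖ := abs_evR_le _ _
  · have hsum : ∀ J, ∑ j ∈ Finset.range J, ‖h j y‖ ^ 2 ≤ ‖y‖ ^ 2 := by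
      intro J
      have h1 : Tendsto (fun k => ∑ j ∈ Finset.range J, ‖H k j y‖ ^ 2) (hyperfilter ℕ)
          (𝓝 (∑ j ∈ Finset.range J, ‖h j y‖ ^ 2)) :=
        tendsto_finsetSum _ (fun j _ => ((hh j y).norm.pow 2))
      refine le_of_tendsto h1 ?_
      filter_upwards [hlarge J] with k hk
      refine le_trans ?_ (hbes k y)
      refine Finset.sum_le_sum_of_subset_of_nonneg (Finset.range_mono hk.le)
        (fun _ _ _ => by positivity)
    have hs : Summable (fun j => ‖h j y‖ ^ 2) :=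
      summable_of_sum_range_le (fun _ => by positivity) hsum
    have h0 := hs.tendsto_atTop_zero
    rw [tendsto_zero_iff_norm_tendsto_zero]
    have h4 := (Real.continuous_sqrt.tendsto 0).comp h0
    rw [Real.sqrt_zero] at h4
    refine h4.congr (fun j => ?_)
    simp [Real.sqrt_sq]

/-- Weak form of the Josefson-Nissenzweig theorem. -/
theorem exists_weakStar_null (hE : ¬ FiniteDimensional 𝕜 E) :
    ∃ (d : ℕ → StrongDual 𝕜 E) (c : ℝ), 0 < c ∧ (∀ n, c ≤ ‖d n‖) ∧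
      ∀ x, Tendsto (fun n => d n x) atTop (𝓝 0) := by
  classical
  obtain ⟨f, W, U, hf1, hW, hfW, hfU, hnorm⟩ := exists_mazur hE
  by_cases h0 : ∀ x, Tendsto (fun n => f n x) atTop (𝓝 0)
  · exact ⟨f, 1, one_pos, fun n => (hf1 n).ge, h0⟩
  push Not at h0
  obtain ⟨x₀, hx₀⟩ := h0
  have hfreq : ∃ ε > 0, ∃ᶠ n in atTop, ε ≤ ‖f n x₀‖ := by
    by_contra hcon
    push Not at hcon
    apply hx₀
    rw [tendsto_zero_iff_norm_tendsto_zero, Metric.tendsto_atTop]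
    intro ε hε
    have h1 := hcon ε hε
    obtain ⟨N, hN⟩ := eventually_atTop.1 h1
    refine ⟨N, fun n hn => ?_⟩
    simpa using hN n hn
  obtain ⟨ε₀, hε₀, hfr⟩ := hfreq
  obtain ⟨φ, hφ, hφε⟩ := extraction_of_frequently_atTop hfr
  have hpos : ∀ n, 0 < ‖f (φ n) x₀‖ := fun n => lt_of_lt_of_le hε₀ (hφε n)
  let c : ℕ → 𝕜 := fun n => (starRingEnd 𝕜) (f (φ n) x₀) / (‖f (φ n) x₀‖ : 𝕜)
  have hc : ∀ n, ‖c n‖ = 1 := by
    intro n
    simp only [c, norm_div, RCLike.norm_conj, RCLike.norm_ofReal, abs_norm]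
    exact div_self (hpos n).ne'
  let u : ℕ → StrongDual 𝕜 E := fun n => c n • f (φ n)
  have hu1 : ∀ n, ‖u n‖ = 1 := by
    intro n
    simp only [u]
    rw [norm_smul, hc, hf1, one_mul]
  have hux : ∀ n, ε₀ ≤ RCLike.re (u n x₀) := by
    intro n
    have : u n x₀ = (‖f (φ n) x₀‖ : 𝕜) := by
      simp only [u, c, _root_.smul_apply, smul_eq_mul]
      rw [div_mul_eq_mul_div, mul_comm, RCLike.mul_conj]
      have : (‖f (φ n) x₀‖ : 𝕜) ≠ 0 := by exact_mod_cast (hpos n).ne'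
      field_simp
    rw [this, RCLike.ofReal_re]
    exact hφε n
  have hx₀ne : 0 < ‖x₀‖ := by
    rw [norm_pos_iff]
    rintro rfl
    have := hpos 0
    simp at this
  set ε₁ : ℝ := ε₀ / ‖x₀‖ with hε₁
  have hε₁pos : 0 < ε₁ := by positivity
  have hhull_norm : ∀ N, ∀ a ∈ convexHull ℝ (u '' Ici N), ε₁ ≤ ‖a‖ := by
    intro N a ha
    have h1 : a ∈ {v : StrongDual 𝕜 E | ε₀ ≤ RCLike.re (v x₀)} := by
      refine convexHull_min ?_ ?_ ha
      · rintro _ ⟨n, _, rfl⟩; exact hux n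
      · let L : StrongDual 𝕜 E →ₗ[ℝ] ℝ :=
          { toFun := fun v => RCLike.re (v x₀)
            map_add' := by intro a b; simp
            map_smul' := by intro c a; simp [RCLike.smul_re] }
        exact convex_halfSpace_ge L.isLinear ε₀
    have h1' : ε₀ ≤ RCLike.re (a x₀) := h1
    have h2 : ε₀ ≤ ‖a‖ * ‖x₀‖ :=
      h1'.trans ((RCLike.re_le_norm _).trans (a.le_opNorm _))
    rw [hε₁, div_le_iff₀ hx₀ne]
    exact h2
  have hhull_W : ∀ a ∈ convexHull ℝ (u '' Ici 0), ∃ M, a ∈ W M := by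
    intro a ha
    have h1 : a ∈ {v : StrongDual 𝕜 E | ∃ M, v ∈ W M} := by
      refine convexHull_min ?_ ?_ ha
      · rintro _ ⟨n, _, rfl⟩
        exact ⟨φ n, (W _).smul_mem _ (hfW _)⟩
      · rintro v ⟨M, hM⟩ w ⟨M', hM'⟩ s t _ _ _
        refine ⟨max M M', ?_⟩
        have e1 : s • v = ((s : 𝕜)) • v := by
          ext y; simp [RCLike.real_smul_eq_coe_mul]
        have e2 : t • w = ((t : 𝕜)) • w := by
          ext y; simp [RCLike.real_smul_eq_coe_mul]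
        rw [e1, e2]
        exact (W _).add_mem ((W _).smul_mem _ (hW (le_max_left _ _) hM))
          ((W _).smul_mem _ (hW (le_max_right _ _) hM'))
    exact h1
  have hsep : ∀ a ∈ convexHull ℝ (u '' Ici 0), ∃ M', ∀ b ∈ convexHull ℝ (u '' Ici M'),
      ε₁ / 2 ≤ ‖a - b‖ := by
    intro a ha
    obtain ⟨M, hM⟩ := hhull_W a ha
    obtain ⟨x, hxU, hx1, hxa⟩ := hnorm M a hM
    refine ⟨M + 1, fun b hb => ?_⟩
    have hbx : b x = 0 := by
      have h1 : b ∈ {v : StrongDual 𝕜 E | v x = 0} := by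
        refine convexHull_min ?_ ?_ hb
        · rintro _ ⟨n, hn, rfl⟩
          have hn' : M < φ n := lt_of_lt_of_le (Nat.lt_of_succ_le hn) (hφ.id_le n)
          simp only [mem_ofPred_eq, u, _root_.smul_apply, hfU M (φ n) hn' x hxU, smul_zero]
        · rintro v hv w hw s t _ _ _
          simp only [mem_ofPred_eq] at hv hw ⊢
          simp [hv, hw]
      exact h1
    have h2 := hhull_norm 0 a ha
    have h3 : ‖a x‖ ≤ ‖a - b‖ := by
      have : (a - b) x = a x := by simp [hbx]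
      rw [← this]
      calc ‖(a - b) x‖ ≤ ‖a - b‖ * ‖x‖ := ContinuousLinearMap.le_opNorm _ _
        _ ≤ ‖a - b‖ * 1 := by gcongr
        _ = ‖a - b‖ := mul_one _
    linarith
  have hosc : OscLe (evR (𝕜 := 𝕜) (E := E)) u 2 := by
    intro x η hη
    refine ⟨0, fun m _ n _ => ?_⟩
    have h1 := abs_le.1 ((abs_evR_le x (u m)).trans (hu1 m).le)
    have h2 := abs_le.1 ((abs_evR_le x (u n)).trans (hu1 n).le)
    linarith [h1.2, h2.1]
  obtain ⟨g, hgu, ε, hε, hgo, hst⟩ := exists_stable (evR (𝕜 := 𝕜) (E := E)) u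
    ⟨2, by norm_num, hosc⟩
  rcases hε.eq_or_lt with hε0 | hεpos
  · -- weak-star convergent convex blocks
    subst hε0
    obtain ⟨n₀, hn₀⟩ := eventually_atTop.1 (hgu 0)
    have hm : ∀ n, ∃ m, n ≤ m ∧ (n₀ ≤ n → ε₁ / 2 ≤ ‖g n - g m‖) := by
      intro n
      by_cases hn : n₀ ≤ n
      · obtain ⟨M', hM'⟩ := hsep (g n) (hn₀ n hn)
        obtain ⟨m, hm1, hm2⟩ := ((hgu M').and (eventually_ge_atTop n)).exists
        exact ⟨m, hm2, fun _ => hM' _ hm1⟩
      · exact ⟨n, le_rfl, fun h => absurd h hn⟩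
    choose m hm1 hm2 using hm
    refine ⟨fun n => g (n + n₀) - g (m (n + n₀)), ε₁ / 2, by positivity,
      fun n => hm2 _ (Nat.le_add_left _ _), fun x => ?_⟩
    exact (tendsto_of_oscLe_zero hgo m hm1 x).comp (tendsto_add_atTop_nat n₀)
  · obtain ⟨x, hx⟩ := exists_tree (evR (𝕜 := 𝕜) (E := E)) g hεpos hgo hst
    have hgn : ∀ᶠ n in atTop, ‖g n‖ ≤ 1 := by
      filter_upwards [hgu 0] with n hn
      exact norm_le_of_mem_hull (fun n => (hu1 n).le) hn
    obtain ⟨d, hd1, hd2⟩ := exists_of_tree (g := g) (ε := ε / 4) hgn x hx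
    exact ⟨d, ε / 4, by positivity, hd1, hd2⟩

/-- **Josefson-Nissenzweig theorem**. -/
theorem josefson_nissenzweig (hE : ¬ FiniteDimensional 𝕜 E) :
    ∃ (g : ℕ → StrongDual 𝕜 E), (∀ n, ‖g n‖ = 1) ∧
      ∀ x, Tendsto (fun n => g n x) atTop (𝓝 0) := by
  obtain ⟨d, c, hc, hd, hx⟩ := exists_weakStar_null hE
  have hpos : ∀ n, 0 < ‖d n‖ := fun n => lt_of_lt_of_le hc (hd n)
  refine ⟨fun n => ((‖d n‖⁻¹ : ℝ) : 𝕜) • d n, fun n => ?_, fun x => ?_⟩
  · rw [norm_smul, RCLike.norm_ofReal, abs_of_nonneg (inv_nonneg.2 (norm_nonneg _))]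
    exact inv_mul_cancel₀ (hpos n).ne'
  · rw [tendsto_zero_iff_norm_tendsto_zero]
    have h1 : Tendsto (fun n => c⁻¹ * ‖d n x‖) atTop (𝓝 0) := by
      have := (tendsto_zero_iff_norm_tendsto_zero.1 (hx x)).const_mul c⁻¹
      simpa using this
    refine squeeze_zero (fun _ => norm_nonneg _) (fun n => ?_) h1
    rw [_root_.smul_apply, norm_smul, RCLike.norm_ofReal,
      abs_of_nonneg (inv_nonneg.2 (norm_nonneg _))]
    gcongr
    exact hd n

end Pool.Agent.H85.JN
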