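import Mathlib

/-!
# The weak maximizing property: definitions
-/

namespace Pool.Agent.H85.WMP

open Filter Topology Set

section Defs

variable {𝕜 : Type*} [RCLike 𝕜] {E F : Type*} [NormedAddCommGroup E] [NormedSpace 𝕜 E]
  [NormedAddCommGroup F] [NormedSpace 𝕜 F]

/-- `T` attains its norm: `‖T x‖ = ‖T‖` for some `x` in the unit sphere. -/
def AttainsNorm (T : E →L[𝕜] F) : Prop := ∃ x : E, ‖x‖ = 1 ∧ ‖T x‖ = ‖T‖

/-- `x` is a maximizing sequence for `T`: it lies in the unit sphere and `‖T (x n)‖ → ‖T‖`. -/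
def IsMaximizing (T : E →L[𝕜] F) (x : ℕ → E) : Prop :=
  (∀ n, ‖x n‖ = 1) ∧ Tendsto (fun n => ‖T (x n)‖) atTop (𝓝 ‖T‖)

/-- the sequence `x` is weakly null -/
def WeaklyNull (𝕜 : Type*) [RCLike 𝕜] {E : Type*} [NormedAddCommGroup E] [NormedSpace 𝕜 E]
    (x : ℕ → E) : Prop :=
  ∀ φ : E →L[𝕜] 𝕜, Tendsto (fun n => φ (x n)) atTop (𝓝 0)

/-- The pair `(E, F)` has the weak maximizing property: every bounded operator which has a
maximizing sequence that is not weakly null attains its norm. -/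
def HasWMP (𝕜 : Type*) [RCLike 𝕜] (E F : Type*) [NormedAddCommGroup E] [NormedSpace 𝕜 E]
    [NormedAddCommGroup F] [NormedSpace 𝕜 F] : Prop :=
  ∀ T : E →L[𝕜] F, (∃ x : ℕ → E, IsMaximizing T x ∧ ¬ WeaklyNull 𝕜 x) → AttainsNorm T

end Defs

end Pool.Agent.H85.WMP
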