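import Mathlib

/-!
The Banach-Mazur distance.
-/

namespace Pool.Agent.H85.Odell

/-- The Banach-Mazur distance `d(Y, Z) = inf ‖T‖ ‖T⁻¹‖`, the infimum being over all isomorphisms
`T` from `Y` onto `Z` (bounded linear bijections with bounded inverse). -/
noncomputable def bmDist (𝕜 : Type*) [RCLike 𝕜] (Y Z : Type*) [NormedAddCommGroup Y]
    [NormedSpace 𝕜 Y] [NormedAddCommGroup Z] [NormedSpace 𝕜 Z] : ℝ :=
  sInf {r : ℝ | ∃ T : Y ≃L[𝕜] Z, r = ‖(T : Y →L[𝕜] Z)‖ * ‖(T.symm : Z →L[𝕜] Y)‖}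

end Pool.Agent.H85.Odell
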