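import Mathlib

/-!
Tsirelson-type weights: the norming set of the modified Tsirelson space, viewed as a set of
nonnegative weights on `ℕ`.
-/

namespace Pool.Agent.H85.Odell

open Finset

/-- The norming weights: the smallest family containing `0`, the unit vectors, and
`(1/2) (w_0 + ... + w_{n-1})` for disjointly supported members `w_j` vanishing below `n`. -/
inductive IsW : (ℕ → ℝ) → Prop
  | zero : IsW 0
  | single (n : ℕ) : IsW (Pi.single n 1)
  | sum (n : ℕ) (w : Fin n → ℕ → ℝ) (hw : ∀ j, IsW (w j))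
      (hd : ∀ i j k, i ≠ j → w i k = 0 ∨ w j k = 0)
      (hn : ∀ j k, k < n → w j k = 0) : IsW (fun k => (1 / 2) * ∑ j, w j k)

lemma IsW.nonneg {w : ℕ → ℝ} (h : IsW w) (k : ℕ) : 0 ≤ w k := by
  induction h with
  | zero => simp
  | single n =>
    by_cases hk : k = n
    · subst hk; simp
    · simp [hk]
  | sum n w hw hd hn ih =>
    have : 0 ≤ ∑ j, w j k := Finset.sum_nonneg (fun j _ => ih j)
    positivity

/-- a sum of disjoint terms, each at most `c`, is at most `c` -/
lemma sum_le_of_disjoint {ι : Type*} [Fintype ι] (a : ι → ℝ) (c : ℝ) (hc : 0 ≤ c)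
    (ha : ∀ j, a j ≤ c) (hd : ∀ i j, i ≠ j → a i = 0 ∨ a j = 0) : ∑ j, a j ≤ c := by
  classical
  by_cases h : ∃ j, a j ≠ 0
  · obtain ⟨j, hj⟩ := h
    rw [Finset.sum_eq_single j]
    · exact ha j
    · intro i _ hij
      rcases hd i j hij with h | h
      · exact h
      · exact absurd h hj
    · simp
  · push Not at h
    simp [h, hc]

lemma IsW.le_one {w : ℕ → ℝ} (h : IsW w) (k : ℕ) : w k ≤ 1 := by
  induction h with
  | zero => simp
  | single n =>
    by_cases hk : k = n
    · subst hk; simp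
    · simp [hk]
  | sum n w hw hd hn ih =>
    have := sum_le_of_disjoint (fun j => w j k) 1 zero_le_one ih (fun i j hij => hd i j k hij)
    linarith

lemma IsW.restrict {w : ℕ → ℝ} (h : IsW w) (A : ℕ → Prop) [DecidablePred A] :
    IsW (fun k => if A k then w k else 0) := by
  induction h with
  | zero =>
    have : (fun k => if A k then (0 : ℕ → ℝ) k else 0) = 0 := by
      funext k; simp
    rw [this]; exact IsW.zero
  | single n =>
    by_cases hn : A n
    · have : (fun k => if A k then (Pi.single n (1 : ℝ) : ℕ → ℝ) k else 0) =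
          Pi.single n (1 : ℝ) := by
        funext k
        by_cases hk : k = n
        · subst hk; simp [hn]
        · simp [hk]
      rw [this]; exact IsW.single n
    · have : (fun k => if A k then (Pi.single n (1 : ℝ) : ℕ → ℝ) k else 0) = 0 := by
        funext k
        by_cases hk : k = n
        · subst hk; simp [hn]
        · simp [hk]
      rw [this]; exact IsW.zero
  | sum n w hw hd hn ih =>
    have : (fun k => if A k then (1 / 2 : ℝ) * ∑ j, w j k else 0) =
        (fun k => (1 / 2 : ℝ) * ∑ j, (fun k => if A k then w j k else 0) k) := by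
      funext k
      by_cases hk : A k <;> simp [hk]
    rw [this]
    refine IsW.sum n _ ih ?_ ?_
    · intro i j k hij
      by_cases hk : A k
      · simpa [hk] using hd i j k hij
      · simp [hk]
    · intro j k hk
      simp [hn j k hk]

/-- Disjointification: `m` weights vanishing below `m` are dominated, up to a factor `2`, by one
weight. -/
lemma exists_dominating (m : ℕ) (w : Fin m → ℕ → ℝ) (hw : ∀ j, IsW (w j))
    (hm : ∀ j k, k < m → w j k = 0) : ∃ v, IsW v ∧ ∀ j k, (1 / 2) * w j k ≤ v k := by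
  classical
  rcases Nat.eq_zero_or_pos m with rfl | hpos
  · exact ⟨0, IsW.zero, fun j => j.elim0⟩
  have : Nonempty (Fin m) := ⟨⟨0, hpos⟩⟩
  have hmax : ∀ k, ∃ a : Fin m, ∀ j, w j k ≤ w a k := fun k => Finite.exists_max (fun j => w j k)
  choose a ha using hmax
  refine ⟨fun k => (1 / 2) * ∑ j, (fun k => if a k = j then w j k else 0) k,
    IsW.sum m _ (fun j => (hw j).restrict (fun k => a k = j)) ?_ ?_, ?_⟩
  · intro i j k hij
    by_cases hi : a k = i
    · right
      have : a k ≠ j := fun h => hij (hi.symm.trans h)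
      simp [this]
    · left; simp [hi]
  · intro j k hk
    simp [hm j k hk]
  · intro j k
    have : ∑ i, (if a k = i then w i k else 0) = w (a k) k := by
      rw [Finset.sum_ite_eq]; simp
    simp only [this]
    have := ha k j
    linarith

/-- Splitting a weight which starts before `P`. -/
lemma IsW.split {w : ℕ → ℝ} (h : IsW w) {P k₀ : ℕ} (hk₀ : k₀ < P) (hw₀ : w k₀ ≠ 0) :
    ∃ n ≤ P, ∃ u : Fin n → ℕ → ℝ, (∀ l, IsW (u l)) ∧
      (∀ i j k, i ≠ j → u i k = 0 ∨ u j k = 0) ∧ (∀ l k, u l k ≠ 0 → w k ≠ 0) ∧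
      ∀ k, P ≤ k → w k = (1 / 2) * ∑ l, u l k := by
  cases h with
  | zero => simp at hw₀
  | single n =>
    have hn : k₀ = n := by
      by_contra hne
      apply hw₀
      simp [hne]
    subst hn
    refine ⟨0, Nat.zero_le _, fun l => l.elim0, fun l => l.elim0, fun l => l.elim0,
      fun l => l.elim0, ?_⟩
    intro k hk
    have : k ≠ k₀ := by omega
    simp [this]
  | sum n u hu hd hn =>
    have hle : n ≤ P := by
      by_contra hlt
      push Not at hlt
      apply hw₀
      have : ∀ j, u j k₀ = 0 := fun j => hn j k₀ (lt_trans hk₀ hlt)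
      simp [this]
    refine ⟨n, hle, u, hu, hd, ?_, fun k _ => rfl⟩
    intro l k hl hzero
    have h0 : ∑ j, u j k = 0 := by
      have : (1 / 2 : ℝ) * ∑ j, u j k = 0 := hzero
      linarith
    have h1 := (Finset.sum_eq_zero_iff_of_nonneg (fun j _ => (hu j).nonneg k)).1 h0 l
      (Finset.mem_univ l)
    exact hl h1

section Averages

variable (y : ℕ → ℕ → ℝ) (p : ℕ → ℕ)

/-- pairing of the weight `w` with the `i`-th block -/
noncomputable def pr (w : ℕ → ℝ) (i : ℕ) : ℝ := ∑ k ∈ Ico (p i) (p (i + 1)), w k * y i k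

variable {y p}

lemma pr_nonneg (hy : ∀ i k, 0 ≤ y i k) {w : ℕ → ℝ} (hw : IsW w) (i : ℕ) : 0 ≤ pr y p w i :=
  Finset.sum_nonneg (fun k _ => mul_nonneg (hw.nonneg k) (hy i k))

/-- bound for the sums over a disjoint family of weights -/
def AvgBound (y : ℕ → ℕ → ℝ) (p : ℕ → ℕ) (β : ℝ) : Prop :=
  ∀ M N : ℕ, ∃ N', N < N' ∧ ∃ c : ℕ → ℝ, (∀ i, 0 ≤ c i) ∧ ∑ i ∈ Ico N N', c i = 1 ∧
    ∀ (ι : Type) [Fintype ι] (w : ι → ℕ → ℝ), Fintype.card ι ≤ M → (∀ j, IsW (w j)) →
      (∀ i j k, i ≠ j → w i k = 0 ∨ w j k = 0) →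
      ∑ j, ∑ i ∈ Ico N N', c i * pr y p (w j) i ≤ β

lemma avgBound_zero (hp : StrictMono p)
    (h1 : ∀ w, IsW w → ∀ i, pr y p w i ≤ 1) : AvgBound y p 2 := by
  classical
  intro M N
  -- use the single block with index `i₀ = max M N`
  set i₀ := max M N with hi₀
  refine ⟨i₀ + 1, by omega, fun i => if i = i₀ then 1 else 0, ?_, ?_, ?_⟩
  · intro i; dsimp only; split_ifs <;> norm_num
  · rw [Finset.sum_ite_eq']
    simp [hi₀]
  · intro ι _ w hcard hw hd
    have h2 : ∀ j, ∑ i ∈ Ico N (i₀ + 1), (if i = i₀ then (1 : ℝ) else 0) * pr y p (w j) i =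
        pr y p (w j) i₀ := by
      intro j
      simp only [ite_mul, one_mul, zero_mul]
      rw [Finset.sum_ite_eq']
      simp [hi₀]
    simp only [h2]
    -- the combined weight
    let e := Fintype.equivFin ι
    set m := Fintype.card ι with hm
    have hmi : m ≤ p i₀ := le_trans (le_trans hcard (le_max_left _ _)) (hp.id_le i₀)
    have hW : IsW (fun k => (1 / 2) * ∑ j : Fin m,
        (fun k => if m ≤ k then w (e.symm j) k else 0) k) := by
      refine IsW.sum m _ (fun j => (hw _).restrict (fun k => m ≤ k)) ?_ ?_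
      · intro i j k hij
        have h3 : e.symm i ≠ e.symm j := fun h => hij (e.symm.injective h)
        rcases hd _ _ k h3 with h | h
        · left; simp [h]
        · right; simp [h]
      · intro j k hk
        simp [not_le.2 hk]
    have h4 := h1 _ hW i₀
    have h5 : pr y p (fun k => (1 / 2) * ∑ j : Fin m,
        (fun k => if m ≤ k then w (e.symm j) k else 0) k) i₀ =
        (1 / 2) * ∑ j, pr y p (w j) i₀ := by
      simp only [pr]
      rw [Finset.sum_comm, Finset.mul_sum]
      refine Finset.sum_congr rfl (fun k hk => ?_)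
      have hk' : m ≤ k := le_trans hmi (Finset.mem_Ico.1 hk).1
      simp only [hk', if_true]
      rw [Equiv.sum_comp e.symm (fun j => w j k), mul_assoc, Finset.sum_mul]
    rw [h5] at h4
    linarith

lemma avgBound_succ (hp : StrictMono p) (hy : ∀ i k, 0 ≤ y i k)
    (h1 : ∀ w, IsW w → ∀ i, pr y p w i ≤ 1) {β δ : ℝ} (hδ : 0 < δ)
    (hb : AvgBound y p β) : AvgBound y p (β / 2 + δ) := by
  classical
  intro M N
  -- choose the pieces
  have hstep : ∀ N, ∃ N', N < N' ∧ ∃ c : ℕ → ℝ, (∀ i, 0 ≤ c i) ∧ ∑ i ∈ Ico N N', c i = 1 ∧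
    ∀ (ι : Type) [Fintype ι] (w : ι → ℕ → ℝ), Fintype.card ι ≤ M * p N → (∀ j, IsW (w j)) →
      (∀ i j k, i ≠ j → w i k = 0 ∨ w j k = 0) →
      ∑ j, ∑ i ∈ Ico N N', c i * pr y p (w j) i ≤ β := fun N => hb (M * p N) N
  choose nx hnx cf hcf0 hcf1 hcfb using hstep
  let Ns : ℕ → ℕ := fun k => nx^[k] N
  have hNs0 : Ns 0 = N := rfl
  have hNss : ∀ k, Ns (k + 1) = nx (Ns k) := fun k => Function.iterate_succ_apply' nx k N
  have hNsm : StrictMono Ns := strictMono_nat_of_lt_succ (fun k => by
    rw [hNss]; exact hnx _)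
  obtain ⟨K, hK⟩ := exists_nat_gt ((M : ℝ) / δ)
  have hKpos : (0 : ℝ) < K := lt_of_le_of_lt (by positivity) hK
  have hKpos' : 0 < K := by exact_mod_cast hKpos
  have hMK : (M : ℝ) / K ≤ δ := by
    rw [div_lt_iff₀ hδ] at hK
    rw [div_le_iff₀ hKpos]
    linarith
  -- the coefficients
  let c : ℕ → ℝ := fun i => (K : ℝ)⁻¹ * ∑ k ∈ range K,
    if Ns k ≤ i ∧ i < Ns (k + 1) then cf (Ns k) i else 0
  have hsplit : ∀ (K' : ℕ) (f : ℕ → ℝ), ∑ i ∈ Ico N (Ns K'), f i =
      ∑ k ∈ range K', ∑ i ∈ Ico (Ns k) (Ns (k + 1)), f i := by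
    intro K' f
    induction K' with
    | zero => simp [hNs0]
    | succ K' ih =>
      rw [Finset.sum_range_succ, ← ih, Finset.sum_Ico_consecutive _
        (by rw [← hNs0]; exact hNsm.monotone (Nat.zero_le _)) (hNsm.monotone (Nat.le_succ _))]
  have hc : ∀ k < K, ∀ i ∈ Ico (Ns k) (Ns (k + 1)), c i = (K : ℝ)⁻¹ * cf (Ns k) i := by
    intro k hk i hi
    simp only [c]
    congr 1
    rw [Finset.sum_eq_single k]
    · rw [Finset.mem_Ico] at hi
      simp [hi]
    · intro k' _ hne
      rw [if_neg]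
      rintro ⟨h2, h3⟩
      rw [Finset.mem_Ico] at hi
      rcases lt_or_gt_of_ne hne with h | h
      · have := hNsm.monotone (show k' + 1 ≤ k from h)
        omega
      · have := hNsm.monotone (show k + 1 ≤ k' from h)
        omega
    · intro h; exact absurd (Finset.mem_range.2 hk) h
  refine ⟨Ns K, by rw [← hNs0]; exact hNsm hKpos', c, ?_, ?_, ?_⟩
  · intro i
    refine mul_nonneg (inv_nonneg.2 hKpos.le) (Finset.sum_nonneg (fun k _ => ?_))
    split_ifs
    · exact hcf0 _ _
    · exact le_rfl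
  · rw [hsplit K c]
    have : ∀ k ∈ range K, ∑ i ∈ Ico (Ns k) (Ns (k + 1)), c i = (K : ℝ)⁻¹ := by
      intro k hk
      rw [Finset.sum_congr rfl (hc k (Finset.mem_range.1 hk)), ← Finset.mul_sum]
      have := hcf1 (Ns k)
      rw [← hNss] at this
      rw [this, mul_one]
    rw [Finset.sum_congr rfl this, Finset.sum_const, Finset.card_range, nsmul_eq_mul]
    field_simp
  · intro ι _ w hcard hw hd
    -- lateness
    let L : ι → ℕ → Prop := fun j k => ∀ l, l < p (Ns k) → w j l = 0
    -- per piece value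
    let T : ι → ℕ → ℝ := fun j k => ∑ i ∈ Ico (Ns k) (Ns (k + 1)), cf (Ns k) i * pr y p (w j) i
    have hsumk : ∀ k, ∑ i ∈ Ico (Ns k) (Ns (k + 1)), cf (Ns k) i = 1 := by
      intro k
      have := hcf1 (Ns k)
      rwa [← hNss] at this
    have hTnn : ∀ j k, 0 ≤ T j k := fun j k =>
      Finset.sum_nonneg (fun i _ => mul_nonneg (hcf0 _ _) (pr_nonneg hy (hw j) i))
    have hT1 : ∀ j k, T j k ≤ 1 := by
      intro j k
      calc T j k ≤ ∑ i ∈ Ico (Ns k) (Ns (k + 1)), cf (Ns k) i * 1 :=
            Finset.sum_le_sum (fun i _ => mul_le_mul_of_nonneg_left (h1 _ (hw j) i) (hcf0 _ _))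
        _ = 1 := by simp only [mul_one]; exact hsumk k
    have hTzero : ∀ j k, L j (k + 1) → T j k = 0 := by
      intro j k hL
      refine Finset.sum_eq_zero (fun i hi => ?_)
      have : pr y p (w j) i = 0 := by
        refine Finset.sum_eq_zero (fun l hl => ?_)
        rw [Finset.mem_Ico] at hi hl
        have : l < p (Ns (k + 1)) := lt_of_lt_of_le hl.2 (hp.monotone (by omega))
        rw [hL l this, zero_mul]
      rw [this, mul_zero]
    have hLanti : ∀ j k, L j (k + 1) → L j k := by
      intro j k hL l hl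
      exact hL l (lt_of_lt_of_le hl (hp.monotone (hNsm.monotone (Nat.le_succ k))))
    -- total
    have htotal : ∀ j, ∑ i ∈ Ico N (Ns K), c i * pr y p (w j) i =
        (K : ℝ)⁻¹ * ∑ k ∈ range K, T j k := by
      intro j
      rw [hsplit K, Finset.mul_sum]
      refine Finset.sum_congr rfl (fun k hk => ?_)
      rw [Finset.mul_sum]
      refine Finset.sum_congr rfl (fun i hi => ?_)
      rw [hc k (Finset.mem_range.1 hk) i hi]
      ring
    simp only [htotal]
    rw [← Finset.mul_sum]
    -- split into late and not late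
    have hlate : ∀ j, ∑ k ∈ range K, (if L j k then T j k else 0) ≤ 1 := by
      intro j
      have h2 : ∀ k ∈ range K, (if L j k then T j k else 0) ≤
          (if L j k then (1 : ℝ) else 0) - (if L j (k + 1) then (1 : ℝ) else 0) := by
        intro k _
        by_cases ha : L j (k + 1)
        · have hb' := hLanti j k ha
          simp [ha, hb', hTzero j k ha]
        · by_cases hb' : L j k
          · simp [ha, hb', hT1 j k]
          · simp [ha, hb']
      refine (Finset.sum_le_sum h2).trans ?_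
      rw [Finset.sum_range_sub']
      split_ifs <;> norm_num
    have hnotlate : ∀ k, ∑ j, (if L j k then 0 else T j k) ≤ β / 2 := by
      intro k
      have hsp : ∀ j, ∃ n ≤ p (Ns k), ∃ u : Fin n → ℕ → ℝ, (∀ l, IsW (u l)) ∧
          (∀ a b l, a ≠ b → u a l = 0 ∨ u b l = 0) ∧ (∀ a l, u a l ≠ 0 → w j l ≠ 0) ∧
          (¬ L j k → ∀ l, p (Ns k) ≤ l → w j l = (1 / 2) * ∑ a, u a l) := by
        intro j
        by_cases hL : L j k
        · exact ⟨0, Nat.zero_le _, fun l => l.elim0, fun l => l.elim0, fun l => l.elim0,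
            fun l => l.elim0, fun h => absurd hL h⟩
        · have hL' := hL
          simp only [L, not_forall] at hL'
          obtain ⟨k₀, hk₀, hne⟩ := hL'
          obtain ⟨n, hn, u, hu1, hu2, hu3, hu4⟩ := (hw j).split hk₀ hne
          exact ⟨n, hn, u, hu1, hu2, hu3, fun _ => hu4⟩
      choose n hn u hu1 hu2 hu3 hu4 using hsp
      have hcard' : Fintype.card (Σ j : ι, Fin (n j)) ≤ M * p (Ns k) := by
        rw [Fintype.card_sigma]
        calc ∑ j, Fintype.card (Fin (n j)) ≤ ∑ _j : ι, p (Ns k) :=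
              Finset.sum_le_sum (fun j _ => by rw [Fintype.card_fin]; exact hn j)
          _ = Fintype.card ι * p (Ns k) := by simp
          _ ≤ M * p (Ns k) := Nat.mul_le_mul_right _ hcard
      have hbnd := hcfb (Ns k) (Σ j : ι, Fin (n j)) (fun a => u a.1 a.2) hcard'
        (fun a => hu1 a.1 a.2) (by
          rintro ⟨i, a⟩ ⟨j, b⟩ l hne
          by_cases hij : i = j
          · subst hij
            have hab : a ≠ b := fun h => hne (by rw [h])
            exact hu2 i a b l hab
          · by_contra hcon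
            push Not at hcon
            have e1 := hu3 i a l hcon.1
            have e2 := hu3 j b l hcon.2
            rcases hd i j l hij with h | h
            · exact e1 h
            · exact e2 h)
      rw [← hNss] at hbnd
      have hterm : ∀ j, (if L j k then 0 else T j k) ≤
          (1 / 2) * ∑ a : Fin (n j), ∑ i ∈ Ico (Ns k) (Ns (k + 1)),
            cf (Ns k) i * pr y p (u j a) i := by
        intro j
        have hnn : 0 ≤ ∑ a : Fin (n j), ∑ i ∈ Ico (Ns k) (Ns (k + 1)),
            cf (Ns k) i * pr y p (u j a) i :=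
          Finset.sum_nonneg (fun a _ => Finset.sum_nonneg (fun i _ =>
            mul_nonneg (hcf0 _ _) (pr_nonneg hy (hu1 j a) i)))
        by_cases hL : L j k
        · simp only [hL, if_true]; positivity
        · simp only [hL, if_false]
          apply le_of_eq
          simp only [T]
          rw [Finset.sum_comm, Finset.mul_sum]
          refine Finset.sum_congr rfl (fun i hi => ?_)
          rw [← Finset.mul_sum]
          have : pr y p (w j) i = (1 / 2) * ∑ a : Fin (n j), pr y p (u j a) i := by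
            simp only [pr]
            rw [Finset.sum_comm, Finset.mul_sum]
            refine Finset.sum_congr rfl (fun l hl => ?_)
            rw [Finset.mem_Ico] at hi hl
            have hpl : p (Ns k) ≤ l := le_trans (hp.monotone hi.1) hl.1
            rw [hu4 j hL l hpl, mul_assoc, Finset.sum_mul]
          rw [this]; ring
      refine (Finset.sum_le_sum (fun j _ => hterm j)).trans ?_
      rw [← Finset.mul_sum]
      have e3 : ∑ j, ∑ a : Fin (n j), ∑ i ∈ Ico (Ns k) (Ns (k + 1)),
          cf (Ns k) i * pr y p (u j a) i =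
          ∑ a : (Σ j : ι, Fin (n j)), ∑ i ∈ Ico (Ns k) (Ns (k + 1)),
          cf (Ns k) i * pr y p (u a.1 a.2) i := by
        rw [Fintype.sum_sigma]
      rw [e3]
      linarith
    have hall : ∑ j, ∑ k ∈ range K, T j k ≤ M + K * (β / 2) := by
      have h3 : ∀ j k, T j k = (if L j k then T j k else 0) + (if L j k then 0 else T j k) := by
        intro j k; split_ifs <;> simp
      have h4 : ∑ j, ∑ k ∈ range K, T j k = ∑ j, ∑ k ∈ range K, (if L j k then T j k else 0) +
          ∑ k ∈ range K, ∑ j, (if L j k then 0 else T j k) := by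
        rw [Finset.sum_comm (s := range K), ← Finset.sum_add_distrib]
        refine Finset.sum_congr rfl (fun j _ => ?_)
        rw [← Finset.sum_add_distrib]
        exact Finset.sum_congr rfl (fun k _ => h3 j k)
      rw [h4]
      have h5 : ∑ j, ∑ k ∈ range K, (if L j k then T j k else 0) ≤ M := by
        calc ∑ j, ∑ k ∈ range K, (if L j k then T j k else 0) ≤ ∑ _j : ι, (1 : ℝ) :=
              Finset.sum_le_sum (fun j _ => hlate j)
          _ = Fintype.card ι := by simp
          _ ≤ M := by exact_mod_cast hcard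
      have h6 : ∑ k ∈ range K, ∑ j, (if L j k then 0 else T j k) ≤ K * (β / 2) := by
        calc ∑ k ∈ range K, ∑ j, (if L j k then 0 else T j k) ≤ ∑ _k ∈ range K, β / 2 :=
              Finset.sum_le_sum (fun k _ => hnotlate k)
          _ = K * (β / 2) := by simp
      linarith
    calc (K : ℝ)⁻¹ * ∑ j, ∑ k ∈ range K, T j k ≤ (K : ℝ)⁻¹ * (M + K * (β / 2)) := by gcongr
      _ = β / 2 + M / K := by field_simp; ring
      _ ≤ β / 2 + δ := by linarith

/-- Convex combinations of normalized blocks can be arbitrarily small. -/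
lemma exists_small_average (hp : StrictMono p) (hy : ∀ i k, 0 ≤ y i k)
    (h1 : ∀ w, IsW w → ∀ i, pr y p w i ≤ 1) {δ : ℝ} (hδ : 0 < δ) (N : ℕ) :
    ∃ N', N < N' ∧ ∃ c : ℕ → ℝ, (∀ i, 0 ≤ c i) ∧ ∑ i ∈ Ico N N', c i = 1 ∧
      ∀ w, IsW w → ∑ i ∈ Ico N N', c i * pr y p w i ≤ δ := by
  have hall : ∀ s : ℕ, AvgBound y p (2 * (3 / 4 : ℝ) ^ s) := by
    intro s
    induction s with
    | zero => simpa using avgBound_zero hp h1
    | succ s ih =>
      have h2 := avgBound_succ hp hy h1 (β := 2 * (3 / 4 : ℝ) ^ s) (δ := (1 / 2) * (3 / 4 : ℝ) ^ s)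
        (by positivity) ih
      have h3 : 2 * (3 / 4 : ℝ) ^ s / 2 + (1 / 2) * (3 / 4 : ℝ) ^ s = 2 * (3 / 4 : ℝ) ^ (s + 1) := by
        rw [pow_succ]; ring
      rwa [h3] at h2
  obtain ⟨s, hs⟩ := exists_pow_lt_of_lt_one (show (0 : ℝ) < δ / 2 by positivity)
    (show (3 / 4 : ℝ) < 1 by norm_num)
  obtain ⟨N', hN', c, hc0, hc1, hc2⟩ := hall s 1 N
  refine ⟨N', hN', c, hc0, hc1, fun w hw => ?_⟩
  have := hc2 Unit (fun _ => w) (by simp) (fun _ => hw) (fun i j k hij => absurd rfl hij)
  simp only [Finset.univ_unique, Finset.sum_const, Finset.card_singleton, one_smul] at this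
  linarith

end Averages

end Pool.Agent.H85.Odell
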