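import Mathlib
import Pool.Agent.H85.OdellW

/-!
The 2-convexified modified Tsirelson space over `𝕜 = ℝ` or `ℂ`.
-/

namespace Pool.Agent.H85.Odell

open Finset

variable (𝕜 : Type*) [RCLike 𝕜]

/-- index set: weights with a cut-off -/
abbrev Idx : Type := {w : ℕ → ℝ // IsW w} × ℕ

/-- the ambient space -/
abbrev Amb : Type _ := lp (fun i : Idx => EuclideanSpace 𝕜 (Fin i.2)) ⊤

/-- index of the `k`-th unit weight -/
def idx1 (k : ℕ) : Idx := (⟨Pi.single k 1, IsW.single k⟩, k + 1)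

variable {𝕜}

/-- the `k`-th coordinate on the ambient space -/
def coordA (k : ℕ) (F : Amb 𝕜) : 𝕜 := (F (idx1 k)) (Fin.last k)

lemma coordA_add (k : ℕ) (F G : Amb 𝕜) : coordA k (F + G) = coordA k F + coordA k G := rfl

lemma coordA_smul (k : ℕ) (c : 𝕜) (F : Amb 𝕜) : coordA k (c • F) = c * coordA k F := rfl

lemma evalA_continuous (i : Idx) : Continuous (fun F : Amb 𝕜 => F i) := by
  have h : LipschitzWith 1 (fun F : Amb 𝕜 => F i) := by
    refine LipschitzWith.of_dist_le_mul (fun F G => ?_)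
    rw [NNReal.coe_one, one_mul, dist_eq_norm, dist_eq_norm]
    exact lp.norm_apply_le_norm (p := ⊤) (by simp) (F - G) i
  exact h.continuous

lemma evalA2_continuous (i : Idx) (k : Fin i.2) : Continuous (fun F : Amb 𝕜 => (F i) k) :=
  (EuclideanSpace.proj (𝕜 := 𝕜) k).continuous.comp (evalA_continuous i)

lemma coordA_continuous (k : ℕ) : Continuous (fun F : Amb 𝕜 => coordA k F) :=
  evalA2_continuous (idx1 k) (Fin.last k)

variable (𝕜)

/-- the space, as a closed submodule of the ambient space -/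
def XS : Submodule 𝕜 (Amb 𝕜) where
  carrier := {F | ∀ (i : Idx) (k : Fin i.2),
    (F i) k = ((Real.sqrt (i.1.1 k) : ℝ) : 𝕜) * coordA (k : ℕ) F}
  add_mem' := by
    intro F G hF hG i k
    have h1 : ((F + G : Amb 𝕜) i) k = (F i) k + (G i) k := rfl
    rw [h1, hF i k, hG i k, coordA_add]
    ring
  zero_mem' := by
    intro i k
    have h1 : ((0 : Amb 𝕜) i) k = 0 := rfl
    have h2 : coordA (k : ℕ) (0 : Amb 𝕜) = 0 := rfl
    rw [h1, h2, mul_zero]
  smul_mem' := by
    intro c F hF i k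
    have h1 : ((c • F : Amb 𝕜) i) k = c * (F i) k := rfl
    rw [h1, hF i k, coordA_smul]
    ring

lemma isClosed_XS : IsClosed (XS 𝕜 : Set (Amb 𝕜)) := by
  have : (XS 𝕜 : Set (Amb 𝕜)) = ⋂ (i : Idx) (k : Fin i.2),
      {F | (F i) k = ((Real.sqrt (i.1.1 k) : ℝ) : 𝕜) * coordA (k : ℕ) F} := by
    ext F
    simp only [Set.mem_iInter]
    exact Iff.rfl
  rw [this]
  refine isClosed_iInter (fun i => isClosed_iInter (fun k => ?_))
  exact isClosed_eq (evalA2_continuous i k) (continuous_const.mul (coordA_continuous _))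

/-- The 2-convexified modified Tsirelson space. -/
abbrev X : Type _ := XS 𝕜

instance : CompleteSpace (X 𝕜) := (isClosed_XS 𝕜).completeSpace_coe

variable {𝕜}

/-- coordinates on `X` -/
def coord (k : ℕ) : X 𝕜 →L[𝕜] 𝕜 where
  toFun x := coordA k x.1
  map_add' x y := coordA_add k x.1 y.1
  map_smul' c x := coordA_smul k c x.1
  cont := (coordA_continuous k).comp continuous_subtype_val

lemma norm_eval_sq (x : X 𝕜) (i : Idx) :
    ‖x.1 i‖ ^ 2 = ∑ k ∈ range i.2, i.1.1 k * ‖coord k x‖ ^ 2 := by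
  rw [EuclideanSpace.norm_eq, Real.sq_sqrt (Finset.sum_nonneg (fun _ _ => by positivity)),
    Finset.sum_range]
  refine Finset.sum_congr rfl (fun k _ => ?_)
  rw [x.2 i k, norm_mul, RCLike.norm_ofReal, abs_of_nonneg (Real.sqrt_nonneg _), mul_pow,
    Real.sq_sqrt (i.1.2.nonneg k)]
  rfl

/-- weighted partial sums -/
noncomputable def wsum (w : ℕ → ℝ) (K : ℕ) (x : X 𝕜) : ℝ := ∑ k ∈ range K, w k * ‖coord k x‖ ^ 2

lemma wsum_le (x : X 𝕜) {w : ℕ → ℝ} (hw : IsW w) (K : ℕ) : wsum w K x ≤ ‖x‖ ^ 2 := by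
  have h1 := norm_eval_sq x (⟨w, hw⟩, K)
  have h2 : ‖x.1 (⟨w, hw⟩, K)‖ ≤ ‖x‖ := lp.norm_apply_le_norm (p := ⊤) (by simp) x.1 _
  rw [wsum, ← h1]
  exact pow_le_pow_left₀ (norm_nonneg _) h2 2

lemma norm_le_of_wsum (x : X 𝕜) {C : ℝ} (hC : 0 ≤ C)
    (h : ∀ w, IsW w → ∀ K, wsum w K x ≤ C ^ 2) : ‖x‖ ≤ C := by
  refine lp.norm_le_of_forall_le hC (fun i => ?_)
  have h1 := h i.1.1 i.1.2 i.2
  rw [wsum, ← norm_eval_sq x i] at h1
  exact (pow_le_pow_iff_left₀ (norm_nonneg _) hC two_ne_zero).1 h1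

lemma exists_wsum_gt (x : X 𝕜) {r : ℝ} (hr : r < ‖x‖ ^ 2) :
    ∃ w, IsW w ∧ ∃ K, r < wsum w K x := by
  by_contra hcon
  push Not at hcon
  have h0 : 0 ≤ r := by
    have := hcon 0 IsW.zero 0
    simpa [wsum] using this
  have : ‖x‖ ≤ Real.sqrt r := by
    refine norm_le_of_wsum x (Real.sqrt_nonneg _) (fun w hw K => ?_)
    rw [Real.sq_sqrt h0]
    exact hcon w hw K
  have h2 : ‖x‖ ^ 2 ≤ r := by
    calc ‖x‖ ^ 2 ≤ (Real.sqrt r) ^ 2 := pow_le_pow_left₀ (norm_nonneg _) this 2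
      _ = r := Real.sq_sqrt h0
  linarith

lemma coord_ext {x y : X 𝕜} (h : ∀ k, coord k x = coord k y) : x = y := by
  apply Subtype.ext
  apply lp.ext
  funext i
  ext k
  rw [x.2 i k, y.2 i k]
  have := h (k : ℕ)
  change coordA (k : ℕ) x.1 = coordA (k : ℕ) y.1 at this
  rw [this]

/-- sequences with bounded weighted sums define elements of `X` -/
lemma exists_of_bound (a : ℕ → 𝕜) {C : ℝ} (hC : 0 ≤ C)
    (h : ∀ w, IsW w → ∀ K, ∑ k ∈ range K, w k * ‖a k‖ ^ 2 ≤ C ^ 2) :
    ∃ x : X 𝕜, (∀ k, coord k x = a k) ∧ ‖x‖ ≤ C := by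
  let f : ∀ i : Idx, EuclideanSpace 𝕜 (Fin i.2) := fun i =>
    WithLp.toLp 2 (fun k => ((Real.sqrt (i.1.1 k) : ℝ) : 𝕜) * a k)
  have hf : ∀ i, ‖f i‖ ≤ C := by
    intro i
    refine (pow_le_pow_iff_left₀ (norm_nonneg _) hC two_ne_zero).1 ?_
    rw [EuclideanSpace.norm_eq, Real.sq_sqrt (Finset.sum_nonneg (fun _ _ => by positivity))]
    refine le_trans (le_of_eq ?_) (h i.1.1 i.1.2 i.2)
    rw [Finset.sum_range]
    refine Finset.sum_congr rfl (fun k _ => ?_)
    simp only [f]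
    rw [norm_mul, RCLike.norm_ofReal, abs_of_nonneg (Real.sqrt_nonneg _), mul_pow,
      Real.sq_sqrt (i.1.2.nonneg k)]
  have hmem : Memℓp f ⊤ := memℓp_infty ⟨C, by rintro _ ⟨i, rfl⟩; exact hf i⟩
  let F : Amb 𝕜 := ⟨f, hmem⟩
  have hcF : ∀ k, coordA k F = a k := by
    intro k
    change ((Real.sqrt ((Pi.single k (1 : ℝ) : ℕ → ℝ) (Fin.last k : Fin (k + 1))) : ℝ) : 𝕜) *
      a ((Fin.last k : Fin (k + 1)) : ℕ) = a k
    simp
  have hFX : F ∈ XS 𝕜 := by
    intro i k
    rw [hcF]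
  refine ⟨⟨F, hFX⟩, hcF, ?_⟩
  exact lp.norm_le_of_forall_le hC hf

lemma coord_le (x : X 𝕜) (k : ℕ) : ‖coord k x‖ ≤ ‖x‖ := by
  have h := wsum_le x (IsW.single k) (k + 1)
  rw [wsum, Finset.sum_eq_single k] at h
  · simp only [Pi.single_eq_same, one_mul] at h
    exact (pow_le_pow_iff_left₀ (norm_nonneg _) (norm_nonneg _) two_ne_zero).1 h
  · intro j _ hj
    simp [hj]
  · intro h; simp at h

section Proj

open Classical in
lemma exists_proj (A : Set ℕ) (x : X 𝕜) :
    ∃ y : X 𝕜, (∀ k, coord k y = if k ∈ A then coord k x else 0) ∧ ‖y‖ ≤ ‖x‖ := by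
  refine exists_of_bound _ (norm_nonneg x) (fun w hw K => ?_)
  refine le_trans ?_ (wsum_le x hw K)
  refine Finset.sum_le_sum (fun k _ => ?_)
  refine mul_le_mul_of_nonneg_left ?_ (hw.nonneg k)
  split_ifs
  · exact le_rfl
  · simp

open Classical in
/-- coordinate projections -/
noncomputable def proj (A : Set ℕ) : X 𝕜 →L[𝕜] X 𝕜 :=
  LinearMap.mkContinuous
    { toFun := fun x => (exists_proj A x).choose
      map_add' := by
        intro x y
        apply coord_ext
        intro k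
        rw [map_add, (exists_proj A (x + y)).choose_spec.1, (exists_proj A x).choose_spec.1,
          (exists_proj A y).choose_spec.1]
        split_ifs
        · rw [map_add]
        · rw [add_zero]
      map_smul' := by
        intro c x
        apply coord_ext
        intro k
        rw [(exists_proj A (c • x)).choose_spec.1, map_smul, map_smul, RingHom.id_apply,
          (exists_proj A x).choose_spec.1]
        split_ifs
        · rfl
        · rw [smul_zero] } 1 (by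
      intro x
      rw [one_mul]
      exact (exists_proj A x).choose_spec.2)

open Classical in
lemma coord_proj (A : Set ℕ) (x : X 𝕜) (k : ℕ) :
    coord k (proj A x) = if k ∈ A then coord k x else 0 := (exists_proj A x).choose_spec.1 k

lemma coord_proj_mem {A : Set ℕ} {k : ℕ} (h : k ∈ A) (x : X 𝕜) :
    coord k (proj A x) = coord k x := by rw [coord_proj, if_pos h]

lemma coord_proj_not_mem {A : Set ℕ} {k : ℕ} (h : k ∉ A) (x : X 𝕜) :
    coord k (proj A x) = 0 := by rw [coord_proj, if_neg h]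

lemma norm_proj_le (A : Set ℕ) (x : X 𝕜) : ‖proj A x‖ ≤ ‖x‖ := (exists_proj A x).choose_spec.2

lemma proj_add_compl (A : Set ℕ) (x : X 𝕜) : proj A x + proj Aᶜ x = x := by
  apply coord_ext
  intro k
  rw [map_add]
  by_cases hk : k ∈ A
  · rw [coord_proj_mem hk, coord_proj_not_mem (by simpa using hk), add_zero]
  · rw [coord_proj_not_mem hk, coord_proj_mem (by simpa using hk), zero_add]

lemma proj_Iio_add_Ici (n : ℕ) (x : X 𝕜) :
    proj (Set.Iio n) x + proj (Set.Ici n) x = x := by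
  have := proj_add_compl (Set.Iio n) x
  rwa [Set.compl_Iio] at this

lemma proj_proj (A B : Set ℕ) (x : X 𝕜) : proj A (proj B x) = proj (A ∩ B) x := by
  apply coord_ext
  intro k
  by_cases hA : k ∈ A
  · by_cases hB : k ∈ B
    · rw [coord_proj_mem hA, coord_proj_mem hB,
        coord_proj_mem (show k ∈ A ∩ B from ⟨hA, hB⟩)]
    · rw [coord_proj_mem hA, coord_proj_not_mem hB,
        coord_proj_not_mem (show k ∉ A ∩ B from fun h => hB h.2)]
  · rw [coord_proj_not_mem hA, coord_proj_not_mem (show k ∉ A ∩ B from fun h => hA h.1)]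

/-- monotonicity of norms in the moduli of coordinates -/
lemma norm_le_of_coord_le {x y : X 𝕜} (h : ∀ k, ‖coord k x‖ ≤ ‖coord k y‖) : ‖x‖ ≤ ‖y‖ := by
  refine norm_le_of_wsum x (norm_nonneg _) (fun w hw K => ?_)
  refine le_trans ?_ (wsum_le y hw K)
  refine Finset.sum_le_sum (fun k _ => ?_)
  refine mul_le_mul_of_nonneg_left ?_ (hw.nonneg k)
  exact pow_le_pow_left₀ (norm_nonneg _) (h k) 2

/-- The head of a vector is controlled by finitely many coordinates. -/
lemma norm_proj_Iio_le (n : ℕ) (x : X 𝕜) :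
    ‖proj (Set.Iio n) x‖ ≤ ∑ k ∈ range n, ‖coord k x‖ := by
  have hnn : 0 ≤ ∑ k ∈ range n, ‖coord k x‖ := Finset.sum_nonneg (fun _ _ => norm_nonneg _)
  refine norm_le_of_wsum _ hnn (fun w hw K => ?_)
  have h1 : wsum w K (proj (Set.Iio n) x) ≤ ∑ k ∈ range n, ‖coord k x‖ ^ 2 := by
    rw [wsum]
    calc ∑ k ∈ range K, w k * ‖coord k (proj (Set.Iio n) x)‖ ^ 2
        ≤ ∑ k ∈ range K, (if k ∈ range n then ‖coord k x‖ ^ 2 else 0) := by
          refine Finset.sum_le_sum (fun k _ => ?_)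
          by_cases hk : k < n
          · rw [coord_proj_mem (by simpa using hk), if_pos (Finset.mem_range.2 hk)]
            have := hw.le_one k
            nlinarith [sq_nonneg ‖coord k x‖]
          · rw [coord_proj_not_mem (by simpa using hk), if_neg (by simpa using hk)]
            simp
      _ = ∑ k ∈ range K ∩ range n, ‖coord k x‖ ^ 2 := by
          rw [Finset.sum_ite_mem]
      _ ≤ ∑ k ∈ range n, ‖coord k x‖ ^ 2 :=
          Finset.sum_le_sum_of_subset_of_nonneg Finset.inter_subset_right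
            (fun _ _ _ => by positivity)
  refine h1.trans ?_
  have h2 : ∑ k ∈ range n, ‖coord k x‖ ^ 2 ≤
      ∑ k ∈ range n, ‖coord k x‖ * ∑ k ∈ range n, ‖coord k x‖ := by
    refine Finset.sum_le_sum (fun k hk => ?_)
    rw [sq]
    refine mul_le_mul_of_nonneg_left ?_ (norm_nonneg _)
    exact Finset.single_le_sum (f := fun k => ‖coord k x‖) (fun _ _ => norm_nonneg _) hk
  rw [← Finset.sum_mul] at h2
  rw [sq]; exact h2

end Proj

end Pool.Agent.H85.Odell
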