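import Mathlib
import Pool.Agent.H85.JNBasic
import Pool.Agent.H85.OdellSpace

/-!
Norm estimates in the 2-convexified modified Tsirelson space.
-/

namespace Pool.Agent.H85.Odell

open Finset Filter Topology

variable {𝕜 : Type*} [RCLike 𝕜]

/-- lower estimate for `m` vectors far out -/
lemma far_lower {m : ℕ} (x : Fin m → X 𝕜) {B : ℝ}
    (h : ∀ v, IsW v → ∀ K, ∑ k ∈ range K, v k * ∑ j, ‖coord k (x j)‖ ^ 2 ≤ B) :
    (1 / 2) * ∑ j, ‖proj (Set.Ici m) (x j)‖ ^ 2 ≤ B := by
  classical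
  have key : ∀ η : ℝ, 0 < η → (1 / 2) * ∑ j, ‖proj (Set.Ici m) (x j)‖ ^ 2 ≤ B + η * m := by
    intro η hη
    have h1 : ∀ j, ∃ w, IsW w ∧ ∃ K, ‖proj (Set.Ici m) (x j)‖ ^ 2 - η <
        wsum w K (proj (Set.Ici m) (x j)) := fun j =>
      exists_wsum_gt _ (by linarith)
    choose w hw K hK using h1
    obtain ⟨v, hv, hvw⟩ := exists_dominating m (fun j k => if m ≤ k then w j k else 0)
      (fun j => (hw j).restrict (fun k => m ≤ k)) (fun j k hk => by simp [not_le.2 hk])
    set K' := Finset.univ.sup K with hK'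
    have h2 : ∀ j, wsum (w j) (K j) (proj (Set.Ici m) (x j)) ≤
        ∑ k ∈ range K', 2 * (v k * ‖coord k (x j)‖ ^ 2) := by
      intro j
      have hKj : K j ≤ K' := Finset.le_sup (Finset.mem_univ j)
      calc wsum (w j) (K j) (proj (Set.Ici m) (x j))
          ≤ ∑ k ∈ range (K j), 2 * (v k * ‖coord k (x j)‖ ^ 2) := by
            refine Finset.sum_le_sum (fun k _ => ?_)
            by_cases hk : m ≤ k
            · rw [coord_proj_mem (show k ∈ Set.Ici m from hk)]
              have h3 := hvw j k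
              simp only [hk, if_true] at h3
              nlinarith [sq_nonneg ‖coord k (x j)‖]
            · rw [coord_proj_not_mem (show k ∉ Set.Ici m from hk)]
              have := hv.nonneg k
              simp only [norm_zero, ne_eq, OfNat.ofNat_ne_zero, not_false_eq_true, zero_pow,
                mul_zero]
              positivity
        _ ≤ ∑ k ∈ range K', 2 * (v k * ‖coord k (x j)‖ ^ 2) := by
            refine Finset.sum_le_sum_of_subset_of_nonneg (Finset.range_mono hKj)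
              (fun k _ _ => ?_)
            have := hv.nonneg k
            positivity
    have h4 := h v hv K'
    have h5 : ∑ j, (‖proj (Set.Ici m) (x j)‖ ^ 2 - η) ≤ 2 * B := by
      calc ∑ j, (‖proj (Set.Ici m) (x j)‖ ^ 2 - η)
          ≤ ∑ j, ∑ k ∈ range K', 2 * (v k * ‖coord k (x j)‖ ^ 2) :=
            Finset.sum_le_sum (fun j _ => ((hK j).le).trans (h2 j))
        _ = 2 * ∑ k ∈ range K', v k * ∑ j, ‖coord k (x j)‖ ^ 2 := by
            rw [Finset.sum_comm, Finset.mul_sum]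
            refine Finset.sum_congr rfl (fun k _ => ?_)
            rw [← Finset.mul_sum, ← Finset.mul_sum]
        _ ≤ 2 * B := by linarith
    rw [Finset.sum_sub_distrib, Finset.sum_const, Finset.card_univ, Fintype.card_fin,
      nsmul_eq_mul] at h5
    have : 0 ≤ (m : ℝ) * η := by positivity
    nlinarith
  refine le_of_forall_pos_le_add (fun ε hε => ?_)
  have := key (ε / (m + 1)) (by positivity)
  refine this.trans ?_
  have h6 : ε / ((m : ℝ) + 1) * m ≤ ε := by
    rw [div_mul_eq_mul_div, div_le_iff₀ (by positivity)]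
    nlinarith
  linarith

lemma proj_proj_of_subset {A B : Set ℕ} (h : B ⊆ A) (x : X 𝕜) :
    proj A (proj B x) = proj B x := by
  rw [proj_proj, Set.inter_eq_right.2 h]

lemma norm_proj_mono {A B : Set ℕ} (h : A ⊆ B) (x : X 𝕜) : ‖proj A x‖ ≤ ‖proj B x‖ := by
  refine norm_le_of_coord_le (fun k => ?_)
  by_cases hk : k ∈ A
  · rw [coord_proj_mem hk, coord_proj_mem (h hk)]
  · rw [coord_proj_not_mem hk, norm_zero]; exact norm_nonneg _

/-- a finite sum with at most one nonzero term -/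
lemma sq_sum_disjoint {ι : Type*} (s : Finset ι) (a : ι → 𝕜)
    (hd : ∀ i ∈ s, ∀ j ∈ s, i ≠ j → a i = 0 ∨ a j = 0) :
    ‖∑ j ∈ s, a j‖ ^ 2 = ∑ j ∈ s, ‖a j‖ ^ 2 := by
  classical
  by_cases h : ∃ j ∈ s, a j ≠ 0
  · obtain ⟨j, hj, hne⟩ := h
    have h0 : ∀ i ∈ s, i ≠ j → a i = 0 := fun i hi hij =>
      (hd i hi j hj hij).resolve_right hne
    rw [Finset.sum_eq_single_of_mem j hj h0, Finset.sum_eq_single_of_mem j hj]
    intro i hi hij
    rw [h0 i hi hij]; simp
  · push Not at h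
    rw [Finset.sum_eq_zero h, Finset.sum_eq_zero]
    · simp
    · intro j hj; rw [h j hj]; simp

/-- weighted sums of disjoint vectors add up -/
lemma wsum_sum_disjoint {ι : Type*} (s : Finset ι) (x : ι → X 𝕜)
    (hd : ∀ k, ∀ i ∈ s, ∀ j ∈ s, i ≠ j → coord k (x i) = 0 ∨ coord k (x j) = 0)
    (w : ℕ → ℝ) (K : ℕ) :
    wsum w K (∑ j ∈ s, x j) = ∑ k ∈ range K, w k * ∑ j ∈ s, ‖coord k (x j)‖ ^ 2 := by
  refine Finset.sum_congr rfl (fun k _ => ?_)
  rw [map_sum, sq_sum_disjoint s _ (hd k)]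

/-- disjointness of blocks -/
lemma blocks_disjoint {a : ℕ → ℕ} (ha : StrictMono a) (u : ℕ → X 𝕜) {i j : ℕ} (hij : i ≠ j)
    (k : ℕ) : coord k (proj (Set.Ico (a i) (a (i + 1))) (u i)) = 0 ∨
      coord k (proj (Set.Ico (a j) (a (j + 1))) (u j)) = 0 := by
  by_cases hi : k ∈ Set.Ico (a i) (a (i + 1))
  · right
    apply coord_proj_not_mem
    rintro ⟨h1, h2⟩
    rcases lt_or_gt_of_ne hij with h | h
    · have := ha.monotone (show i + 1 ≤ j from h)
      have := hi.2
      omega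
    · have := ha.monotone (show j + 1 ≤ i from h)
      have := hi.1
      omega
  · left; exact coord_proj_not_mem hi _

/-- tails go to zero -/
lemma tendsto_tail (x : X 𝕜) : Tendsto (fun n => ‖proj (Set.Ici n) x‖) atTop (𝓝 0) := by
  have hanti : ∀ m n, m ≤ n → ‖proj (Set.Ici n) x‖ ≤ ‖proj (Set.Ici m) x‖ := fun m n hmn =>
    norm_proj_mono (Set.Ici_subset_Ici.2 hmn) x
  rw [Metric.tendsto_atTop]
  by_contra hcon
  push Not at hcon
  obtain ⟨δ, hδ, hcon⟩ := hcon
  have hδn : ∀ n, δ ≤ ‖proj (Set.Ici n) x‖ := by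
    intro n
    obtain ⟨m, hm, h⟩ := hcon n
    rw [Real.dist_eq, sub_zero, abs_of_nonneg (norm_nonneg _)] at h
    exact h.trans (hanti n m hm)
  have hblock : ∀ n, ∃ n', n < n' ∧ δ / 2 ≤ ‖proj (Set.Ico n n') x‖ := by
    intro n
    obtain ⟨w, hw, K, hK⟩ := exists_wsum_gt (proj (Set.Ici n) x)
      (show (δ / 2) ^ 2 < ‖proj (Set.Ici n) x‖ ^ 2 by
        have := hδn n
        nlinarith)
    refine ⟨max (n + 1) K, lt_of_lt_of_le (Nat.lt_succ_self n) (le_max_left _ _), ?_⟩
    have h1 : wsum w K (proj (Set.Ici n) x) ≤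
        wsum w K (proj (Set.Ico n (max (n + 1) K)) x) := by
      refine Finset.sum_le_sum (fun k hk => ?_)
      refine mul_le_mul_of_nonneg_left ?_ (hw.nonneg k)
      by_cases hkn : n ≤ k
      · rw [coord_proj_mem (show k ∈ Set.Ici n from hkn), coord_proj_mem]
        exact ⟨hkn, lt_of_lt_of_le (Finset.mem_range.1 hk) (le_max_right _ _)⟩
      · rw [coord_proj_not_mem (show k ∉ Set.Ici n from hkn)]
        simp
    have h2 := (h1.trans (wsum_le _ hw K))
    have h3 : (δ / 2) ^ 2 ≤ ‖proj (Set.Ico n (max (n + 1) K)) x‖ ^ 2 := (hK.le).trans h2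
    exact (pow_le_pow_iff_left₀ (by positivity) (norm_nonneg _) two_ne_zero).1 h3
  choose nx hnx hnxb using hblock
  obtain ⟨M, hM⟩ := exists_nat_gt (‖x‖ ^ 2 / (δ ^ 2 / 8))
  rw [div_lt_iff₀ (by positivity)] at hM
  let a : ℕ → ℕ := fun j => nx^[j] M
  have has : ∀ j, a (j + 1) = nx (a j) := fun j => Function.iterate_succ_apply' nx j M
  have ha : StrictMono a := strictMono_nat_of_lt_succ (fun j => by rw [has]; exact hnx _)
  have ha0 : a 0 = M := rfl
  have hfar := far_lower (m := M) (fun j : Fin M => proj (Set.Ico (a j) (a (j + 1))) x)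
    (B := ‖x‖ ^ 2) (by
      intro v hv K
      refine le_trans ?_ (wsum_le x hv K)
      refine Finset.sum_le_sum (fun k _ => ?_)
      refine mul_le_mul_of_nonneg_left ?_ (hv.nonneg k)
      refine sum_le_of_disjoint _ _ (by positivity) (fun j => ?_) (fun i j hij => ?_)
      · refine pow_le_pow_left₀ (norm_nonneg _) ?_ 2
        by_cases hk : k ∈ Set.Ico (a j) (a (j + 1))
        · rw [coord_proj_mem hk]
        · rw [coord_proj_not_mem hk, norm_zero]; exact norm_nonneg _
      · have hij' : (i : ℕ) ≠ j := fun h => hij (Fin.ext h)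
        rcases blocks_disjoint ha (fun _ => x) hij' k with h | h
        · left; rw [h]; simp
        · right; rw [h]; simp)
  have hsame : ∀ j : Fin M, proj (Set.Ici M) (proj (Set.Ico (a j) (a (j + 1))) x) =
      proj (Set.Ico (a j) (a (j + 1))) x := by
    intro j
    refine proj_proj_of_subset ?_ _
    rintro k ⟨hk, _⟩
    have := ha.monotone (Nat.zero_le (j : ℕ))
    rw [ha0] at this
    exact this.trans hk
  simp only [hsame] at hfar
  have h7 : (M : ℝ) * (δ / 2) ^ 2 ≤
      ∑ j : Fin M, ‖proj (Set.Ico (a j) (a (j + 1))) x‖ ^ 2 := by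
    calc (M : ℝ) * (δ / 2) ^ 2 = ∑ _j : Fin M, (δ / 2) ^ 2 := by simp
      _ ≤ _ := by
        refine Finset.sum_le_sum (fun j _ => ?_)
        rw [has]
        exact pow_le_pow_left₀ (by positivity) (hnxb _) 2
  nlinarith

/-- no `c_0`-like sequences -/
theorem no_c0 (u : ℕ → X 𝕜) (a : ℕ → ℕ) (ha : StrictMono a)
    (hu : ∀ j, ‖u j - proj (Set.Ico (a j) (a (j + 1))) (u j)‖ ≤ (1 / 2) ^ j) {c C : ℝ}
    (hc : 0 < c) (hcu : ∀ j, c ≤ ‖u j‖)
    (hC : ∀ m n, m ≤ n → ‖∑ j ∈ Ico m n, u j‖ ≤ C) : False := by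
  set b : ℕ → X 𝕜 := fun j => proj (Set.Ico (a j) (a (j + 1))) (u j) with hb
  obtain ⟨j₀, hj₀⟩ := exists_pow_lt_of_lt_one (show (0 : ℝ) < c / 2 by positivity)
    (show (1 / 2 : ℝ) < 1 by norm_num)
  have hbj : ∀ j, j₀ ≤ j → c / 2 ≤ ‖b j‖ := by
    intro j hj
    have h1 : (1 / 2 : ℝ) ^ j ≤ (1 / 2) ^ j₀ := pow_le_pow_of_le_one (by norm_num)
      (by norm_num) hj
    have h2 : ‖u j‖ ≤ ‖u j - b j‖ + ‖b j‖ := by
      have := norm_add_le (u j - b j) (b j)
      rwa [sub_add_cancel] at this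
    have h3 := hu j
    have h4 := hcu j
    linarith
  have hC0 : 0 ≤ C := (norm_nonneg _).trans (hC 0 0 le_rfl)
  obtain ⟨M, hM⟩ := exists_nat_gt ((C + 2) ^ 2 / (c ^ 2 / 8))
  rw [div_lt_iff₀ (by positivity)] at hM
  set m := max M j₀ with hm
  have hmM : (M : ℝ) ≤ m := by exact_mod_cast le_max_left _ _
  have hsum : ‖∑ j ∈ Ico m (2 * m), b j‖ ≤ C + 2 := by
    have h1 : ∑ j ∈ Ico m (2 * m), b j = ∑ j ∈ Ico m (2 * m), u j -
        ∑ j ∈ Ico m (2 * m), (u j - b j) := by
      rw [← Finset.sum_sub_distrib]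
      exact Finset.sum_congr rfl (fun j _ => by abel)
    rw [h1]
    refine (norm_sub_le _ _).trans ?_
    have h2 : ‖∑ j ∈ Ico m (2 * m), (u j - b j)‖ ≤ 2 := by
      refine (norm_sum_le _ _).trans ?_
      calc ∑ j ∈ Ico m (2 * m), ‖u j - b j‖ ≤ ∑ j ∈ Ico m (2 * m), (1 / 2 : ℝ) ^ j :=
            Finset.sum_le_sum (fun j _ => hu j)
        _ ≤ ∑' j : ℕ, (1 / 2 : ℝ) ^ j :=
            summable_geometric_two.sum_le_tsum _ (fun _ _ => by positivity)
        _ = 2 := tsum_geometric_two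
    have := hC m (2 * m) (by omega)
    linarith
  have hre : ∑ j ∈ Ico m (2 * m), b j = ∑ i : Fin m, b (m + i) := by
    rw [Finset.sum_Ico_eq_sum_range, show 2 * m - m = m by omega, Finset.sum_range]
  rw [hre] at hsum
  have hfar := far_lower (m := m) (fun i : Fin m => b (m + i))
    (B := (C + 2) ^ 2) (by
      intro v hv K
      rw [← wsum_sum_disjoint Finset.univ (fun i : Fin m => b (m + i))
        (fun k i _ j _ hij => blocks_disjoint ha u
          (fun h => hij (Fin.ext (by omega))) k) v K]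
      refine (wsum_le _ hv K).trans ?_
      exact pow_le_pow_left₀ (norm_nonneg _) hsum 2)
  have hsame : ∀ i : Fin m, proj (Set.Ici m) (b (m + i)) = b (m + i) := by
    intro i
    refine proj_proj_of_subset ?_ _
    rintro k ⟨hk, _⟩
    have := ha.id_le (m + (i : ℕ))
    simp only [id] at this
    exact (Nat.le_add_right _ _).trans (this.trans hk)
  simp only [hsame] at hfar
  have h7 : (m : ℝ) * (c / 2) ^ 2 ≤ ∑ i : Fin m, ‖b (m + i)‖ ^ 2 := by
    calc (m : ℝ) * (c / 2) ^ 2 = ∑ _j : Fin m, (c / 2) ^ 2 := by simp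
      _ ≤ _ := by
        refine Finset.sum_le_sum (fun j _ => ?_)
        refine pow_le_pow_left₀ (by positivity) (hbj _ ?_) 2
        have : j₀ ≤ m := le_max_right _ _
        omega
  nlinarith

end Pool.Agent.H85.Odell
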