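import Mathlib
import Pool.Agent.H85.OdellEst

/-!
The moving lemma: a block-like sequence in the 2-convexified modified Tsirelson space cannot be
moved far out by uniformly bounded embeddings.
-/

namespace Pool.Agent.H85.Odell

open Finset Filter Topology Pool.Agent.H85.JN

variable {𝕜 : Type*} [RCLike 𝕜]

/-- orthogonality of signs -/
lemma sum_signs_sq (m : ℕ) (β : Fin m → 𝕜) :
    ∑ s : Fin m → Bool, ‖∑ j, ((sgn (s j) : ℝ) : 𝕜) * β j‖ ^ 2 = 2 ^ m * ∑ j, ‖β j‖ ^ 2 := by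
  have h1 : ∀ s : Fin m → Bool, ((‖∑ j, ((sgn (s j) : ℝ) : 𝕜) * β j‖ ^ 2 : ℝ) : 𝕜) =
      ∑ i, ∑ j, ((sgn (s i) * sgn (s j) : ℝ) : 𝕜) * (β i * (starRingEnd 𝕜) (β j)) := by
    intro s
    push_cast
    rw [← RCLike.mul_conj, map_sum, Finset.sum_mul_sum]
    refine Finset.sum_congr rfl (fun i _ => Finset.sum_congr rfl (fun j _ => ?_))
    rw [map_mul, RCLike.conj_ofReal]
    ring
  have h2 : ((∑ s : Fin m → Bool, ‖∑ j, ((sgn (s j) : ℝ) : 𝕜) * β j‖ ^ 2 : ℝ) : 𝕜) =
      ((2 ^ m * ∑ j, ‖β j‖ ^ 2 : ℝ) : 𝕜) := by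
    rw [RCLike.ofReal_sum]
    simp only [h1]
    rw [Finset.sum_comm]
    have h3 : ∀ i : Fin m, ∑ s : Fin m → Bool, ∑ j, ((sgn (s i) * sgn (s j) : ℝ) : 𝕜) *
        (β i * (starRingEnd 𝕜) (β j)) = ((2 ^ m * ‖β i‖ ^ 2 : ℝ) : 𝕜) := by
      intro i
      rw [Finset.sum_comm]
      rw [Finset.sum_eq_single i]
      · simp only [sgn_mul_self]
        rw [← Finset.sum_mul, RCLike.mul_conj]
        simp only [Finset.sum_const, Finset.card_univ, Fintype.card_fun, Fintype.card_bool,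
          Fintype.card_fin, nsmul_eq_mul]
        push_cast
        ring
      · intro j _ hji
        rw [← Finset.sum_mul, ← RCLike.ofReal_sum, sum_sgn_mul_sgn hji]
        simp
      · simp
    rw [Finset.sum_congr rfl (fun i _ => h3 i), ← RCLike.ofReal_sum, ← Finset.mul_sum]
  exact_mod_cast h2

theorem moving (u : ℕ → X 𝕜) (a : ℕ → ℕ) (ha : StrictMono a)
    (hu : ∀ j, ‖u j - proj (Set.Ico (a j) (a (j + 1))) (u j)‖ ≤ (1 / 2) ^ j) {c C D : ℝ}
    (hc : 0 < c) (hcu : ∀ j, c ≤ ‖u j‖) (hCu : ∀ j, ‖u j‖ ≤ C) (hD : 1 ≤ D)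
    (hS : ∀ m : ℕ, ∃ S : X 𝕜 →L[𝕜] X 𝕜, (∀ y, ‖S y‖ ≤ D * ‖y‖) ∧ (∀ y, ‖y‖ ≤ D * ‖S y‖) ∧
      ∀ j < m, ‖proj (Set.Iio m) (S (u j))‖ ≤ (1 / 2) ^ j) : False := by
  classical
  have hC : 0 < C := hc.trans_le ((hcu 0).trans (hCu 0))
  have hD0 : 0 < D := by linarith
  set b : ℕ → X 𝕜 := fun j => proj (Set.Ico (a j) (a (j + 1))) (u j) with hb
  have hbC : ∀ j, ‖b j‖ ≤ C := fun j => (norm_proj_le _ _).trans (hCu j)
  let y : ℕ → ℕ → ℝ := fun i k => ‖coord k (b i)‖ ^ 2 / C ^ 2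
  have hy : ∀ i k, 0 ≤ y i k := fun i k => by positivity
  have hpr : ∀ w i, C ^ 2 * pr y a w i =
      ∑ k ∈ Ico (a i) (a (i + 1)), w k * ‖coord k (b i)‖ ^ 2 := by
    intro w i
    rw [pr, Finset.mul_sum]
    refine Finset.sum_congr rfl (fun k _ => ?_)
    simp only [y]
    field_simp
  have hpr1 : ∀ w, IsW w → ∀ i, pr y a w i ≤ 1 := by
    intro w hw i
    have h1 : C ^ 2 * pr y a w i ≤ C ^ 2 * 1 := by
      rw [hpr, mul_one]
      calc ∑ k ∈ Ico (a i) (a (i + 1)), w k * ‖coord k (b i)‖ ^ 2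
          ≤ ∑ k ∈ range (a (i + 1)), w k * ‖coord k (b i)‖ ^ 2 :=
            Finset.sum_le_sum_of_subset_of_nonneg (fun k hk => by
              rw [Finset.mem_Ico] at hk; exact Finset.mem_range.2 hk.2)
              (fun k _ _ => mul_nonneg (hw.nonneg k) (by positivity))
        _ ≤ ‖b i‖ ^ 2 := wsum_le (b i) hw _
        _ ≤ C ^ 2 := pow_le_pow_left₀ (norm_nonneg _) (hbC i) 2
    exact le_of_mul_le_mul_left h1 (by positivity)
  set κ : ℝ := c / (8 * D ^ 2) with hκ
  have hκ0 : 0 < κ := by positivity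
  set δ : ℝ := (κ / (2 * C)) ^ 2 with hδ
  have hδ0 : 0 < δ := by positivity
  have hsqδ : C * Real.sqrt δ = κ / 2 := by
    rw [hδ, Real.sqrt_sq (by positivity)]
    field_simp
  obtain ⟨N, hN⟩ := exists_pow_lt_of_lt_one (show (0 : ℝ) < κ / 4 by positivity)
    (show (1 / 2 : ℝ) < 1 by norm_num)
  obtain ⟨m, hNm, cc, hcc0, hcc1, hcc⟩ := exists_small_average ha hy hpr1 hδ0 N
  obtain ⟨S, hS1, hS2, hS3⟩ := hS m
  let α : ℕ → ℝ := fun j => if N ≤ j then Real.sqrt (cc j) else 0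
  have hα0 : ∀ j, 0 ≤ α j := fun j => by
    simp only [α]; split_ifs
    · exact Real.sqrt_nonneg _
    · exact le_rfl
  have hαsq : ∀ j, N ≤ j → α j ^ 2 = cc j := fun j hj => by
    simp only [α, hj, if_true]
    exact Real.sq_sqrt (hcc0 j)
  have hαz : ∀ j, ¬ N ≤ j → α j = 0 := fun j hj => by simp only [α, hj, if_false]
  have hconv : ∀ g : ℕ → ℝ, ∑ j : Fin m, α j ^ 2 * g j = ∑ j ∈ Ico N m, cc j * g j := by
    intro g
    rw [← Finset.sum_range (fun j => α j ^ 2 * g j)]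
    symm
    have hsub : Ico N m ⊆ range m := fun j hj => by
      rw [Finset.mem_Ico] at hj; exact Finset.mem_range.2 hj.2
    rw [← Finset.sum_subset hsub]
    · refine Finset.sum_congr rfl (fun j hj => ?_)
      rw [hαsq j (Finset.mem_Ico.1 hj).1]
    · intro j hj hj'
      have : ¬ N ≤ j := fun h => hj' (Finset.mem_Ico.2 ⟨h, Finset.mem_range.1 hj⟩)
      rw [hαz j this]; simp
  have hα1 : ∀ j < m, α j ≤ 1 := by
    intro j hj
    by_cases hNj : N ≤ j
    · have h1 : cc j ≤ 1 := by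
        rw [← hcc1]
        exact Finset.single_le_sum (f := cc) (fun i _ => hcc0 i) (Finset.mem_Ico.2 ⟨hNj, hj⟩)
      simp only [α, hNj, if_true]
      exact (Real.sqrt_le_sqrt h1).trans_eq Real.sqrt_one
    · rw [hαz j hNj]; exact zero_le_one
  -- signed combinations
  let A : (Fin m → Bool) → X 𝕜 := fun s => ∑ j : Fin m, ((sgn (s j) * α j : ℝ) : 𝕜) • u j
  have hA : ∀ s, ‖A s‖ ≤ κ := by
    intro s
    have e1 : A s = ∑ j : Fin m, ((sgn (s j) * α j : ℝ) : 𝕜) • b j +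
        ∑ j : Fin m, ((sgn (s j) * α j : ℝ) : 𝕜) • (u j - b j) := by
      rw [← Finset.sum_add_distrib]
      refine Finset.sum_congr rfl (fun j _ => ?_)
      rw [← smul_add]
      congr 1
      abel
    have e2 : ‖∑ j : Fin m, ((sgn (s j) * α j : ℝ) : 𝕜) • b j‖ ≤ κ / 2 := by
      rw [← hsqδ]
      refine norm_le_of_wsum _ (by positivity) (fun w hw K => ?_)
      rw [wsum_sum_disjoint Finset.univ (fun j : Fin m => ((sgn (s j) * α j : ℝ) : 𝕜) • b j)
        (fun k i _ j _ hij => by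
          rcases blocks_disjoint ha u (fun h => hij (Fin.ext h)) k with h | h
          · left; rw [map_smul, h, smul_zero]
          · right; rw [map_smul, h, smul_zero]) w K]
      rw [mul_pow, Real.sq_sqrt hδ0.le]
      have e3 : ∀ (k : ℕ) (j : Fin m), ‖coord k (((sgn (s j) * α j : ℝ) : 𝕜) • b j)‖ ^ 2 =
          α j ^ 2 * ‖coord k (b j)‖ ^ 2 := by
        intro k j
        rw [map_smul, norm_smul, RCLike.norm_ofReal, abs_mul, abs_sgn, one_mul, mul_pow, sq_abs]
      simp only [e3]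
      have e4 : ∑ k ∈ range K, w k * ∑ j : Fin m, α j ^ 2 * ‖coord k (b j)‖ ^ 2 =
          ∑ j : Fin m, α j ^ 2 * ∑ k ∈ range K, w k * ‖coord k (b j)‖ ^ 2 := by
        simp only [Finset.mul_sum]
        rw [Finset.sum_comm]
        exact Finset.sum_congr rfl (fun j _ => Finset.sum_congr rfl (fun k _ => by ring))
      rw [e4, hconv (fun j => ∑ k ∈ range K, w k * ‖coord k (b j)‖ ^ 2)]
      have e5 : ∀ j, ∑ k ∈ range K, w k * ‖coord k (b j)‖ ^ 2 ≤ C ^ 2 * pr y a w j := by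
        intro j
        rw [hpr]
        have : ∑ k ∈ range K, w k * ‖coord k (b j)‖ ^ 2 =
            ∑ k ∈ (range K).filter (fun k => k ∈ Ico (a j) (a (j + 1))),
              w k * ‖coord k (b j)‖ ^ 2 := by
          rw [Finset.sum_filter]
          refine Finset.sum_congr rfl (fun k _ => ?_)
          split_ifs with hk
          · rfl
          · have : coord k (b j) = 0 := coord_proj_not_mem (by simpa using hk) _
            rw [this]; simp
        rw [this]
        exact Finset.sum_le_sum_of_subset_of_nonneg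
          (fun k hk => (Finset.mem_filter.1 hk).2)
          (fun k _ _ => mul_nonneg (hw.nonneg k) (by positivity))
      calc ∑ j ∈ Ico N m, cc j * ∑ k ∈ range K, w k * ‖coord k (b j)‖ ^ 2
          ≤ ∑ j ∈ Ico N m, cc j * (C ^ 2 * pr y a w j) :=
            Finset.sum_le_sum (fun j _ => mul_le_mul_of_nonneg_left (e5 j) (hcc0 j))
        _ = C ^ 2 * ∑ j ∈ Ico N m, cc j * pr y a w j := by
            rw [Finset.mul_sum]
            exact Finset.sum_congr rfl (fun j _ => by ring)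
        _ ≤ C ^ 2 * δ := mul_le_mul_of_nonneg_left (hcc w hw) (by positivity)
    have e6 : ‖∑ j : Fin m, ((sgn (s j) * α j : ℝ) : 𝕜) • (u j - b j)‖ ≤ κ / 2 := by
      refine (norm_sum_le _ _).trans ?_
      have e7 : ∀ j : Fin m, ‖((sgn (s j) * α j : ℝ) : 𝕜) • (u j - b j)‖ ≤
          if N ≤ (j : ℕ) then (1 / 2 : ℝ) ^ (j : ℕ) else 0 := by
        intro j
        rw [norm_smul, RCLike.norm_ofReal, abs_mul, abs_sgn, one_mul, abs_of_nonneg (hα0 j)]
        by_cases hNj : N ≤ (j : ℕ)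
        · rw [if_pos hNj]
          calc α j * ‖u j - b j‖ ≤ 1 * (1 / 2 : ℝ) ^ (j : ℕ) := by
                gcongr
                · exact hα1 j j.2
                · exact hu j
            _ = _ := one_mul _
        · rw [if_neg hNj, hαz j hNj, zero_mul]
      refine (Finset.sum_le_sum (fun j _ => e7 j)).trans ?_
      rw [← Finset.sum_range (fun j => if N ≤ j then (1 / 2 : ℝ) ^ j else 0)]
      have e8 : ∑ j ∈ range m, (if N ≤ j then (1 / 2 : ℝ) ^ j else 0) =
          ∑ j ∈ Ico N m, (1 / 2 : ℝ) ^ j := by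
        rw [← Finset.sum_filter]
        refine Finset.sum_congr ?_ (fun _ _ => rfl)
        ext j; simp only [Finset.mem_filter, Finset.mem_range, Finset.mem_Ico]; tauto
      rw [e8, Finset.sum_Ico_eq_sum_range]
      have e9 : ∑ k ∈ range (m - N), (1 / 2 : ℝ) ^ (N + k) ≤ (1 / 2) ^ N * 2 := by
        simp only [pow_add]
        rw [← Finset.mul_sum]
        refine mul_le_mul_of_nonneg_left ?_ (by positivity)
        calc ∑ k ∈ range (m - N), (1 / 2 : ℝ) ^ k ≤ ∑' k : ℕ, (1 / 2 : ℝ) ^ k :=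
              summable_geometric_two.sum_le_tsum _ (fun _ _ => by positivity)
          _ = 2 := tsum_geometric_two
      linarith
    rw [e1]
    refine (norm_add_le _ _).trans ?_
    linarith
  -- averaging over signs
  have hbound : ∀ v, IsW v → ∀ K, ∑ k ∈ range K, v k *
      ∑ j : Fin m, ‖coord k (((α j : ℝ) : 𝕜) • S (u j))‖ ^ 2 ≤ (D * κ) ^ 2 := by
    intro v hv K
    have f1 : ∀ s, wsum v K (S (A s)) ≤ (D * κ) ^ 2 := by
      intro s
      refine (wsum_le _ hv K).trans ?_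
      refine pow_le_pow_left₀ (norm_nonneg _) ?_ 2
      exact (hS1 _).trans (by gcongr; exact hA s)
    have f2 : ∑ s : Fin m → Bool, wsum v K (S (A s)) ≤ 2 ^ m * (D * κ) ^ 2 := by
      calc ∑ s : Fin m → Bool, wsum v K (S (A s)) ≤ ∑ _s : Fin m → Bool, (D * κ) ^ 2 :=
            Finset.sum_le_sum (fun s _ => f1 s)
        _ = 2 ^ m * (D * κ) ^ 2 := by simp
    have f3 : ∑ s : Fin m → Bool, wsum v K (S (A s)) = 2 ^ m * ∑ k ∈ range K, v k *
        ∑ j : Fin m, ‖coord k (((α j : ℝ) : 𝕜) • S (u j))‖ ^ 2 := by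
      simp only [wsum]
      rw [Finset.sum_comm, Finset.mul_sum]
      refine Finset.sum_congr rfl (fun k _ => ?_)
      rw [← Finset.mul_sum]
      have f4 : ∀ s : Fin m → Bool, coord k (S (A s)) =
          ∑ j : Fin m, ((sgn (s j) : ℝ) : 𝕜) * coord k (((α j : ℝ) : 𝕜) • S (u j)) := by
        intro s
        simp only [A]
        rw [map_sum, map_sum]
        refine Finset.sum_congr rfl (fun j _ => ?_)
        rw [map_smul, map_smul, map_smul]
        simp only [smul_eq_mul]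
        push_cast
        ring
      simp only [f4]
      rw [sum_signs_sq]
      ring
    rw [f3] at f2
    exact le_of_mul_le_mul_left f2 (by positivity)
  have hfar := far_lower (m := m) (fun j : Fin m => ((α j : ℝ) : 𝕜) • S (u j)) hbound
  have hlow : ∀ j : Fin m, α j ^ 2 * (c / (2 * D)) ^ 2 ≤
      ‖proj (Set.Ici m) (((α j : ℝ) : 𝕜) • S (u j))‖ ^ 2 := by
    intro j
    rw [map_smul, norm_smul, RCLike.norm_ofReal, abs_of_nonneg (hα0 j), mul_pow]
    by_cases hNj : N ≤ (j : ℕ)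
    · refine mul_le_mul_of_nonneg_left ?_ (by positivity)
      refine pow_le_pow_left₀ (by positivity) ?_ 2
      have g1 : ‖S (u j)‖ ≤ ‖proj (Set.Iio m) (S (u j))‖ + ‖proj (Set.Ici m) (S (u j))‖ := by
        have := norm_add_le (proj (Set.Iio m) (S (u j))) (proj (Set.Ici m) (S (u j)))
        rwa [proj_Iio_add_Ici] at this
      have g2 := hS3 j j.2
      have g3 : (1 / 2 : ℝ) ^ (j : ℕ) ≤ (1 / 2) ^ N :=
        pow_le_pow_of_le_one (by norm_num) (by norm_num) hNj
      have g4 : c / D ≤ ‖S (u j)‖ := by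
        rw [div_le_iff₀ hD0, mul_comm]
        exact (hcu j).trans (hS2 _)
      have g5 : κ / 4 ≤ c / (2 * D) := by
        rw [hκ, div_div, div_le_div_iff₀ (by positivity) (by positivity)]
        have : D ≤ D ^ 2 := by nlinarith
        nlinarith
      have g6 : c / D = c / (2 * D) + c / (2 * D) := by field_simp; ring
      linarith
    · rw [hαz j hNj]; simp
  have hfin : (c / (2 * D)) ^ 2 ≤
      ∑ j : Fin m, ‖proj (Set.Ici m) (((α j : ℝ) : 𝕜) • S (u j))‖ ^ 2 := by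
    have h1 := hconv (fun _ => (c / (2 * D)) ^ 2)
    have h2 : ∑ j ∈ Ico N m, cc j * (c / (2 * D)) ^ 2 = (c / (2 * D)) ^ 2 := by
      rw [← Finset.sum_mul, hcc1, one_mul]
    rw [h2] at h1
    rw [← h1]
    exact Finset.sum_le_sum (fun j _ => hlow j)
  have hlast : (1 / 2) * (c / (2 * D)) ^ 2 ≤ (D * κ) ^ 2 := by linarith
  have e1 : D * κ = c / (8 * D) := by rw [hκ]; field_simp
  rw [e1, div_pow, div_pow] at hlast
  have h2 : 0 < c ^ 2 / D ^ 2 := by positivity
  have h3 : (1 / 2) * (c ^ 2 / (2 * D) ^ 2) = (1 / 8) * (c ^ 2 / D ^ 2) := by field_simp; norm_num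
  have h4 : c ^ 2 / (8 * D) ^ 2 = (1 / 64) * (c ^ 2 / D ^ 2) := by field_simp; norm_num
  rw [h3, h4] at hlast
  linarith

end Pool.Agent.H85.Odell
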