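import Mathlib
import Pool.Agent.H85.OdellEst

/-!
The 2-convexified modified Tsirelson space: shrinking property, reflexivity along ultrafilters,
separability, infinite dimension.
-/

namespace Pool.Agent.H85.Odell

open Finset Filter Topology

variable {𝕜 : Type*} [RCLike 𝕜]

/-- upper 2-estimate for two disjoint vectors -/
lemma norm_add_sq_le {x y : X 𝕜} (h : ∀ k, coord k x = 0 ∨ coord k y = 0) :
    ‖x + y‖ ^ 2 ≤ ‖x‖ ^ 2 + ‖y‖ ^ 2 := by
  have h0 : 0 ≤ ‖x‖ ^ 2 + ‖y‖ ^ 2 := by positivity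
  have h1 : ‖x + y‖ ≤ Real.sqrt (‖x‖ ^ 2 + ‖y‖ ^ 2) := by
    refine norm_le_of_wsum _ (Real.sqrt_nonneg _) (fun w hw K => ?_)
    rw [Real.sq_sqrt h0]
    have : wsum w K (x + y) = wsum w K x + wsum w K y := by
      rw [wsum, wsum, wsum, ← Finset.sum_add_distrib]
      refine Finset.sum_congr rfl (fun k _ => ?_)
      rw [map_add]
      rcases h k with h | h
      · rw [h, zero_add, norm_zero]; ring
      · rw [h, add_zero, norm_zero]; ring
    rw [this]
    exact add_le_add (wsum_le x hw K) (wsum_le y hw K)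
  calc ‖x + y‖ ^ 2 ≤ (Real.sqrt (‖x‖ ^ 2 + ‖y‖ ^ 2)) ^ 2 :=
        pow_le_pow_left₀ (norm_nonneg _) h1 2
    _ = _ := Real.sq_sqrt h0

lemma tendsto_proj_Iio (x : X 𝕜) : Tendsto (fun n => proj (Set.Iio n) x) atTop (𝓝 x) := by
  rw [tendsto_iff_norm_sub_tendsto_zero]
  refine (tendsto_tail x).congr (fun n => ?_)
  have := proj_Iio_add_Ici n x
  rw [show proj (Set.Iio n) x - x = - proj (Set.Ici n) x by
    nth_rewrite 2 [← this]; abel, norm_neg]

/-- functionals are small on far vectors -/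
lemma shrink (φ : X 𝕜 →L[𝕜] 𝕜) {ε : ℝ} (hε : 0 < ε) :
    ∃ n, ∀ m, n ≤ m → ∀ x, ‖φ (proj (Set.Ici m) x)‖ ≤ ε * ‖x‖ := by
  suffices h : ∃ n, ∀ x, ‖φ (proj (Set.Ici n) x)‖ ≤ ε * ‖x‖ by
    obtain ⟨n, hn⟩ := h
    refine ⟨n, fun m hnm x => ?_⟩
    have h1 := hn (proj (Set.Ici m) x)
    rw [proj_proj_of_subset (Set.Ici_subset_Ici.2 hnm)] at h1
    exact h1.trans (mul_le_mul_of_nonneg_left (norm_proj_le _ _) hε.le)
  by_contra hcon
  push Not at hcon
  -- blocks on which `φ` is large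
  have hblk : ∀ n, ∃ (y : X 𝕜) (N : ℕ), n ≤ N ∧ (∀ k, k ∉ Set.Ico n N → coord k y = 0) ∧
      ‖y‖ ≤ 1 ∧ ε ≤ RCLike.re (φ y) := by
    intro n
    obtain ⟨x, hx⟩ := hcon n
    set z := proj (Set.Ici n) x with hz
    have hφz : 0 < ‖φ z‖ := lt_of_le_of_lt (by positivity) hx
    have hz0 : z ≠ 0 := by
      rintro h; rw [h, map_zero, norm_zero] at hφz; exact lt_irrefl _ hφz
    have hzn : 0 < ‖z‖ := norm_pos_iff.2 hz0
    let c : 𝕜 := (starRingEnd 𝕜) (φ z) / ((‖φ z‖ * ‖z‖ : ℝ) : 𝕜)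
    have hc : ‖c‖ = ‖z‖⁻¹ := by
      simp only [c]
      rw [norm_div, RCLike.norm_conj, RCLike.norm_ofReal, abs_of_pos (by positivity)]
      field_simp
    have hcφ : RCLike.re (φ (c • z)) = ‖φ z‖ / ‖z‖ := by
      rw [map_smul, smul_eq_mul]
      have : c * φ z = ((‖φ z‖ / ‖z‖ : ℝ) : 𝕜) := by
        simp only [c]
        rw [div_mul_eq_mul_div, RCLike.conj_mul]
        have h1 : ((‖φ z‖ : ℝ) : 𝕜) ≠ 0 := by exact_mod_cast hφz.ne'
        have h2 : ((‖z‖ : ℝ) : 𝕜) ≠ 0 := by exact_mod_cast hzn.ne'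
        push_cast
        field_simp
      rw [this, RCLike.ofReal_re]
    have hgt : ε < RCLike.re (φ (c • z)) := by
      rw [hcφ, lt_div_iff₀ hzn]
      refine lt_of_le_of_lt ?_ hx
      exact mul_le_mul_of_nonneg_left (norm_proj_le _ _) hε.le
    have hlim : Tendsto (fun N => RCLike.re (φ (proj (Set.Iio N) (c • z)))) atTop
        (𝓝 (RCLike.re (φ (c • z)))) :=
      ((RCLike.continuous_re.comp φ.continuous).tendsto _).comp (tendsto_proj_Iio (c • z))
    obtain ⟨N, hN, hnN⟩ := ((hlim.eventually (lt_mem_nhds hgt)).and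
      (eventually_ge_atTop n)).exists
    refine ⟨proj (Set.Iio N) (c • z), N, hnN, fun k hk => ?_, ?_, hN.le⟩
    · by_cases h1 : k < N
      · rw [coord_proj_mem (by simpa using h1), map_smul, hz, coord_proj_not_mem, smul_zero]
        intro h2
        exact hk ⟨h2, h1⟩
      · exact coord_proj_not_mem (by simpa using h1) _
    · refine (norm_proj_le _ _).trans ?_
      rw [norm_smul, hc, inv_mul_cancel₀ hzn.ne']
  have hind : ∀ m : ℕ, ∀ n, ∃ (y : X 𝕜) (N : ℕ), n ≤ N ∧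
      (∀ k, k ∉ Set.Ico n N → coord k y = 0) ∧ ‖y‖ ^ 2 ≤ m ∧ m * ε ≤ RCLike.re (φ y) := by
    intro m
    induction m with
    | zero =>
      intro n
      exact ⟨0, n, le_rfl, fun k _ => map_zero _, by simp, by simp⟩
    | succ m ih =>
      intro n
      obtain ⟨y, N, hnN, hy, hy2, hyφ⟩ := ih n
      obtain ⟨z, N', hNN', hz, hz1, hzφ⟩ := hblk N
      refine ⟨y + z, N', hnN.trans hNN', fun k hk => ?_, ?_, ?_⟩
      · rw [map_add, hy k, hz k, add_zero]
        · intro h; exact hk ⟨hnN.trans h.1, h.2⟩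
        · intro h; exact hk ⟨h.1, h.2.trans_le hNN'⟩
      · have h1 : ‖y + z‖ ^ 2 ≤ ‖y‖ ^ 2 + ‖z‖ ^ 2 := by
          refine norm_add_sq_le (fun k => ?_)
          by_cases hk : k < N
          · right; exact hz k (fun h => absurd h.1 (not_le.2 hk))
          · left; exact hy k (fun h => hk h.2)
        have h2 : ‖z‖ ^ 2 ≤ 1 := pow_le_one₀ (norm_nonneg _) hz1
        push_cast
        linarith
      · rw [map_add, map_add]
        push_cast
        linarith
  -- contradiction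
  obtain ⟨m, hm⟩ := exists_nat_gt ((‖φ‖ / ε) ^ 2)
  obtain ⟨y, N, -, -, hy2, hyφ⟩ := hind m 0
  have hm0 : (0 : ℝ) < m := lt_of_le_of_lt (by positivity) hm
  have h1 : m * ε ≤ ‖φ‖ * ‖y‖ :=
    hyφ.trans ((RCLike.re_le_norm _).trans (φ.le_opNorm y))
  have h2 : (m * ε) ^ 2 ≤ ‖φ‖ ^ 2 * m := by
    calc (m * ε) ^ 2 ≤ (‖φ‖ * ‖y‖) ^ 2 := pow_le_pow_left₀ (by positivity) h1 2
      _ = ‖φ‖ ^ 2 * ‖y‖ ^ 2 := by ring
      _ ≤ ‖φ‖ ^ 2 * m := by gcongr
  have h3 : (m : ℝ) * ε ^ 2 ≤ ‖φ‖ ^ 2 := by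
    have : (m : ℝ) * (m * ε ^ 2) ≤ m * ‖φ‖ ^ 2 := by nlinarith
    exact le_of_mul_le_mul_left this hm0
  rw [div_pow, div_lt_iff₀ (by positivity)] at hm
  linarith

/-- weak compactness along ultrafilters -/
def URefl (𝕜 : Type*) [RCLike 𝕜] (Y : Type*) [NormedAddCommGroup Y] [NormedSpace 𝕜 Y] : Prop :=
  ∀ (ι : Type) (U : Ultrafilter ι) (x : ι → Y) (C : ℝ), (∀ i, ‖x i‖ ≤ C) →
    ∃ y, ∀ φ : StrongDual 𝕜 Y, Tendsto (fun i => φ (x i)) U (𝓝 (φ y))

/-- bounded scalar families converge along ultrafilters -/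
lemma exists_scalar_limit {ι : Type*} (U : Ultrafilter ι) (f : ι → 𝕜) (C : ℝ)
    (hf : ∀ i, ‖f i‖ ≤ C) : ∃ z, Tendsto f U (𝓝 z) := by
  have hK : IsCompact (Metric.closedBall (0 : 𝕜) C) := isCompact_closedBall 0 C
  have hle : (U.map f : Filter 𝕜) ≤ 𝓟 (Metric.closedBall (0 : 𝕜) C) := by
    rw [le_principal_iff]
    refine Filter.mem_map.2 (Filter.univ_mem' ?_)
    intro i
    simpa using hf i
  obtain ⟨z, -, hz⟩ := hK.ultrafilter_le_nhds (U.map f) hle
  exact ⟨z, hz⟩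

theorem urefl_X : URefl 𝕜 (X 𝕜) := by
  intro ι U x C hx
  have hC : 0 ≤ C := by
    obtain ⟨i, -⟩ := U.neBot.nonempty_of_mem (univ_mem : Set.univ ∈ (U : Filter ι))
    exact (norm_nonneg _).trans (hx i)
  choose a ha using fun k => exists_scalar_limit U (fun i => coord k (x i)) C
    (fun i => (coord_le _ _).trans (hx i))
  obtain ⟨y, hy, hyC⟩ : ∃ y : X 𝕜, (∀ k, coord k y = a k) ∧ ‖y‖ ≤ C := by
    refine exists_of_bound a hC (fun w hw K => ?_)
    have hlim : Tendsto (fun i => wsum w K (x i)) U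
        (𝓝 (∑ k ∈ range K, w k * ‖a k‖ ^ 2)) := by
      refine tendsto_finsetSum _ (fun k _ => ?_)
      exact ((ha k).norm.pow 2).const_mul (w k)
    refine le_of_tendsto hlim (Filter.univ_mem' (fun i => ?_))
    exact (wsum_le _ hw K).trans (pow_le_pow_left₀ (norm_nonneg _) (hx i) 2)
  refine ⟨y, fun φ => ?_⟩
  rw [Metric.tendsto_nhds]
  intro ε hε
  obtain ⟨n, hn⟩ := shrink φ (show 0 < ε / (4 * (C + 1)) by positivity)
  have hn := hn n le_rfl
  have hsmall : ∀ z : X 𝕜, ‖z‖ ≤ C → ‖φ (proj (Set.Ici n) z)‖ ≤ ε / 4 := by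
    intro z hz
    refine (hn z).trans ?_
    calc ε / (4 * (C + 1)) * ‖z‖ ≤ ε / (4 * (C + 1)) * (C + 1) := by
          gcongr; linarith
      _ = ε / 4 := by field_simp
  have hhead : Tendsto (fun i => ‖φ‖ * ∑ k ∈ range n, ‖coord k (x i - y)‖) U (𝓝 0) := by
    have h1 : Tendsto (fun i => ‖φ‖ * ∑ k ∈ range n, ‖coord k (x i - y)‖) U
        (𝓝 (‖φ‖ * ∑ k ∈ range n, ‖a k - coord k y‖)) := by
      refine Tendsto.const_mul _ (tendsto_finsetSum _ (fun k _ => ?_))
      simp only [map_sub]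
      exact ((ha k).sub tendsto_const_nhds).norm
    have h2 : ‖φ‖ * ∑ k ∈ range n, ‖a k - coord k y‖ = 0 := by
      rw [Finset.sum_eq_zero, mul_zero]
      intro k _
      rw [hy k, sub_self, norm_zero]
    rwa [h2] at h1
  filter_upwards [hhead.eventually (gt_mem_nhds (show (0 : ℝ) < ε / 4 by positivity))] with i hi
  rw [dist_eq_norm, ← map_sub]
  have e1 : φ (x i - y) = φ (proj (Set.Iio n) (x i - y)) + (φ (proj (Set.Ici n) (x i)) -
      φ (proj (Set.Ici n) y)) := by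
    rw [← map_sub, ← map_sub, ← map_add, proj_Iio_add_Ici]
  rw [e1]
  have e2 : ‖φ (proj (Set.Iio n) (x i - y))‖ ≤ ‖φ‖ * ∑ k ∈ range n, ‖coord k (x i - y)‖ :=
    (φ.le_opNorm _).trans (mul_le_mul_of_nonneg_left (norm_proj_Iio_le n _) (norm_nonneg φ))
  have e3 := hsmall (x i) (hx i)
  have e4 := hsmall y hyC
  have e5 := norm_add_le (φ (proj (Set.Iio n) (x i - y))) (φ (proj (Set.Ici n) (x i)) -
      φ (proj (Set.Ici n) y))
  have e6 := norm_sub_le (φ (proj (Set.Ici n) (x i))) (φ (proj (Set.Ici n) y))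
  linarith

/-- transfer along isomorphisms -/
lemma URefl.of_equiv {Y Z : Type*} [NormedAddCommGroup Y] [NormedSpace 𝕜 Y]
    [NormedAddCommGroup Z] [NormedSpace 𝕜 Z] (J : Y ≃L[𝕜] Z) (hZ : URefl 𝕜 Z) : URefl 𝕜 Y := by
  intro ι U x C hx
  obtain ⟨z, hz⟩ := hZ ι U (fun i => J (x i)) (‖(J : Y →L[𝕜] Z)‖ * C) (fun i =>
    ((J : Y →L[𝕜] Z).le_opNorm (x i)).trans (mul_le_mul_of_nonneg_left (hx i) (norm_nonneg _)))
  refine ⟨J.symm z, fun φ => ?_⟩
  have := hz (φ.comp (J.symm : Z →L[𝕜] Y))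
  simpa using this

/-- unit vectors -/
lemma exists_unit (k : ℕ) : ∃ e : X 𝕜, ∀ j, coord j e = if j = k then 1 else 0 := by
  obtain ⟨e, he, -⟩ := exists_of_bound (𝕜 := 𝕜) (fun j => if j = k then 1 else 0)
    (C := 1) zero_le_one (fun w hw K => by
      calc ∑ j ∈ range K, w j * ‖(if j = k then (1 : 𝕜) else 0)‖ ^ 2
          = ∑ j ∈ range K, (if j = k then w j else 0) := by
            refine Finset.sum_congr rfl (fun j _ => ?_)
            split_ifs <;> simp
        _ ≤ 1 ^ 2 := by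
            rw [Finset.sum_ite_eq']
            split_ifs
            · rw [one_pow]; exact hw.le_one k
            · positivity)
  exact ⟨e, he⟩

/-- the unit vector basis -/
noncomputable def unitv (k : ℕ) : X 𝕜 := (exists_unit k).choose

lemma coord_unitv (j k : ℕ) : coord j (unitv k : X 𝕜) = if j = k then 1 else 0 :=
  (exists_unit k).choose_spec j

lemma proj_Iio_eq_sum (n : ℕ) (x : X 𝕜) :
    proj (Set.Iio n) x = ∑ k ∈ range n, coord k x • unitv k := by
  apply coord_ext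
  intro j
  rw [map_sum]
  simp only [map_smul, coord_unitv, smul_eq_mul, mul_ite, mul_one, mul_zero]
  rw [Finset.sum_ite_eq]
  by_cases hj : j < n
  · rw [coord_proj_mem (by simpa using hj), if_pos (Finset.mem_range.2 hj)]
  · rw [coord_proj_not_mem (by simpa using hj), if_neg (by simpa using hj)]

instance : TopologicalSpace.SeparableSpace (X 𝕜) := by
  have h1 : (Set.range (unitv : ℕ → X 𝕜)).Countable := Set.countable_range _
  have h2 : TopologicalSpace.IsSeparable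
      (Submodule.span 𝕜 (Set.range (unitv : ℕ → X 𝕜)) : Set (X 𝕜)) :=
    h1.isSeparable.span
  have h3 : TopologicalSpace.IsSeparable (Set.univ : Set (X 𝕜)) := by
    refine h2.closure.mono (fun x _ => ?_)
    refine mem_closure_of_tendsto (tendsto_proj_Iio x) (Filter.univ_mem' (fun n => ?_))
    change proj (Set.Iio n) x ∈ (Submodule.span 𝕜 (Set.range (unitv : ℕ → X 𝕜)))
    rw [proj_Iio_eq_sum]
    exact Submodule.sum_mem _ (fun k _ => Submodule.smul_mem _ _
      (Submodule.subset_span (Set.mem_range_self k)))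
  exact TopologicalSpace.isSeparable_univ_iff.1 h3

lemma linearIndependent_unitv : LinearIndependent 𝕜 (unitv : ℕ → X 𝕜) := by
  rw [linearIndependent_iff']
  intro s g hg i hi
  have := congrArg (coord i) hg
  rw [map_sum, map_zero] at this
  simp only [map_smul, coord_unitv, smul_eq_mul, mul_ite, mul_one, mul_zero] at this
  rw [Finset.sum_ite_eq, if_pos hi] at this
  exact this

lemma not_finiteDimensional_X : ¬ FiniteDimensional 𝕜 (X 𝕜) := by
  intro h
  have := (linearIndependent_unitv (𝕜 := 𝕜)).lt_aleph0_of_finiteDimensional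
  simp at this

end Pool.Agent.H85.Odell
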