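import Mathlib
import Pool.Agent.H85.OdellMove
import Pool.Agent.H85.OdellRefl
import Pool.Agent.H85.JNBasic

/-!
Weak operator limits of near isometries on isomorphs of the 2-convexified modified
Tsirelson space.
-/

namespace Pool.Agent.H85.Odell

open Finset Filter Topology Pool.Agent.H85.JN

variable {𝕜 : Type*} [RCLike 𝕜]

section General

variable {Y : Type*} [NormedAddCommGroup Y] [NormedSpace 𝕜 Y]

/-- near isometry -/
def Near (S : Y ≃L[𝕜] Y) (t : ℝ) : Prop :=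
  ∀ x, ‖S x‖ ≤ Real.exp t * ‖x‖ ∧ ‖x‖ ≤ Real.exp t * ‖S x‖

lemma Near.mono {S : Y ≃L[𝕜] Y} {s t : ℝ} (h : Near S s) (hst : s ≤ t) : Near S t := by
  have h1 : Real.exp s ≤ Real.exp t := Real.exp_le_exp.2 hst
  intro x
  exact ⟨(h x).1.trans (by gcongr), (h x).2.trans (by gcongr)⟩

lemma Near.trans {R S : Y ≃L[𝕜] Y} {s t : ℝ} (hR : Near R t) (hS : Near S s) :
    Near (R.trans S) (s + t) := by
  intro x
  rw [Real.exp_add]
  refine ⟨?_, ?_⟩
  · calc ‖S (R x)‖ ≤ Real.exp s * ‖R x‖ := (hS _).1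
      _ ≤ Real.exp s * (Real.exp t * ‖x‖) := by
          gcongr; exact (hR x).1
      _ = _ := by ring
  · calc ‖x‖ ≤ Real.exp t * ‖R x‖ := (hR x).2
      _ ≤ Real.exp t * (Real.exp s * ‖S (R x)‖) := by
          gcongr; exact (hS _).2
      _ = _ := by rw [ContinuousLinearEquiv.trans_apply]; ring

lemma Near.symm {S : Y ≃L[𝕜] Y} {t : ℝ} (h : Near S t) : Near S.symm t := by
  intro x
  have := h (S.symm x)
  rw [S.apply_symm_apply] at this
  exact ⟨this.2, this.1⟩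

lemma Near.refl : Near (ContinuousLinearEquiv.refl 𝕜 Y) 0 := by
  intro x; simp

/-- weak operator limits of near isometries -/
def Gam (t : ℝ) (V : Y →L[𝕜] Y) : Prop :=
  ∃ F : Filter (Y ≃L[𝕜] Y), F.NeBot ∧ (∀ᶠ S in F, Near S t) ∧
    ∀ (x : Y) (φ : StrongDual 𝕜 Y), Tendsto (fun S : Y ≃L[𝕜] Y => φ (S x)) F (𝓝 (φ (V x)))

lemma Gam.mono {s t : ℝ} {V : Y →L[𝕜] Y} (h : Gam s V) (hst : s ≤ t) : Gam t V := by
  obtain ⟨F, hF, hF1, hF2⟩ := h
  exact ⟨F, hF, hF1.mono (fun S hS => hS.mono hst), hF2⟩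

lemma Gam.of_near {S : Y ≃L[𝕜] Y} {t : ℝ} (h : Near S t) : Gam t (S : Y →L[𝕜] Y) := by
  refine ⟨pure S, inferInstance, by simpa using h, fun x φ => ?_⟩
  rw [tendsto_pure_left]
  intro s hs
  exact mem_of_mem_nhds hs

lemma Gam.comp {s t : ℝ} {V W : Y →L[𝕜] Y} (hV : Gam s V) (hW : Gam t W) :
    Gam (s + t) (V.comp W) := by
  obtain ⟨F, hF, hF1, hF2⟩ := hV
  obtain ⟨G, hG, hG1, hG2⟩ := hW
  refine ⟨F.bind (fun S => G.map (fun R => R.trans S)), ?_, ?_, ?_⟩
  · rw [Filter.neBot_iff]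
    intro h
    have h1 : ∀ᶠ _y in F.bind (fun S => G.map (fun R => R.trans S)), False := by
      rw [h]; simp
    rw [eventually_bind] at h1
    obtain ⟨S, hS⟩ := h1.exists
    have h2 : ∀ᶠ _R in G, False := by simpa using hS
    exact h2.exists.choose_spec
  · rw [eventually_bind]
    filter_upwards [hF1] with S hS
    rw [eventually_map]
    filter_upwards [hG1] with R hR
    exact hR.trans hS
  · intro x φ
    rw [tendsto_nhds]
    intro s hs hsx
    have h1 := (hF2 (W x) φ).eventually (hs.mem_nhds hsx)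
    change ∀ᶠ T : Y ≃L[𝕜] Y in F.bind (fun S => G.map (fun R => R.trans S)), φ (T x) ∈ s
    rw [eventually_bind]
    filter_upwards [h1] with S hS
    rw [eventually_map]
    have h2 := (hG2 x (φ.comp (S : Y →L[𝕜] Y))).eventually (hs.mem_nhds hS)
    filter_upwards [h2] with R hR
    exact hR

lemma norm_le_of_dual {y : Y} {C : ℝ} (h : ∀ φ : StrongDual 𝕜 Y, ‖φ‖ ≤ 1 → ‖φ y‖ ≤ C) :
    ‖y‖ ≤ C := by
  obtain ⟨g, hg1, hg⟩ := exists_dual_vector'' 𝕜 y
  have := h g hg1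
  rw [hg, RCLike.norm_ofReal, abs_of_nonneg (norm_nonneg _)] at this
  exact this

lemma eq_of_dual {y z : Y} (h : ∀ φ : StrongDual 𝕜 Y, φ y = φ z) : y = z := by
  rw [← sub_eq_zero, ← norm_le_zero_iff]
  refine norm_le_of_dual (𝕜 := 𝕜) (fun φ _ => ?_)
  rw [map_sub, h φ, sub_self, norm_zero]

lemma Gam.norm_le {t : ℝ} {V : Y →L[𝕜] Y} (hV : Gam t V) (x : Y) :
    ‖V x‖ ≤ Real.exp t * ‖x‖ := by
  obtain ⟨F, hF, hF1, hF2⟩ := hV
  refine norm_le_of_dual (𝕜 := 𝕜) (fun φ hφ => ?_)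
  refine le_of_tendsto (hF2 x φ).norm ?_
  filter_upwards [hF1] with S hS
  calc ‖φ (S x)‖ ≤ ‖φ‖ * ‖S x‖ := φ.le_opNorm _
    _ ≤ 1 * (Real.exp t * ‖x‖) := by
        gcongr
        exact (hS x).1
    _ = _ := one_mul _

lemma Gam.norm_le_one {V : Y →L[𝕜] Y} (hV : ∀ t > 0, Gam t V) (x : Y) : ‖V x‖ ≤ ‖x‖ := by
  have h1 : Tendsto (fun t : ℝ => Real.exp t * ‖x‖) (𝓝[>] 0) (𝓝 (Real.exp 0 * ‖x‖)) :=
    ((Real.continuous_exp.mul continuous_const).tendsto 0).mono_left nhdsWithin_le_nhds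
  rw [Real.exp_zero, one_mul] at h1
  refine ge_of_tendsto h1 ?_
  filter_upwards [self_mem_nhdsWithin] with t ht
  exact (hV t ht).norm_le x

lemma Gam.limit {ι : Type*} {t : ℝ} {U : Filter ι} [U.NeBot] {V : ι → (Y →L[𝕜] Y)}
    {W : Y →L[𝕜] Y} (hV : ∀ i, Gam t (V i))
    (h : ∀ (x : Y) (φ : StrongDual 𝕜 Y), Tendsto (fun i => φ (V i x)) U (𝓝 (φ (W x)))) :
    Gam t W := by
  choose F hF hF1 hF2 using hV
  refine ⟨U.bind F, ?_, ?_, ?_⟩
  · rw [Filter.neBot_iff]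
    intro h
    have h1 : ∀ᶠ _y in U.bind F, False := by
      rw [h]; simp
    rw [eventually_bind] at h1
    obtain ⟨i, hi⟩ := h1.exists
    have := hF i
    exact hi.exists.choose_spec
  · rw [eventually_bind]
    exact Filter.univ_mem' hF1
  · intro x φ
    rw [tendsto_nhds]
    intro s hs hsx
    change ∀ᶠ T : Y ≃L[𝕜] Y in U.bind F, φ (T x) ∈ s
    rw [eventually_bind]
    filter_upwards [(h x φ).eventually (hs.mem_nhds hsx)] with i hi
    exact (hF2 i x φ).eventually (hs.mem_nhds hi)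

/-- limits of operators along an ultrafilter -/
lemma exists_op_limit {Z : Type*} [NormedAddCommGroup Z] [NormedSpace 𝕜 Z] (hZ : URefl 𝕜 Z)
    {ι : Type} (U : Ultrafilter ι) (T : ι → (Y →L[𝕜] Z)) (C : ℝ)
    (hT : ∀ i y, ‖T i y‖ ≤ C * ‖y‖) :
    ∃ V : Y →L[𝕜] Z, (∀ y, ‖V y‖ ≤ C * ‖y‖) ∧
      ∀ (y : Y) (φ : StrongDual 𝕜 Z), Tendsto (fun i => φ (T i y)) U (𝓝 (φ (V y))) := by
  choose V hV using fun y => hZ ι U (fun i => T i y) (C * ‖y‖) (fun i => hT i y)
  have hbd : ∀ y, ‖V y‖ ≤ C * ‖y‖ := by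
    intro y
    refine norm_le_of_dual (𝕜 := 𝕜) (fun φ hφ => ?_)
    refine le_of_tendsto (hV y φ).norm (Filter.univ_mem' (fun i => ?_))
    calc ‖φ (T i y)‖ ≤ ‖φ‖ * ‖T i y‖ := φ.le_opNorm _
      _ ≤ 1 * (C * ‖y‖) := by
          gcongr
          exact hT i y
      _ = _ := one_mul _
  let L : Y →ₗ[𝕜] Z :=
    { toFun := V
      map_add' := by
        intro x y
        refine eq_of_dual (𝕜 := 𝕜) (fun φ => ?_)
        refine tendsto_nhds_unique (hV (x + y) φ) ?_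
        rw [map_add]
        refine ((hV x φ).add (hV y φ)).congr (fun i => ?_)
        rw [map_add, map_add]
      map_smul' := by
        intro c x
        refine eq_of_dual (𝕜 := 𝕜) (fun φ => ?_)
        refine tendsto_nhds_unique (hV (c • x) φ) ?_
        rw [RingHom.id_apply, map_smul]
        refine ((hV x φ).const_smul c).congr (fun i => ?_)
        rw [map_smul, map_smul] }
  exact ⟨L.mkContinuous C hbd, hbd, hV⟩

/-- finite rank operators turn weak convergence into norm convergence -/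
lemma tendsto_finrank {α : Type*} {F : Filter α} {g : α → Y} {y : Y}
    (h : ∀ φ : StrongDual 𝕜 Y, Tendsto (fun a => φ (g a)) F (𝓝 (φ y)))
    (K : Submodule 𝕜 Y) [FiniteDimensional 𝕜 K] (L : Y →L[𝕜] K) :
    Tendsto (fun a => L (g a)) F (𝓝 (L y)) := by
  let e : K ≃L[𝕜] (Fin (Module.finrank 𝕜 K) → 𝕜) :=
    ContinuousLinearEquiv.ofFinrankEq (by simp)
  have h1 : Tendsto (fun a => e (L (g a))) F (𝓝 (e (L y))) := by
    rw [tendsto_pi_nhds]
    intro i
    exact h ((ContinuousLinearMap.proj (R := 𝕜) (φ := fun _ => 𝕜) i).comp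
      ((e : K →L[𝕜] (Fin (Module.finrank 𝕜 K) → 𝕜)).comp L))
  have h2 := (e.symm.continuous.tendsto _).comp h1
  simpa [Function.comp_def] using h2

end General

section Blocks

/-- selection of nearly block sequences, remembering the history -/
lemma exists_blocks {α : Type*} (v : α → X 𝕜) (Q : List α → α → Prop)
    (h : ∀ (l : List α) (n : ℕ) (ε : ℝ), 0 < ε → ∃ x, ‖proj (Set.Iio n) (v x)‖ ≤ ε ∧ Q l x) :
    ∃ (s : ℕ → α) (a : ℕ → ℕ), StrictMono a ∧
      (∀ j, ‖v (s j) - proj (Set.Ico (a j) (a (j + 1))) (v (s j))‖ ≤ (1 / 2) ^ j) ∧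
      ∀ j, ∃ l : List α, l.length = j ∧ (∀ i < j, s i ∈ l) ∧ Q l (s j) := by
  let R : (List α × ℕ) → (List α × ℕ) → Prop := fun p q =>
    ∃ x, q.1 = x :: p.1 ∧ p.2 < q.2 ∧
      ‖v x - proj (Set.Ico p.2 q.2) (v x)‖ ≤ (1 / 2) ^ p.1.length ∧ Q p.1 x
  have hstep : ∀ p, ∃ q, R p q := by
    rintro ⟨l, n⟩
    obtain ⟨x, hx1, hx2⟩ := h l n ((1 / 2) ^ (l.length + 1)) (by positivity)
    obtain ⟨N, hN, hnN⟩ := (((tendsto_tail (v x)).eventually
      (gt_mem_nhds (show (0 : ℝ) < (1 / 2) ^ (l.length + 1) by positivity))).and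
      (eventually_gt_atTop n)).exists
    refine ⟨(x :: l, N), x, rfl, hnN, ?_, hx2⟩
    have e : v x - proj (Set.Ico n N) (v x) =
        proj (Set.Iio n) (v x) + proj (Set.Ici N) (v x) := by
      apply coord_ext
      intro k
      rw [map_sub, map_add]
      by_cases h1 : k < n
      · rw [coord_proj_not_mem (A := Set.Ico n N) (fun h => absurd h.1 (not_le.2 h1)),
          coord_proj_mem (A := Set.Iio n) (by simpa using h1),
          coord_proj_not_mem (A := Set.Ici N) (fun h => absurd (hnN.trans_le h) (not_lt.2 h1.le))]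
        simp
      · by_cases h2 : k < N
        · rw [coord_proj_mem (A := Set.Ico n N) ⟨not_lt.1 h1, h2⟩,
            coord_proj_not_mem (A := Set.Iio n) (by simpa using h1),
            coord_proj_not_mem (A := Set.Ici N) (by simpa using h2)]
          simp
        · rw [coord_proj_not_mem (A := Set.Ico n N) (fun h => absurd h.2 h2),
            coord_proj_not_mem (A := Set.Iio n) (by simpa using h1),
            coord_proj_mem (A := Set.Ici N) (by simpa using h2)]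
          simp
    rw [e]
    refine (norm_add_le _ _).trans ?_
    have : (1 / 2 : ℝ) ^ l.length = (1 / 2) ^ (l.length + 1) + (1 / 2) ^ (l.length + 1) := by
      rw [pow_succ]; ring
    rw [this]
    exact add_le_add hx1 hN.le
  obtain ⟨S, hS0, hS⟩ := exists_seq_rel R ([], 0) hstep
  choose x hx1 hx2 hx3 hx4 using hS
  have hlen : ∀ j, (S j).1.length = j := by
    intro j
    induction j with
    | zero => rw [hS0]; rfl
    | succ j ih => rw [hx1 j, List.length_cons, ih]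
  have hmem : ∀ j, ∀ i < j, x i ∈ (S j).1 := by
    intro j
    induction j with
    | zero => intro i hi; omega
    | succ j ih =>
      intro i hi
      rw [hx1 j]
      rcases Nat.lt_succ_iff_lt_or_eq.1 hi with h | h
      · exact List.mem_cons_of_mem _ (ih i h)
      · subst h; exact List.mem_cons_self
  refine ⟨x, fun j => (S j).2, strictMono_nat_of_lt_succ hx2, fun j => ?_, fun j => ?_⟩
  · have := hx3 j
    rw [hlen j] at this
    exact this
  · exact ⟨(S j).1, hlen j, hmem j, hx4 j⟩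

end Blocks

section Main

variable {Y : Type*} [NormedAddCommGroup Y] [NormedSpace 𝕜 Y]

lemma tendsto_head (J : Y ≃L[𝕜] X 𝕜) {α : Type*} {F : Filter α} {g : α → Y} {y : Y}
    (h : ∀ φ : StrongDual 𝕜 Y, Tendsto (fun a => φ (g a)) F (𝓝 (φ y))) (n : ℕ) :
    Tendsto (fun a => ‖proj (Set.Iio n) (J (g a) - J y)‖) F (𝓝 0) := by
  have h1 : Tendsto (fun a => ∑ k ∈ range n, ‖coord k (J (g a) - J y)‖) F (𝓝 0) := by
    have h2 : Tendsto (fun a => ∑ k ∈ range n, ‖coord k (J (g a) - J y)‖) F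
        (𝓝 (∑ k ∈ range n, ‖coord k (J y) - coord k (J y)‖)) := by
      refine tendsto_finsetSum _ (fun k _ => ?_)
      simp only [map_sub]
      exact ((h ((coord k).comp (J : Y →L[𝕜] X 𝕜))).sub tendsto_const_nhds).norm
    simpa using h2
  exact squeeze_zero (fun _ => norm_nonneg _) (fun a => norm_proj_Iio_le n _) h1

lemma exists_far (J : Y ≃L[𝕜] X 𝕜) (K : Submodule 𝕜 Y) (hK : ¬ FiniteDimensional 𝕜 K) (n : ℕ) :
    ∃ z ∈ K, ‖z‖ = 1 ∧ ∀ k < n, coord k (J z) = 0 := by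
  let L : K →ₗ[𝕜] (Fin n → 𝕜) := LinearMap.pi (fun k =>
    ((coord (k : ℕ)).comp (J : Y →L[𝕜] X 𝕜)).toLinearMap.comp K.subtype)
  have hninj : ¬ Function.Injective L := fun hinj => hK (FiniteDimensional.of_injective L hinj)
  rw [← LinearMap.ker_eq_bot, Submodule.eq_bot_iff] at hninj
  push Not at hninj
  obtain ⟨z, hz, hz0⟩ := hninj
  have hz0' : (z : Y) ≠ 0 := fun h => hz0 (Subtype.ext h)
  refine ⟨((‖(z : Y)‖⁻¹ : ℝ) : 𝕜) • (z : Y), K.smul_mem _ z.2, ?_, fun k hk => ?_⟩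
  · rw [norm_smul, RCLike.norm_ofReal, abs_of_nonneg (by positivity),
      inv_mul_cancel₀ (norm_ne_zero_iff.2 hz0')]
  · have h1 : L z ⟨k, hk⟩ = 0 := by rw [LinearMap.mem_ker.1 hz]; rfl
    have h2 : coord k (J (z : Y)) = 0 := h1
    rw [map_smul, map_smul, h2, smul_zero]

lemma movingY (J : Y ≃L[𝕜] X 𝕜) (z : ℕ → Y) (a : ℕ → ℕ) (ha : StrictMono a)
    (hu : ∀ j, ‖J (z j) - proj (Set.Ico (a j) (a (j + 1))) (J (z j))‖ ≤ (1 / 2) ^ j)
    {c C t : ℝ} (hc : 0 < c) (hcz : ∀ j, c ≤ ‖z j‖) (hCz : ∀ j, ‖z j‖ ≤ C)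
    (hV : ∀ m : ℕ, ∃ V : Y →L[𝕜] Y, Gam t V ∧ ∀ j < m, ‖J (V (z j))‖ ≤ (1 / 2) ^ (j + 1)) :
    False := by
  set A : ℝ := ‖(J : Y →L[𝕜] X 𝕜)‖ with hA
  set B : ℝ := ‖(J.symm : X 𝕜 →L[𝕜] Y)‖ with hB
  have hA0 : 0 ≤ A := norm_nonneg (J : Y →L[𝕜] X 𝕜)
  have hB0 : 0 ≤ B := norm_nonneg (J.symm : X 𝕜 →L[𝕜] Y)
  have hJ : ∀ y, ‖J y‖ ≤ A * ‖y‖ := fun y => (J : Y →L[𝕜] X 𝕜).le_opNorm y
  have hJs : ∀ x, ‖J.symm x‖ ≤ B * ‖x‖ := fun x => (J.symm : X 𝕜 →L[𝕜] Y).le_opNorm x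
  refine moving (fun j => J (z j)) a ha hu (c := c / (B + 1)) (C := A * C)
    (D := max 1 (A * Real.exp t * B)) (by positivity) ?_ ?_ (le_max_left _ _) ?_
  · intro j
    rw [div_le_iff₀ (by positivity)]
    calc c ≤ ‖z j‖ := hcz j
      _ = ‖J.symm (J (z j))‖ := by rw [J.symm_apply_apply]
      _ ≤ B * ‖J (z j)‖ := hJs _
      _ ≤ ‖J (z j)‖ * (B + 1) := by nlinarith [norm_nonneg (J (z j))]
  · intro j
    refine (hJ _).trans ?_
    gcongr
    exact hCz j
  · intro m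
    obtain ⟨V, ⟨F, hF, hF1, hF2⟩, hVz⟩ := hV m
    have h1 : ∀ᶠ S : Y ≃L[𝕜] Y in F, ∀ j ∈ range m,
        ‖proj (Set.Iio m) (J (S (z j)) - J (V (z j)))‖ < (1 / 2) ^ (m + 1) := by
      rw [Filter.eventually_all_finset]
      intro j _
      exact (tendsto_head J (hF2 (z j)) m).eventually (gt_mem_nhds (by positivity))
    obtain ⟨S, hS1, hS2⟩ := (h1.and hF1).exists
    refine ⟨(J : Y →L[𝕜] X 𝕜).comp ((S : Y →L[𝕜] Y).comp (J.symm : X 𝕜 →L[𝕜] Y)), ?_, ?_, ?_⟩
    · intro y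
      change ‖J (S (J.symm y))‖ ≤ _
      calc ‖J (S (J.symm y))‖ ≤ A * ‖S (J.symm y)‖ := hJ _
        _ ≤ A * (Real.exp t * (B * ‖y‖)) := by
            gcongr
            exact (hS2 _).1.trans (by gcongr; exact hJs y)
        _ = A * Real.exp t * B * ‖y‖ := by ring
        _ ≤ _ := by gcongr; exact le_max_right _ _
    · intro y
      change ‖y‖ ≤ _ * ‖J (S (J.symm y))‖
      calc ‖y‖ = ‖J (J.symm y)‖ := by rw [J.apply_symm_apply]
        _ ≤ A * ‖J.symm y‖ := hJ _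
        _ ≤ A * (Real.exp t * ‖S (J.symm y)‖) := by
            gcongr
            exact (hS2 _).2
        _ = A * (Real.exp t * ‖J.symm (J (S (J.symm y)))‖) := by rw [J.symm_apply_apply]
        _ ≤ A * (Real.exp t * (B * ‖J (S (J.symm y))‖)) := by
            gcongr
            exact hJs _
        _ = A * Real.exp t * B * ‖J (S (J.symm y))‖ := by ring
        _ ≤ _ := by gcongr; exact le_max_right _ _
    · intro j hj
      change ‖proj (Set.Iio m) (J (S (J.symm (J (z j)))))‖ ≤ _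
      rw [J.symm_apply_apply]
      have e1 : J (S (z j)) = (J (S (z j)) - J (V (z j))) + J (V (z j)) := by abel
      rw [e1, map_add]
      refine (norm_add_le _ _).trans ?_
      have e2 := hS1 j (Finset.mem_range.2 hj)
      have e3 : (1 / 2 : ℝ) ^ (m + 1) ≤ (1 / 2) ^ (j + 1) :=
        pow_le_pow_of_le_one (by norm_num) (by norm_num) (by omega)
      have e4 : (1 / 2 : ℝ) ^ j = (1 / 2) ^ (j + 1) + (1 / 2) ^ (j + 1) := by
        rw [pow_succ]; ring
      rw [e4]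
      exact add_le_add (e2.le.trans e3) ((norm_proj_le _ _).trans (hVz j hj))

theorem ker_finite (J : Y ≃L[𝕜] X 𝕜) {t : ℝ} {P : Y →L[𝕜] Y} (hP : Gam t P) :
    FiniteDimensional 𝕜 (LinearMap.ker (P : Y →ₗ[𝕜] Y)) := by
  by_contra hinf
  obtain ⟨s, a, ha, hs, -⟩ := exists_blocks (𝕜 := 𝕜)
    (α := {z : Y // P z = 0 ∧ ‖z‖ = 1}) (fun z => J z.1) (fun _ _ => True) (by
      intro l n ε hε
      obtain ⟨z, hzK, hz1, hz⟩ := exists_far J _ hinf n
      refine ⟨⟨z, LinearMap.mem_ker.1 hzK, hz1⟩, ?_, trivial⟩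
      refine (norm_proj_Iio_le n _).trans ?_
      rw [Finset.sum_eq_zero]
      · exact hε.le
      · intro k hk
        rw [hz k (Finset.mem_range.1 hk), norm_zero])
  refine movingY J (fun j => (s j).1) a ha hs (c := 1) (C := 1) (t := t) one_pos
    (fun j => (s j).2.2.ge) (fun j => (s j).2.2.le) (fun m => ⟨P, hP, fun j _ => ?_⟩)
  rw [(s j).2.1, map_zero, norm_zero]
  positivity

theorem eq_one_of_idem (J : Y ≃L[𝕜] X 𝕜) {P : Y →L[𝕜] Y} (hP : ∀ t > 0, Gam t P)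
    (hPP : ∀ x, P (P x) = P x) (x : Y) : P x = x := by
  suffices h : ∀ z, P z = 0 → z = 0 by
    have h1 := h (P x - x) (by rw [map_sub, hPP, sub_self])
    exact sub_eq_zero.1 h1
  intro z hz
  by_contra hz0
  have hzn : 0 < ‖z‖ := norm_pos_iff.2 hz0
  have hfd : FiniteDimensional 𝕜 (LinearMap.ker (P : Y →ₗ[𝕜] Y)) :=
    ker_finite J (hP 1 one_pos)
  let L : Y →L[𝕜] (LinearMap.ker (P : Y →ₗ[𝕜] Y)) :=
    (ContinuousLinearMap.id 𝕜 Y - P).codRestrict _ (by
      intro x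
      rw [LinearMap.mem_ker]
      change P (x - P x) = 0
      rw [map_sub, hPP, sub_self])
  have hL : ∀ x, ‖L x‖ = ‖P x - x‖ := by
    intro x
    rw [norm_sub_rev]
    rfl
  set A : ℝ := ‖(J : Y →L[𝕜] X 𝕜)‖ with hA
  have hA0 : 0 ≤ A := norm_nonneg (J : Y →L[𝕜] X 𝕜)
  have hJ : ∀ y, ‖J y‖ ≤ A * ‖y‖ := fun y => (J : Y →L[𝕜] X 𝕜).le_opNorm y
  set ε₀ : ℝ := 1 / (2 * (A + 1) * Real.exp 4) with hε₀
  have hε₀0 : 0 < ε₀ := by positivity
  obtain ⟨S, a, ha, hS, hSQ⟩ := exists_blocks (𝕜 := 𝕜) (α := Y ≃L[𝕜] Y) (fun S => J (S z))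
    (fun l S => Near S ((1 / 2) ^ (l.length + 1)) ∧
      ∀ T ∈ l, ‖L (T.symm (S z))‖ ≤ ε₀ * (1 / 4) ^ l.length) (by
      intro l n ε hε
      obtain ⟨F, hF, hF1, hF2⟩ := hP ((1 / 2) ^ (l.length + 1)) (by positivity)
      have h1 : ∀ᶠ S : Y ≃L[𝕜] Y in F, ‖proj (Set.Iio n) (J (S z) - J (P z))‖ < ε :=
        (tendsto_head J (hF2 z) n).eventually (gt_mem_nhds hε)
      have h2 : ∀ T : Y ≃L[𝕜] Y, ∀ᶠ S : Y ≃L[𝕜] Y in F,
          ‖L (T.symm (S z))‖ < ε₀ * (1 / 4) ^ l.length := by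
        intro T
        have h3 : Tendsto (fun S : Y ≃L[𝕜] Y => L (T.symm (S z))) F
            (𝓝 (L (T.symm (P z)))) :=
          tendsto_finrank (fun φ => hF2 z (φ.comp (T.symm : Y →L[𝕜] Y))) _ L
        rw [hz, map_zero, map_zero] at h3
        have h4 := h3.norm
        rw [norm_zero] at h4
        exact h4.eventually (gt_mem_nhds (by positivity))
      have h3 : ∀ᶠ S : Y ≃L[𝕜] Y in F, ∀ T ∈ l,
          ‖L (T.symm (S z))‖ < ε₀ * (1 / 4) ^ l.length := by
        have h4 : {T | T ∈ l}.Finite := l.finite_toSet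
        exact (Filter.eventually_all_finite h4).2 (fun T _ => h2 T)
      obtain ⟨S, ⟨hS1, hS2⟩, hS3⟩ := ((h1.and h3).and hF1).exists
      refine ⟨S, ?_, hS3, fun T hT => (hS2 T hT).le⟩
      rw [hz, map_zero, sub_zero] at hS1
      exact hS1.le)
  have hSn : ∀ j, Near (S j) ((1 / 2) ^ (j + 1)) := by
    intro j
    obtain ⟨l, hl, -, h1, -⟩ := hSQ j
    rw [hl] at h1
    exact h1
  have hSL : ∀ i j, i < j → ‖L ((S i).symm (S j z))‖ ≤ ε₀ * (1 / 4) ^ j := by
    intro i j hij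
    obtain ⟨l, hl, hmem, -, h1⟩ := hSQ j
    have := h1 (S i) (hmem i hij)
    rw [hl] at this
    exact this
  have hSn1 : ∀ j, Near (S j) 1 := fun j =>
    (hSn j).mono (pow_le_one₀ (by norm_num) (by norm_num))
  let M : ℕ → (Y →L[𝕜] Y) := fun i =>
    (S i : Y →L[𝕜] Y).comp (P.comp ((S i).symm : Y →L[𝕜] Y))
  have hMapp : ∀ i x, M i x = S i (P ((S i).symm x)) := fun i x => rfl
  have hM : ∀ i, Gam (3 * (1 / 2) ^ (i + 1)) (M i) := by
    intro i
    have h1 := Gam.comp (Gam.of_near (hSn i)) (Gam.comp (hP ((1 / 2) ^ (i + 1)) (by positivity))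
      (Gam.of_near (hSn i).symm))
    refine h1.mono (le_of_eq (by ring))
  let V : ℕ → (Y →L[𝕜] Y) := fun n => Nat.rec (ContinuousLinearMap.id 𝕜 Y)
    (fun k V => (M k).comp V) n
  have hV0 : ∀ x, V 0 x = x := fun x => rfl
  have hVs : ∀ k x, V (k + 1) x = M k (V k x) := fun k x => rfl
  have hVG : ∀ k, Gam (3 * (1 - (1 / 2) ^ k)) (V k) := by
    intro k
    induction k with
    | zero =>
      have h1 := Gam.of_near (𝕜 := 𝕜) (Y := Y) Near.refl
      have h2 : Gam 0 (V 0) := h1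
      exact h2.mono (by norm_num)
    | succ k ih =>
      have h1 : Gam (3 * (1 / 2) ^ (k + 1) + 3 * (1 - (1 / 2) ^ k)) (V (k + 1)) :=
        Gam.comp (hM k) ih
      refine h1.mono (le_of_eq ?_)
      rw [pow_succ]; ring
  set δ : ℕ → ℝ := fun j => Real.exp 1 * (ε₀ * (1 / 4) ^ j) with hδ
  have hδ0 : ∀ j, 0 ≤ δ j := fun j => by positivity
  have hMz : ∀ i j, i < j → ‖M i (S j z) - S j z‖ ≤ δ j := by
    intro i j hij
    have e1 : M i (S j z) - S j z = S i (P ((S i).symm (S j z)) - (S i).symm (S j z)) := by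
      rw [hMapp, map_sub, (S i).apply_symm_apply]
    rw [e1]
    refine (hSn1 i _).1.trans ?_
    rw [← hL]
    exact mul_le_mul_of_nonneg_left (hSL i j hij) (Real.exp_pos _).le
  have hMzero : ∀ j, M j (S j z) = 0 := by
    intro j
    rw [hMapp, (S j).symm_apply_apply, hz, map_zero]
  have hexp : ∀ k : ℕ, Real.exp (3 * (1 / 2) ^ (k + 1)) * Real.exp (3 * (1 - (1 / 2) ^ k)) =
      Real.exp (3 * (1 - (1 / 2) ^ (k + 1))) := by
    intro k
    rw [← Real.exp_add]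
    congr 1
    rw [pow_succ]; ring
  have hexp1 : ∀ k : ℕ, 1 ≤ Real.exp (3 * (1 - (1 / 2) ^ k)) := by
    intro k
    apply Real.one_le_exp
    have : (1 / 2 : ℝ) ^ k ≤ 1 := pow_le_one₀ (by norm_num) (by norm_num)
    linarith
  have hbefore : ∀ j, ∀ k ≤ j, ‖V k (S j z) - S j z‖ ≤
      Real.exp (3 * (1 - (1 / 2) ^ k)) * (k * δ j) := by
    intro j k
    induction k with
    | zero => intro _; rw [hV0, sub_self, norm_zero]; simp
    | succ k ih =>
      intro hk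
      have h1 := ih (by omega)
      have e1 : V (k + 1) (S j z) - S j z = M k (V k (S j z) - S j z) +
          (M k (S j z) - S j z) := by
        rw [hVs, map_sub]; abel
      rw [e1]
      refine (norm_add_le _ _).trans ?_
      have h2 : ‖M k (V k (S j z) - S j z)‖ ≤
          Real.exp (3 * (1 - (1 / 2) ^ (k + 1))) * (k * δ j) := by
        refine ((hM k).norm_le _).trans ?_
        rw [← hexp k, mul_assoc]
        exact mul_le_mul_of_nonneg_left h1 (Real.exp_pos _).le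
      have h3 := hMz k j (by omega)
      have h4 := hexp1 (k + 1)
      have h5 : δ j ≤ Real.exp (3 * (1 - (1 / 2) ^ (k + 1))) * δ j :=
        le_mul_of_one_le_left (hδ0 j) h4
      push_cast
      calc _ ≤ Real.exp (3 * (1 - (1 / 2) ^ (k + 1))) * (k * δ j) +
            Real.exp (3 * (1 - (1 / 2) ^ (k + 1))) * δ j := add_le_add h2 (h3.trans h5)
        _ = _ := by ring
  have hafter : ∀ j, ∀ k, j + 1 ≤ k → ‖V k (S j z)‖ ≤
      Real.exp (3 * (1 - (1 / 2) ^ k)) * (j * δ j) := by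
    intro j k hk
    induction k, hk using Nat.le_induction with
    | base =>
      have e1 : V (j + 1) (S j z) = M j (V j (S j z) - S j z) := by
        rw [hVs, map_sub, hMzero, sub_zero]
      rw [e1]
      refine ((hM j).norm_le _).trans ?_
      rw [← hexp j, mul_assoc]
      exact mul_le_mul_of_nonneg_left (hbefore j j le_rfl) (Real.exp_pos _).le
    | succ k hk ih =>
      rw [hVs]
      refine ((hM k).norm_le _).trans ?_
      rw [← hexp k, mul_assoc]
      exact mul_le_mul_of_nonneg_left ih (Real.exp_pos _).le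
  have hjpow : ∀ j : ℕ, (j : ℝ) * (1 / 4) ^ j ≤ (1 / 2) ^ j := by
    intro j
    have h1 : (j : ℝ) ≤ 2 ^ j := by exact_mod_cast Nat.lt_two_pow_self.le
    have h2 : (1 / 4 : ℝ) ^ j = (1 / 2) ^ j * (1 / 2) ^ j := by
      rw [← mul_pow]; norm_num
    have h3 : (2 : ℝ) ^ j * (1 / 2) ^ j = 1 := by
      rw [← mul_pow]; norm_num
    calc (j : ℝ) * (1 / 4) ^ j ≤ 2 ^ j * ((1 / 2) ^ j * (1 / 2) ^ j) := by
          rw [h2]; gcongr
      _ = (2 ^ j * (1 / 2) ^ j) * (1 / 2) ^ j := by ring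
      _ = _ := by rw [h3, one_mul]
  refine movingY J (fun j => S j z) a ha hS (c := ‖z‖ * Real.exp (-1))
    (C := Real.exp 1 * ‖z‖) (t := 3) (by positivity) ?_ ?_ ?_
  · intro j
    have := (hSn1 j z).2
    rw [Real.exp_neg, ← div_eq_mul_inv, div_le_iff₀ (Real.exp_pos _), mul_comm]
    exact this
  · intro j
    exact (hSn1 j z).1
  · intro m
    refine ⟨V m, (hVG m).mono ?_, fun j hj => ?_⟩
    · have : (0 : ℝ) < (1 / 2) ^ m := by positivity
      linarith
    · refine (hJ _).trans ?_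
      have h1 := hafter j m hj
      have h2 : Real.exp (3 * (1 - (1 / 2) ^ m)) ≤ Real.exp 3 := by
        apply Real.exp_le_exp.2
        have : (0 : ℝ) < (1 / 2) ^ m := by positivity
        linarith
      have h3 : ‖V m (S j z)‖ ≤ Real.exp 3 * (j * δ j) :=
        h1.trans (mul_le_mul_of_nonneg_right h2 (mul_nonneg (Nat.cast_nonneg _) (hδ0 j)))
      have h4 : Real.exp 3 * Real.exp 1 = Real.exp 4 := by
        rw [← Real.exp_add]; norm_num
      calc A * ‖V m (S j z)‖ ≤ (A + 1) * (Real.exp 3 * (j * δ j)) := by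
            gcongr
            linarith
        _ = (A + 1) * (Real.exp 3 * Real.exp 1) * ε₀ * (j * (1 / 4) ^ j) := by
            simp only [hδ]; ring
        _ ≤ (A + 1) * (Real.exp 3 * Real.exp 1) * ε₀ * (1 / 2) ^ j := by
            gcongr
            exact hjpow j
        _ = (1 / 2) ^ (j + 1) := by
            rw [h4, hε₀, pow_succ]
            field_simp

end Main

end Pool.Agent.H85.Odell
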