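import Mathlib
import Pool.Agent.H85.OdellGamma

/-!
Isomorphs of the 2-convexified modified Tsirelson space: weak operator limits of near isometries
are surjective isometries, and Banach-Mazur distance one implies isometric.
-/

namespace Pool.Agent.H85.Odell

open Finset Filter Topology

variable {𝕜 : Type*} [RCLike 𝕜]

attribute [local instance] Ultrafilter.add Ultrafilter.addSemigroup

section

variable {Y : Type*} [NormedAddCommGroup Y] [NormedSpace 𝕜 Y]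

lemma gam_pow {Q : Y →L[𝕜] Y} (hQ : ∀ t > 0, Gam t Q) (n : ℕ) :
    ∀ t > 0, Gam t (Q ^ (n + 1)) := by
  induction n with
  | zero => intro t ht; simpa using hQ t ht
  | succ n ih =>
    intro t ht
    have h := Gam.comp (ih (t / 2) (by positivity)) (hQ (t / 2) (by positivity))
    rw [add_halves] at h
    rw [pow_succ]
    exact h

theorem surj_isometry [CompleteSpace Y] (J : Y ≃L[𝕜] X 𝕜) {Q : Y →L[𝕜] Y}
    (hQ : ∀ t > 0, Gam t Q) : (∀ x, ‖Q x‖ = ‖x‖) ∧ Function.Surjective Q := by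
  have hrefl : URefl 𝕜 Y := URefl.of_equiv J urefl_X
  obtain ⟨U, hUU, -⟩ := Hindman.exists_idempotent_ultrafilter_le_FS
    (M := ℕ+) (Stream'.const 1)
  have hpowG : ∀ n : ℕ+, ∀ t > 0, Gam t (Q ^ (n : ℕ)) := by
    intro n
    obtain ⟨k, hk⟩ : ∃ k, (n : ℕ) = k + 1 := ⟨(n : ℕ) - 1, by have := n.pos; omega⟩
    rw [hk]
    exact gam_pow hQ k
  have hpown : ∀ (n : ℕ+) (x : Y), ‖(Q ^ (n : ℕ)) x‖ ≤ 1 * ‖x‖ := fun n x => by
    rw [one_mul]; exact Gam.norm_le_one (hpowG n) x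
  obtain ⟨P, -, hP⟩ := exists_op_limit hrefl U (fun n : ℕ+ => Q ^ (n : ℕ)) 1 hpown
  have hPG : ∀ t > 0, Gam t P := fun t ht => Gam.limit (fun n => hpowG n t ht) hP
  have hPP : ∀ x, P (P x) = P x := by
    intro x
    refine eq_of_dual (𝕜 := 𝕜) (fun φ => ?_)
    refine tendsto_nhds_unique (hP (P x) φ) ?_
    rw [Metric.tendsto_nhds]
    intro ε hε
    have h1 : ∀ᶠ k : ℕ+ in (U : Filter ℕ+), dist (φ ((Q ^ (k : ℕ)) x)) (φ (P x)) < ε / 2 :=
      (Metric.tendsto_nhds.1 (hP x φ)) (ε / 2) (by positivity)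
    rw [← hUU, Ultrafilter.eventually_add] at h1
    filter_upwards [h1] with n hn
    have h2 : Tendsto (fun m : ℕ+ => φ ((Q ^ ((n + m : ℕ+) : ℕ)) x)) U
        (𝓝 (φ ((Q ^ (n : ℕ)) (P x)))) := by
      refine (hP x (φ.comp (Q ^ (n : ℕ)))).congr (fun m => ?_)
      rw [PNat.add_coe, pow_add]
      rfl
    have h3 : dist (φ ((Q ^ (n : ℕ)) (P x))) (φ (P x)) ≤ ε / 2 := by
      refine le_of_tendsto (h2.dist tendsto_const_nhds) ?_
      filter_upwards [hn] with m hm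
      exact hm.le
    linarith
  have hP1 : ∀ x, P x = x := eq_one_of_idem J hPG hPP
  have hQ1 : ∀ x, ‖Q x‖ ≤ ‖x‖ := Gam.norm_le_one hQ
  have hQn : ∀ (n : ℕ+) (x : Y), (Q ^ (n : ℕ)) x = (Q ^ ((n : ℕ) - 1)) (Q x) ∧
      ‖(Q ^ (n : ℕ)) x‖ ≤ ‖Q x‖ := by
    intro n x
    obtain ⟨k, hk⟩ : ∃ k, (n : ℕ) = k + 1 := ⟨(n : ℕ) - 1, by have := n.pos; omega⟩
    have h1 : (Q ^ (k + 1)) x = (Q ^ k) (Q x) := by rw [pow_succ]; rfl
    have h2 : ∀ (k : ℕ) (y : Y), ‖(Q ^ k) y‖ ≤ ‖y‖ := by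
      intro k
      induction k with
      | zero => intro y; simp
      | succ k ih =>
        intro y
        have : (Q ^ (k + 1)) y = (Q ^ k) (Q y) := by rw [pow_succ]; rfl
        rw [this]
        exact (ih _).trans (hQ1 y)
    rw [hk, Nat.add_sub_cancel, h1]
    exact ⟨rfl, h2 k _⟩
  have hiso : ∀ x, ‖Q x‖ = ‖x‖ := by
    intro x
    refine le_antisymm (hQ1 x) ?_
    refine norm_le_of_dual (𝕜 := 𝕜) (fun φ hφ => ?_)
    have h1 := (hP x φ).norm
    rw [hP1 x] at h1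
    refine le_of_tendsto h1 (Filter.univ_mem' (fun n => ?_))
    calc ‖φ ((Q ^ (n : ℕ)) x)‖ ≤ ‖φ‖ * ‖(Q ^ (n : ℕ)) x‖ := φ.le_opNorm _
      _ ≤ 1 * ‖Q x‖ := by
          gcongr
          exact (hQn n x).2
      _ = _ := one_mul _
  refine ⟨hiso, ?_⟩
  -- the range is closed
  let Qi : Y →ₗᵢ[𝕜] Y := ⟨(Q : Y →ₗ[𝕜] Y), hiso⟩
  have hcl : IsClosed (Set.range Q) := Qi.isometry.isClosedEmbedding.isClosed_range
  let K : Submodule 𝕜 Y := LinearMap.range (Q : Y →ₗ[𝕜] Y)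
  have hKcl : IsClosed (K : Set Y) := by
    have : (K : Set Y) = Set.range Q := by ext; rfl
    rw [this]; exact hcl
  by_contra hns
  have hne : K ≠ ⊤ := by
    intro h
    apply hns
    intro y
    have : y ∈ K := by rw [h]; trivial
    exact this
  have : IsClosed (K : Set Y) := hKcl
  have : Nontrivial (Y ⧸ K) := Submodule.Quotient.nontrivial_iff.2 hne
  obtain ⟨y, hy⟩ := exists_ne (0 : Y ⧸ K)
  obtain ⟨g, hg1, hg⟩ := exists_dual_vector 𝕜 y (by simpa using hy)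
  obtain ⟨x, rfl⟩ := Submodule.Quotient.mk_surjective K y
  let φ : StrongDual 𝕜 Y := g.comp (K.mkQL)
  have hφK : ∀ z ∈ K, φ z = 0 := by
    intro z hz
    have : φ z = g (Submodule.Quotient.mk z) := rfl
    rw [this, (Submodule.Quotient.mk_eq_zero K).2 hz, map_zero]
  have hφ0 : φ x = 0 := by
    have h1 := hP x φ
    rw [hP1 x] at h1
    refine tendsto_nhds_unique h1 ?_
    refine tendsto_const_nhds.congr (fun n => ?_)
    symm
    obtain ⟨k, hk⟩ : ∃ k, (n : ℕ) = k + 1 := ⟨(n : ℕ) - 1, by have := n.pos; omega⟩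
    apply hφK
    refine ⟨(Q ^ k) x, ?_⟩
    rw [hk, pow_succ']
    rfl
  have h2 : φ x = g (Submodule.Quotient.mk x) := rfl
  rw [hφ0, hg] at h2
  have h3 : ‖(Submodule.Quotient.mk x : Y ⧸ K)‖ = 0 := by exact_mod_cast h2.symm
  exact hy (by simpa using h3)

end

section Final

variable {Y Z : Type*} [NormedAddCommGroup Y] [NormedSpace 𝕜 Y] [CompleteSpace Y]
  [NormedAddCommGroup Z] [NormedSpace 𝕜 Z] [CompleteSpace Z]

/-- the composition of limits of almost isometries and of their inverses -/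
lemma gam_of_limits (U : Ultrafilter ℕ) (hU : (U : Filter ℕ) ≤ atTop) (T : ℕ → (Y ≃L[𝕜] Z))
    (τ : ℕ → ℝ) (hτ : Tendsto τ atTop (𝓝 0))
    (hT1 : ∀ k y, ‖T k y‖ ≤ Real.exp (τ k) * ‖y‖)
    (hT2 : ∀ k y, ‖y‖ ≤ Real.exp (τ k) * ‖T k y‖)
    (V : Y →L[𝕜] Z) (W : Z →L[𝕜] Y)
    (hV : ∀ (y : Y) (φ : StrongDual 𝕜 Z), Tendsto (fun k => φ (T k y)) U (𝓝 (φ (V y))))
    (hW : ∀ (z : Z) (φ : StrongDual 𝕜 Y), Tendsto (fun k => φ ((T k).symm z)) U (𝓝 (φ (W z)))) :
    ∀ t > 0, Gam t (W.comp V) := by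
  intro t ht
  have hev : ∀ᶠ k in (U : Filter ℕ), τ k < t / 2 :=
    (hτ.mono_left hU).eventually (gt_mem_nhds (by positivity))
  refine ⟨(U : Filter ℕ).bind (fun k => (U : Filter ℕ).map
    (fun l => (T l).trans (T k).symm)), ?_, ?_, ?_⟩
  · rw [Filter.neBot_iff]
    intro h
    have h1 : ∀ᶠ _y in (U : Filter ℕ).bind (fun k => (U : Filter ℕ).map
        (fun l => (T l).trans (T k).symm)), False := by
      rw [h]; simp
    rw [eventually_bind] at h1
    obtain ⟨k, hk⟩ := h1.exists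
    have h2 : ∀ᶠ _l in (U : Filter ℕ), False := by simpa using hk
    exact h2.exists.choose_spec
  · rw [eventually_bind]
    filter_upwards [hev] with k hk
    rw [eventually_map]
    filter_upwards [hev] with l hl
    intro x
    have e1 : Real.exp (τ k) ≤ Real.exp (t / 2) := Real.exp_le_exp.2 hk.le
    have e2 : Real.exp (τ l) ≤ Real.exp (t / 2) := Real.exp_le_exp.2 hl.le
    have e3 : Real.exp (t / 2) * Real.exp (t / 2) = Real.exp t := by
      rw [← Real.exp_add, add_halves]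
    rw [ContinuousLinearEquiv.trans_apply]
    refine ⟨?_, ?_⟩
    · have h1 := hT2 k ((T k).symm (T l x))
      rw [(T k).apply_symm_apply] at h1
      calc ‖(T k).symm (T l x)‖ ≤ Real.exp (τ k) * ‖T l x‖ := h1
        _ ≤ Real.exp (t / 2) * (Real.exp (t / 2) * ‖x‖) := by
            gcongr
            exact (hT1 l x).trans (by gcongr)
        _ = _ := by rw [← mul_assoc, e3]
    · have h1 := hT1 k ((T k).symm (T l x))
      rw [(T k).apply_symm_apply] at h1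
      calc ‖x‖ ≤ Real.exp (τ l) * ‖T l x‖ := hT2 l x
        _ ≤ Real.exp (t / 2) * (Real.exp (t / 2) * ‖(T k).symm (T l x)‖) := by
            gcongr
            exact h1.trans (by gcongr)
        _ = _ := by rw [← mul_assoc, e3]
  · intro x φ
    rw [tendsto_nhds]
    intro s hs hsx
    change ∀ᶠ S : Y ≃L[𝕜] Y in (U : Filter ℕ).bind (fun k => (U : Filter ℕ).map
        (fun l => (T l).trans (T k).symm)), φ (S x) ∈ s
    rw [eventually_bind]
    filter_upwards [(hW (V x) φ).eventually (hs.mem_nhds hsx)] with k hk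
    rw [eventually_map]
    filter_upwards [(hV x (φ.comp ((T k).symm : Z →L[𝕜] Y))).eventually (hs.mem_nhds hk)]
      with l hl
    exact hl

/-- Almost isometric isomorphs are isometric. -/
theorem isometric_of_almost (JY : Y ≃L[𝕜] X 𝕜) (JZ : Z ≃L[𝕜] X 𝕜)
    (h : ∀ t : ℝ, 0 < t → ∃ T : Y ≃L[𝕜] Z, (∀ y, ‖T y‖ ≤ Real.exp t * ‖y‖) ∧
      ∀ y, ‖y‖ ≤ Real.exp t * ‖T y‖) : Nonempty (Y ≃ₗᵢ[𝕜] Z) := by
  have hYr : URefl 𝕜 Y := URefl.of_equiv JY urefl_X
  have hZr : URefl 𝕜 Z := URefl.of_equiv JZ urefl_X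
  let τ : ℕ → ℝ := fun k => 1 / ((k : ℝ) + 1)
  have hτ0 : ∀ k, 0 < τ k := fun k => by positivity
  have hτ1 : ∀ k, τ k ≤ 1 := fun k => by
    simp only [τ]
    rw [div_le_one (by positivity)]
    have : (0 : ℝ) ≤ k := Nat.cast_nonneg k
    linarith
  have hτ : Tendsto τ atTop (𝓝 0) := tendsto_one_div_add_atTop_nhds_zero_nat
  choose T hT1 hT2 using fun k => h (τ k) (hτ0 k)
  have hTs1 : ∀ k z, ‖(T k).symm z‖ ≤ Real.exp (τ k) * ‖z‖ := by
    intro k z
    have := hT2 k ((T k).symm z)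
    rwa [(T k).apply_symm_apply] at this
  have hTs2 : ∀ k z, ‖z‖ ≤ Real.exp (τ k) * ‖(T k).symm z‖ := by
    intro k z
    have := hT1 k ((T k).symm z)
    rwa [(T k).apply_symm_apply] at this
  let U : Ultrafilter ℕ := hyperfilter ℕ
  have hU : (U : Filter ℕ) ≤ atTop := by
    rw [← Nat.cofinite_eq_atTop]; exact hyperfilter_le_cofinite
  obtain ⟨V, -, hV⟩ := exists_op_limit hZr U (fun k => (T k : Y →L[𝕜] Z)) (Real.exp 1)
    (fun k y => (hT1 k y).trans (by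
      have := Real.exp_le_exp.2 (hτ1 k)
      gcongr))
  obtain ⟨W, -, hW⟩ := exists_op_limit hYr U (fun k => ((T k).symm : Z →L[𝕜] Y)) (Real.exp 1)
    (fun k y => (hTs1 k y).trans (by
      have := Real.exp_le_exp.2 (hτ1 k)
      gcongr))
  have hWV := surj_isometry JY (gam_of_limits U hU T τ hτ hT1 hT2 V W hV hW)
  have hVW := surj_isometry JZ (gam_of_limits U hU (fun k => (T k).symm) τ hτ hTs1 hTs2 W V hW
    (by simpa using hV))
  have hexplim : ∀ r : ℝ, Tendsto (fun k => Real.exp (τ k) * r) U (𝓝 r) := by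
    intro r
    have h1 : Tendsto (fun k => Real.exp (τ k) * r) atTop (𝓝 (Real.exp 0 * r)) :=
      ((Real.continuous_exp.tendsto 0).comp hτ).mul_const r
    rw [Real.exp_zero, one_mul] at h1
    exact h1.mono_left hU
  have hVc : ∀ y, ‖V y‖ ≤ ‖y‖ := by
    intro y
    refine norm_le_of_dual (𝕜 := 𝕜) (fun φ hφ => ?_)
    refine le_of_tendsto_of_tendsto' (hV y φ).norm (hexplim ‖y‖) (fun k => ?_)
    calc ‖φ ((T k : Y →L[𝕜] Z) y)‖ ≤ ‖φ‖ * ‖T k y‖ := φ.le_opNorm _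
      _ ≤ 1 * (Real.exp (τ k) * ‖y‖) := by
          gcongr
          exact hT1 k y
      _ = _ := one_mul _
  have hWc : ∀ z, ‖W z‖ ≤ ‖z‖ := by
    intro z
    refine norm_le_of_dual (𝕜 := 𝕜) (fun φ hφ => ?_)
    refine le_of_tendsto_of_tendsto' (hW z φ).norm (hexplim ‖z‖) (fun k => ?_)
    calc ‖φ (((T k).symm : Z →L[𝕜] Y) z)‖ ≤ ‖φ‖ * ‖(T k).symm z‖ := φ.le_opNorm _
      _ ≤ 1 * (Real.exp (τ k) * ‖z‖) := by
          gcongr
          exact hTs1 k z
      _ = _ := one_mul _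
  have hViso : ∀ y, ‖V y‖ = ‖y‖ := by
    intro y
    refine le_antisymm (hVc y) ?_
    calc ‖y‖ = ‖(W.comp V) y‖ := (hWV.1 y).symm
      _ ≤ ‖V y‖ := hWc _
  have hVsurj : Function.Surjective V := by
    intro z
    obtain ⟨z', hz'⟩ := hVW.2 z
    exact ⟨W z', hz'⟩
  exact ⟨LinearIsometryEquiv.ofSurjective ⟨(V : Y →ₗ[𝕜] Z), hViso⟩ hVsurj⟩

end Final

end Pool.Agent.H85.Odell
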