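import Pool.Agent.H85.TU.All

/-!
# Vaught's conjecture and quantifier prefixes

For a sentence `Q_0 a_0 Q_1 a_1 ... Q_(n-1) a_(n-1) (the type of (a_0, ..., a_(n-1)) belongs to B)`
about countable structures, `B` a Borel set of types:

* if the prefix is `∃*∀*` or `∃*∀^j∃*` with `j ≤ 2`, the models have countably or perfectly many
  isomorphism types;
* if the prefix is neither of these forms nor of the form `∃*∀∃*∀*` or `∃*∀∃∀∃*`, then the sentences
  with this prefix about one binary map are as hard as all invariant Borel classes of countable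
  structures, that is, as Vaught's conjecture for `L_{ω_1 ω}`.
-/

set_option autoImplicit false

open Set

namespace Pool.Agent.Results.MP_5607ba_lc.PrefixClasses

/-- Structures with universe `V`: countably many maps `x i : V^(ar i) → D i`, `i : ι`. (The countable
relational languages are the case in which `D i` is the set of the truth values.) -/
abbrev Str {ι : Type} (ar : ι → ℕ) (D : ι → Type) (V : Type) : Type :=
  ∀ i, (Fin (ar i) → V) → D i

variable {ι : Type} {ar : ι → ℕ} {D : ι → Type}

/-- Isomorphic structures. -/
def Iso (x y : Str ar D ℕ) : Prop := ∃ g : ℕ ≃ ℕ, ∀ i v, y i (g ∘ v) = x i v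

/-- A countable set meets all isomorphism types of members of `A`. -/
def CountablyMany (A : Set (Str ar D ℕ)) : Prop :=
  ∃ S : Set (Str ar D ℕ), S.Countable ∧ ∀ x ∈ A, ∃ y ∈ S, Iso x y

/-- A Borel map from the Cantor space to `A` takes pairwise non-isomorphic values. -/
def PerfectlyMany [∀ i, MeasurableSpace (D i)] (A : Set (Str ar D ℕ)) : Prop :=
  ∃ F : (ℕ → Bool) → Str ar D ℕ, Measurable F ∧ (∀ u, F u ∈ A) ∧ ∀ u v, u ≠ v → ¬ Iso (F u) (F v)

/-! ### Sentences with a quantifier prefix -/

/-- The types of `n`-tuples: the labels of the tuples of entries, and which entries are equal. -/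
abbrev TY {ι : Type} (ar : ι → ℕ) (D : ι → Type) (n : ℕ) : Type :=
  Str ar D (Fin n) × (Fin n → Fin n → Bool)

/-- The type of the tuple `v` in `x`. -/
def tp (x : Str ar D ℕ) {n : ℕ} (v : Fin n → ℕ) : TY ar D n :=
  (fun i w => x i (v ∘ w), fun i j => decide (v i = v j))

/-- `Q_0 a_0 Q_1 a_1 ... R [a_0, a_1, ...]`, where `Q_i` is `∀` if the `i`-th entry of the prefix is
`true` and `∃` if it is `false`. -/
def Quantify : List Bool → (List ℕ → Prop) → Prop
  | [], R => R []
  | true :: π, R => ∀ a : ℕ, Quantify π fun l => R (a :: l)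
  | false :: π, R => ∃ a : ℕ, Quantify π fun l => R (a :: l)

/-- The models of the sentence with the prefix `π` and the matrix `B`, a set of types: the structures
in which `Q_0 a_0 Q_1 a_1 ...: the type of the tuple (a_0, a_1, ...) belongs to B`. -/
def Models (π : List Bool) (B : Set (TY ar D π.length)) : Set (Str ar D ℕ) :=
  {x | Quantify π fun l => tp x (fun i : Fin π.length => l.getD i 0) ∈ B}

/-- the prefixes `∃*∀*` -/
def IsEA (π : List Bool) : Prop :=
  ∃ m k, π = List.replicate m false ++ List.replicate k true

/-- the prefixes `∃*∀^j∃*` with `j ≤ 2` -/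
def IsE2E (π : List Bool) : Prop :=
  ∃ m j l, j ≤ 2 ∧ π = List.replicate m false ++ List.replicate j true ++ List.replicate l false

/-- the prefixes `∃*∀∃*∀*` -/
def IsEAEA (π : List Bool) : Prop :=
  ∃ m l k, π = List.replicate m false ++ [true] ++ List.replicate l false ++ List.replicate k true

/-- the prefixes `∃*∀∃∀∃*` -/
def IsEAEAE (π : List Bool) : Prop :=
  ∃ m l, π = List.replicate m false ++ [true, false, true] ++ List.replicate l false

/-! ### Covered structures -/

/-- Analytic sets: the empty set and the images of Borel maps defined on the Baire space. -/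
def IsAnalytic {X : Type} [MeasurableSpace X] (A : Set X) : Prop :=
  A = ∅ ∨ ∃ f : (ℕ → ℕ) → X, Measurable f ∧ range f = A

/-- `Y` is a set of structures with `m` marked points. The structures `x` with `m` points `c` such
that any two points and the points `c` lie in a substructure which is isomorphic to a member of `Y`,
the marked points of which correspond to the points `c` (`p` enumerates the universe of the
substructure). -/
def Covered (m : ℕ) (Y : Set (Str ar D ℕ × (Fin m → ℕ))) : Set (Str ar D ℕ) :=
  {x | ∃ c : Fin m → ℕ, ∀ a b : ℕ, ∃ (p : ℕ → ℕ) (q : Fin m → ℕ), Function.Injective p ∧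
    p ∘ q = c ∧ a ∈ range p ∧ b ∈ range p ∧ ((fun i v => x i (p ∘ v) : Str ar D ℕ), q) ∈ Y}

lemma quantify_iff (π : List Bool) (R : List ℕ → Prop) :
    Quantify π R ↔ Pool.Agent.H85.TU.Pre π R := by
  induction π generalizing R with
  | nil => exact Iff.rfl
  | cons b π ih =>
    cases b with
    | true => exact forall_congr' fun a => ih _
    | false => exact exists_congr fun a => ih _

lemma models_eq (π : List Bool) (B : Set (TY ar D π.length)) :
    Models π B = Pool.Agent.H85.TU.Sent π B := by
  ext x
  exact quantify_iff π _

/-- **Theorem.** (1) For every language, the sentences with a prefix `∃*∀*` or `∃*∀^j∃*`, `j ≤ 2`, and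
a Borel matrix have countably many or perfectly many isomorphism types of models, and so has the
class of the structures covered by an analytic set of structures with marked points.
(2) Let `π` be any prefix which is not of the form `∃*∀*`, `∃*∀^j∃*` with `j ≤ 2`, `∃*∀∃*∀*` or
`∃*∀∃∀∃*`. For every isomorphism-invariant Borel class `X` of structures of any countable language
there is a sentence with the prefix `π` and a Borel matrix about one binary map, the models of which
have countably many isomorphism types if and only if `X` has, and perfectly many if and only if `X`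
has. -/
theorem result :
    (∀ (ι : Type) [Countable ι] (ar : ι → ℕ) (D : ι → Type) [∀ i, MeasurableSpace (D i)]
      [∀ i, StandardBorelSpace (D i)],
      (∀ (π : List Bool) (B : Set (TY ar D π.length)), IsEA π ∨ IsE2E π → MeasurableSet B →
        CountablyMany (Models π B) ∨ PerfectlyMany (Models π B)) ∧
      ∀ (m : ℕ) (Y : Set (Str ar D ℕ × (Fin m → ℕ))), IsAnalytic Y →
        CountablyMany (Covered m Y) ∨ PerfectlyMany (Covered m Y)) ∧
    ∀ π : List Bool, ¬ IsEA π → ¬ IsE2E π → ¬ IsEAEA π → ¬ IsEAEAE π →
      ∀ (ι : Type) [Countable ι] (ar : ι → ℕ) (D : ι → Type) [∀ i, MeasurableSpace (D i)]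
        [∀ i, StandardBorelSpace (D i)] [∀ i, Nonempty (D i)] (X : Set (Str ar D ℕ)),
        MeasurableSet X → (∀ x ∈ X, ∀ x', Iso x x' → x' ∈ X) →
        ∃ (C : Type) (_ : MeasurableSpace C) (_ : StandardBorelSpace C)
          (B : Set (TY (fun _ : Unit => 2) (fun _ => C) π.length)), MeasurableSet B ∧
          (CountablyMany (Models π B) ↔ CountablyMany X) ∧
          (PerfectlyMany (Models π B) ↔ PerfectlyMany X) := by
  refine ⟨fun ι _ ar D _ _ => ⟨fun π B h hB => ?_, fun m Y hY => ?_⟩, ?_⟩
  · rw [models_eq]
    rcases h with h | h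
    · exact Pool.Agent.H85.TU.all_EAS ι ar D π B h hB
    · exact Pool.Agent.H85.TU.all_E2E ι ar D π B h hB
  · exact Pool.Agent.H85.TU.all_MRK ι ar D m Y hY
  · intro π h1 h2 h3 h4 ι _ ar D _ _ _ X hX hinv
    obtain ⟨C, mC, sC, B, hB, hc, hp⟩ :=
      Pool.Agent.H85.TU.all_HPX π h1 h2 h3 h4 ι ar D X hX hinv
    refine ⟨C, mC, sC, B, hB, ?_, ?_⟩
    · rw [models_eq]
      exact hc
    · rw [models_eq]
      exact hp

end Pool.Agent.Results.MP_5607ba_lc.PrefixClasses
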