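import Mathlib
import Pool.Agent.H85.JN
import Pool.Agent.H85.WMPDefs

/-!
# Domain spaces with the weak maximizing property for all range spaces: the proof

If `(E, l_infty)` has the weak maximizing property then `E` is finite dimensional.
-/

namespace Pool.Agent.H85.WMP

open Filter Topology Set

universe u v

section Aux

variable {𝕜 : Type*} [RCLike 𝕜] {E : Type*} [NormedAddCommGroup E] [NormedSpace 𝕜 E]

/-- The operator `x ↦ (a n * h n x)` into the space of bounded sequences. -/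
noncomputable def seqOp (ι : Type*) (h : ι → StrongDual 𝕜 E) (hh : ∀ i, ‖h i‖ ≤ 1)
    (a : ι → ℝ) (ha : ∀ i, |a i| ≤ 1) : E →L[𝕜] lp (fun _ : ι => 𝕜) ⊤ :=
  LinearMap.mkContinuous
    { toFun := fun x => ⟨fun i => (a i : 𝕜) * h i x, by
        refine memℓp_infty ⟨‖x‖, ?_⟩
        rintro _ ⟨i, rfl⟩
        simp only [norm_mul, RCLike.norm_ofReal]
        calc |a i| * ‖h i x‖ ≤ 1 * (‖h i‖ * ‖x‖) := by
              gcongr
              · exact ha i
              · exact (h i).le_opNorm x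
          _ ≤ 1 * (1 * ‖x‖) := by gcongr; exact hh i
          _ = ‖x‖ := by ring⟩
      map_add' := by
        intro x y
        ext i
        change (a i : 𝕜) * h i (x + y) = (a i : 𝕜) * h i x + (a i : 𝕜) * h i y
        rw [map_add, mul_add]
      map_smul' := by
        intro c x
        ext i
        simp only [map_smul, smul_eq_mul, RingHom.id_apply, lp.coeFn_smul, Pi.smul_apply]
        ring } 1 (by
      intro x
      rw [one_mul]
      refine lp.norm_le_of_forall_le (norm_nonneg _) ?_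
      intro i
      change ‖(a i : 𝕜) * h i x‖ ≤ ‖x‖
      simp only [norm_mul, RCLike.norm_ofReal]
      calc |a i| * ‖h i x‖ ≤ 1 * (‖h i‖ * ‖x‖) := by
            gcongr
            · exact ha i
            · exact (h i).le_opNorm x
        _ ≤ 1 * (1 * ‖x‖) := by gcongr; exact hh i
        _ = ‖x‖ := by ring)

lemma seqOp_apply {ι : Type*} (h : ι → StrongDual 𝕜 E) (hh : ∀ i, ‖h i‖ ≤ 1)
    (a : ι → ℝ) (ha : ∀ i, |a i| ≤ 1) (x : E) (i : ι) :
    (seqOp ι h hh a ha x : ∀ _ : ι, 𝕜) i = (a i : 𝕜) * h i x := rfl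

lemma norm_seqOp_le {ι : Type*} (h : ι → StrongDual 𝕜 E) (hh : ∀ i, ‖h i‖ ≤ 1)
    (a : ι → ℝ) (ha : ∀ i, |a i| ≤ 1) : ‖seqOp ι h hh a ha‖ ≤ 1 :=
  LinearMap.mkContinuous_norm_le _ zero_le_one _

/-- First step: norming vectors of a sequence of functionals with small limit are weakly null. -/
lemma weaklyNull_of_wmp (hW : HasWMP 𝕜 E (lp (fun _ : ULift.{v} ℕ => 𝕜) ⊤))
    (h : ℕ → StrongDual 𝕜 E) (hh : ∀ n, ‖h n‖ ≤ 1)
    (hlim : ∀ x : E, ‖x‖ = 1 → ∃ r < 1, ∀ᶠ n in atTop, ‖h n x‖ ≤ r)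
    (x : ℕ → E) (hx : ∀ n, ‖x n‖ = 1)
    (hhx : Tendsto (fun n => ‖h n (x n)‖) atTop (𝓝 1)) : WeaklyNull 𝕜 x := by
  by_contra hnull
  let a : ℕ → ℝ := fun n => 1 - 1 / ((n : ℝ) + 2)
  have ha_lt : ∀ n, a n < 1 := fun n => by
    have : (0 : ℝ) < 1 / ((n : ℝ) + 2) := by positivity
    simp only [a]; linarith
  have ha_nn : ∀ n, 0 ≤ a n := fun n => by
    have : 1 / ((n : ℝ) + 2) ≤ 1 := by
      rw [div_le_one (by positivity)]
      have : (0 : ℝ) ≤ n := Nat.cast_nonneg n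
      linarith
    simp only [a]; linarith
  have ha_mono : Monotone a := by
    intro m n hmn
    simp only [a]
    have h1 : ((m : ℝ)) ≤ n := by exact_mod_cast hmn
    have : 1 / ((n : ℝ) + 2) ≤ 1 / ((m : ℝ) + 2) := by
      apply one_div_le_one_div_of_le (by positivity)
      linarith
    linarith
  have ha_tend : Tendsto a atTop (𝓝 1) := by
    have h1 : Tendsto (fun n : ℕ => 1 / ((n : ℝ) + 2)) atTop (𝓝 0) := by
      have := (tendsto_const_div_atTop_nhds_zero_nat (1 : ℝ)).comp (tendsto_add_atTop_nat 2)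
      refine this.congr (fun n => ?_)
      simp
    have h2 := h1.const_sub 1
    simpa [a] using h2
  have ha' : ∀ i : ULift.{v} ℕ, |a i.down| ≤ 1 := fun i => by
    rw [abs_of_nonneg (ha_nn _)]; exact (ha_lt _).le
  set T := seqOp (ULift.{v} ℕ) (fun i => h i.down) (fun i => hh i.down)
    (fun i => a i.down) ha' with hT
  have hTle : ‖T‖ ≤ 1 := norm_seqOp_le _ _ _ _
  have hlow : ∀ n, a n * ‖h n (x n)‖ ≤ ‖T (x n)‖ := by
    intro n
    have h1 := lp.norm_apply_le_norm (p := ⊤) (by simp) (T (x n)) (ULift.up n)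
    rw [hT, seqOp_apply, norm_mul, RCLike.norm_ofReal, abs_of_nonneg (ha_nn _)] at h1
    exact h1
  have hup : ∀ n, ‖T (x n)‖ ≤ ‖T‖ := fun n => by
    calc ‖T (x n)‖ ≤ ‖T‖ * ‖x n‖ := T.le_opNorm _
      _ = ‖T‖ := by rw [hx, mul_one]
  have hprod : Tendsto (fun n => a n * ‖h n (x n)‖) atTop (𝓝 1) := by
    simpa using ha_tend.mul hhx
  have hT1 : ‖T‖ = 1 := le_antisymm hTle
    (le_of_tendsto' hprod (fun n => (hlow n).trans (hup n)))
  have hmax : IsMaximizing T x := by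
    refine ⟨hx, ?_⟩
    rw [hT1]
    exact tendsto_of_tendsto_of_tendsto_of_le_of_le hprod tendsto_const_nhds hlow
      (fun n => (hup n).trans hTle)
  obtain ⟨z, hz1, hz⟩ := hW T ⟨x, hmax, hnull⟩
  obtain ⟨r, hr, hev⟩ := hlim z hz1
  obtain ⟨N, hN⟩ := eventually_atTop.1 hev
  have hlt : ‖T z‖ ≤ max r (a N) := by
    refine lp.norm_le_of_forall_le (le_trans (ha_nn N) (le_max_right _ _)) ?_
    intro i
    rw [hT, seqOp_apply, norm_mul, RCLike.norm_ofReal, abs_of_nonneg (ha_nn _)]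
    by_cases hi : N ≤ i.down
    · refine le_trans ?_ (le_max_left _ _)
      calc a i.down * ‖h i.down z‖ ≤ 1 * ‖h i.down z‖ := by
            gcongr; exact (ha_lt _).le
        _ ≤ r := by rw [one_mul]; exact hN _ hi
    · refine le_trans ?_ (le_max_right _ _)
      calc a i.down * ‖h i.down z‖ ≤ a N * 1 := by
            gcongr
            · exact ha_nn N
            · exact ha_mono (not_le.1 hi).le
            · calc ‖h i.down z‖ ≤ ‖h i.down‖ * ‖z‖ := (h i.down).le_opNorm _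
                _ ≤ 1 * 1 := by gcongr; exacts [hh _, hz1.le]
                _ = 1 := one_mul _
        _ = a N := mul_one _
  rw [hz, hT1] at hlt
  exact absurd hlt (not_le.2 (max_lt hr (ha_lt N)))

lemma exists_norming_vector {f : StrongDual 𝕜 E} {r : ℝ} (hr : 0 ≤ r) (hf : r < ‖f‖) :
    ∃ x : E, ‖x‖ = 1 ∧ r ≤ ‖f x‖ := by
  obtain ⟨x, hx1, hx⟩ := f.exists_lt_apply_of_lt_opNorm hf
  have hx0 : 0 < ‖x‖ := by
    rw [norm_pos_iff]
    rintro rfl
    simp only [map_zero, norm_zero] at hx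
    linarith
  refine ⟨((‖x‖⁻¹ : ℝ) : 𝕜) • x, ?_, ?_⟩
  · rw [norm_smul, RCLike.norm_ofReal, abs_of_nonneg (inv_nonneg.2 hx0.le)]
    exact inv_mul_cancel₀ hx0.ne'
  · rw [map_smul, norm_smul, RCLike.norm_ofReal, abs_of_nonneg (inv_nonneg.2 hx0.le)]
    have h1 : 1 ≤ ‖x‖⁻¹ := (one_le_inv₀ hx0).2 hx1.le
    nlinarith [norm_nonneg (f x)]

/-- Second step: `limsup ‖f + g n‖ ≤ max ‖f‖ 1` for a normalized weak-star null sequence. -/
lemma eventually_norm_add_le (hW : HasWMP 𝕜 E (lp (fun _ : ULift.{v} ℕ => 𝕜) ⊤))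
    (g : ℕ → StrongDual 𝕜 E) (hg1 : ∀ n, ‖g n‖ = 1)
    (hg : ∀ x, Tendsto (fun n => g n x) atTop (𝓝 0)) (f : StrongDual 𝕜 E) {η : ℝ}
    (hη : 0 < η) : ∀ᶠ n in atTop, ‖f + g n‖ ≤ max ‖f‖ 1 + η := by
  by_contra hcon
  rw [not_eventually] at hcon
  obtain ⟨φ, hφ, hφη⟩ := extraction_of_frequently_atTop hcon
  simp only [not_le] at hφη
  set ρ : ℝ := max ‖f‖ 1 + η with hρ
  have hρ1 : 1 < ρ := by
    have := le_max_right ‖f‖ 1
    linarith
  have hρf : ‖f‖ < ρ := by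
    have := le_max_left ‖f‖ 1
    linarith
  have hρ0 : 0 < ρ := by linarith
  have hpos : ∀ n, 0 < ‖f + g (φ n)‖ := fun n => hρ0.trans (hφη n)
  let h : ℕ → StrongDual 𝕜 E := fun n => ((‖f + g (φ n)‖⁻¹ : ℝ) : 𝕜) • (f + g (φ n))
  have hh1 : ∀ n, ‖h n‖ = 1 := by
    intro n
    simp only [h]
    rw [norm_smul, RCLike.norm_ofReal, abs_of_nonneg (inv_nonneg.2 (norm_nonneg _))]
    exact inv_mul_cancel₀ (hpos n).ne'
  have hhx : ∀ n (x : E), ‖h n x‖ ≤ (‖f x‖ + ‖g (φ n) x‖) / ρ := by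
    intro n x
    simp only [h, _root_.smul_apply, norm_smul, RCLike.norm_ofReal]
    rw [abs_of_nonneg (inv_nonneg.2 (norm_nonneg _)), inv_mul_eq_div]
    have h1 : ‖(f + g (φ n)) x‖ ≤ ‖f x‖ + ‖g (φ n) x‖ := norm_add_le _ _
    exact div_le_div₀ (by positivity) h1 hρ0 (hφη n).le
  have hx : ∀ n : ℕ, ∃ x : E, ‖x‖ = 1 ∧ 1 - 1 / ((n : ℝ) + 1) ≤ ‖h n x‖ := by
    intro n
    have h0 : (0 : ℝ) < 1 / ((n : ℝ) + 1) := by positivity
    refine exists_norming_vector ?_ ?_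
    · have : 1 / ((n : ℝ) + 1) ≤ 1 := by
        rw [div_le_one (by positivity)]
        have : (0 : ℝ) ≤ n := Nat.cast_nonneg n
        linarith
      linarith
    · rw [hh1]; linarith
  choose x hx1 hxh using hx
  have htend1 : Tendsto (fun n : ℕ => 1 - 1 / ((n : ℝ) + 1)) atTop (𝓝 1) := by
    have := (tendsto_one_div_add_atTop_nhds_zero_nat (𝕜 := ℝ)).const_sub 1
    simpa using this
  have hhle : ∀ n, ‖h n (x n)‖ ≤ 1 := fun n => by
    calc ‖h n (x n)‖ ≤ ‖h n‖ * ‖x n‖ := (h n).le_opNorm _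
      _ = 1 := by rw [hh1, hx1, mul_one]
  have htend : Tendsto (fun n => ‖h n (x n)‖) atTop (𝓝 1) :=
    tendsto_of_tendsto_of_tendsto_of_le_of_le htend1 tendsto_const_nhds hxh hhle
  have hnull : WeaklyNull 𝕜 x := by
    refine weaklyNull_of_wmp hW h (fun n => (hh1 n).le) ?_ x hx1 htend
    intro z hz
    have hfz : ‖f z‖ ≤ ‖f‖ := by
      calc ‖f z‖ ≤ ‖f‖ * ‖z‖ := f.le_opNorm _
        _ = ‖f‖ := by rw [hz, mul_one]
    have hmid : (‖f‖ + ρ) / 2 / ρ < 1 := by
      rw [div_lt_one hρ0]; linarith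
    refine ⟨(‖f‖ + ρ) / 2 / ρ, hmid, ?_⟩
    have hgz : Tendsto (fun n => ‖g (φ n) z‖) atTop (𝓝 0) := by
      have := ((hg z).comp hφ.tendsto_atTop).norm
      simpa using this
    have hev : ∀ᶠ n in atTop, ‖g (φ n) z‖ < (ρ - ‖f‖) / 2 :=
      hgz.eventually_lt_const (by linarith)
    filter_upwards [hev] with n hn
    refine (hhx n z).trans ?_
    gcongr
    linarith
  have hfx : Tendsto (fun n => (‖f (x n)‖ + 1) / ρ) atTop (𝓝 ((0 + 1) / ρ)) := by
    have h1 : Tendsto (fun n => ‖f (x n)‖) atTop (𝓝 0) := by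
      have := (hnull f).norm
      simpa using this
    exact (h1.add_const 1).div_const ρ
  have hle : (1 : ℝ) ≤ (0 + 1) / ρ := by
    refine le_of_tendsto_of_tendsto' htend hfx (fun n => ?_)
    refine (hhx n (x n)).trans ?_
    gcongr
    calc ‖g (φ n) (x n)‖ ≤ ‖g (φ n)‖ * ‖x n‖ := (g (φ n)).le_opNorm _
      _ = 1 := by rw [hg1, hx1, mul_one]
  rw [zero_add, le_div_iff₀ hρ0, one_mul] at hle
  linarith

/-- the state in the final inductive construction -/
structure CState (𝕜 : Type*) [RCLike 𝕜] (E : Type*) [NormedAddCommGroup E]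
    [NormedSpace 𝕜 E] where
  k : ℕ
  φ : StrongDual 𝕜 E
  Y : Finset E
  n : ℕ
  norm_φ : ‖φ‖ ≤ 2 - (1 / 2 : ℝ) ^ k

lemma finiteDimensional_of_wmp (hW : HasWMP 𝕜 E (lp (fun _ : ULift.{v} ℕ => 𝕜) ⊤)) :
    FiniteDimensional 𝕜 E := by
  classical
  by_contra hE
  obtain ⟨g, hg1, hg⟩ := Pool.Agent.H85.JN.josefson_nissenzweig (𝕜 := 𝕜) (E := E) hE
  have hy : ∀ n : ℕ, ∃ y : E, ‖y‖ = 1 ∧ 1 - 1 / ((n : ℝ) + 4) ≤ ‖g n y‖ := by
    intro n
    have h0 : (0 : ℝ) < 1 / ((n : ℝ) + 4) := by positivity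
    refine exists_norming_vector ?_ ?_
    · have : 1 / ((n : ℝ) + 4) ≤ 1 := by
        rw [div_le_one (by positivity)]
        have : (0 : ℝ) ≤ n := Nat.cast_nonneg n
        linarith
      linarith
    · rw [hg1]; linarith
  choose y hy1 hyg using hy
  have hyg34 : ∀ n, 3 / 4 ≤ ‖g n (y n)‖ := by
    intro n
    refine le_trans ?_ (hyg n)
    have : 1 / ((n : ℝ) + 4) ≤ 1 / 4 := by
      apply one_div_le_one_div_of_le (by norm_num)
      have : (0 : ℝ) ≤ n := Nat.cast_nonneg n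
      linarith
    linarith
  have hynull : WeaklyNull 𝕜 y := by
    refine weaklyNull_of_wmp hW g (fun n => (hg1 n).le) ?_ y hy1 ?_
    · intro z hz
      refine ⟨1 / 2, by norm_num, ?_⟩
      have := (hg z).norm
      rw [norm_zero] at this
      filter_upwards [this.eventually_lt_const (show (0 : ℝ) < 1 / 2 by norm_num)] with n hn
      exact hn.le
    · have htend1 : Tendsto (fun n : ℕ => 1 - 1 / ((n : ℝ) + 4)) atTop (𝓝 1) := by
        have h1 : Tendsto (fun n : ℕ => 1 / ((n : ℝ) + 4)) atTop (𝓝 0) := by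
          have := (tendsto_const_div_atTop_nhds_zero_nat (1 : ℝ)).comp (tendsto_add_atTop_nat 4)
          refine this.congr (fun n => ?_)
          simp
        simpa using h1.const_sub 1
      refine tendsto_of_tendsto_of_tendsto_of_le_of_le htend1 tendsto_const_nhds hyg
        (fun n => ?_)
      calc ‖g n (y n)‖ ≤ ‖g n‖ * ‖y n‖ := (g n).le_opNorm _
        _ = 1 := by rw [hg1, hy1, mul_one]
  -- the inductive construction
  let R : CState 𝕜 E → CState 𝕜 E → Prop := fun p q =>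
    q.k = p.k + 1 ∧ p.k ≤ q.n ∧ q.φ = p.φ + g q.n ∧ q.Y = insert (y q.n) p.Y ∧
      ‖p.φ (y q.n)‖ ≤ 1 / 8 ∧ ∀ z ∈ p.Y, ‖g q.n z‖ ≤ (1 / 2 : ℝ) ^ p.k / 8
  have hstep : ∀ p : CState 𝕜 E, ∃ q, R p q := by
    intro p
    have hη : (0 : ℝ) < (1 / 2 : ℝ) ^ (p.k + 1) := by positivity
    have e1 := eventually_norm_add_le hW g hg1 hg p.φ hη
    have e2 : ∀ᶠ n in atTop, ‖p.φ (y n)‖ ≤ 1 / 8 := by
      have := (hynull p.φ).norm
      rw [norm_zero] at this
      filter_upwards [this.eventually_lt_const (show (0 : ℝ) < 1 / 8 by norm_num)] with n hn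
      exact hn.le
    have e3 : ∀ᶠ n in atTop, ∀ z ∈ p.Y, ‖g n z‖ ≤ (1 / 2 : ℝ) ^ p.k / 8 := by
      rw [eventually_all_finset]
      intro z _
      have := (hg z).norm
      rw [norm_zero] at this
      filter_upwards [this.eventually_lt_const
        (show (0 : ℝ) < (1 / 2 : ℝ) ^ p.k / 8 by positivity)] with n hn
      exact hn.le
    obtain ⟨n, h1, h2, h3, h4⟩ := (e1.and (e2.and (e3.and (eventually_ge_atTop p.k)))).exists
    refine ⟨⟨p.k + 1, p.φ + g n, insert (y n) p.Y, n, ?_⟩, rfl, h4, rfl, rfl, h2, h3⟩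
    refine h1.trans ?_
    have h5 : max ‖p.φ‖ 1 ≤ 2 - (1 / 2 : ℝ) ^ p.k := by
      refine max_le p.norm_φ ?_
      have : (1 / 2 : ℝ) ^ p.k ≤ 1 := pow_le_one₀ (by norm_num) (by norm_num)
      linarith
    have h6 : (1 / 2 : ℝ) ^ p.k = 2 * (1 / 2 : ℝ) ^ (p.k + 1) := by
      rw [pow_succ]; ring
    linarith
  obtain ⟨s, hs0, hs⟩ := Pool.Agent.H85.JN.exists_seq_rel R
    ⟨0, 0, ∅, 0, by simp⟩ hstep
  have hk : ∀ m, (s m).k = m := by
    intro m
    induction m with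
    | zero => rw [hs0]
    | succ m ih => rw [(hs m).1, ih]
  have hbound : ∀ m, ‖(s m).φ‖ ≤ 2 := fun m => by
    have h1 := (s m).norm_φ
    have : (0 : ℝ) < (1 / 2 : ℝ) ^ (s m).k := by positivity
    linarith
  have hmem : ∀ k m, k + 1 ≤ m → y (s (k + 1)).n ∈ (s m).Y := by
    intro k m hkm
    induction m, hkm using Nat.le_induction with
    | base => rw [(hs k).2.2.2.1]; exact Finset.mem_insert_self _ _
    | succ m _ ih => rw [(hs m).2.2.2.1]; exact Finset.mem_insert_of_mem ih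
  have hlow : ∀ k m, k + 1 ≤ m →
      1 / 2 + (1 / 2 : ℝ) ^ m / 4 ≤ ‖(s m).φ (y (s (k + 1)).n)‖ := by
    intro k m hkm
    induction m, hkm using Nat.le_induction with
    | base =>
      rw [(hs k).2.2.1]
      have h1 : ‖g (s (k + 1)).n (y (s (k + 1)).n)‖ ≤
          ‖((s k).φ + g (s (k + 1)).n) (y (s (k + 1)).n)‖ + ‖(s k).φ (y (s (k + 1)).n)‖ := by
        have h2 : g (s (k + 1)).n (y (s (k + 1)).n) =
            ((s k).φ + g (s (k + 1)).n) (y (s (k + 1)).n) - (s k).φ (y (s (k + 1)).n) := by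
          simp
        conv_lhs => rw [h2]
        exact norm_sub_le _ _
      have h3 := hyg34 (s (k + 1)).n
      have h4 := (hs k).2.2.2.2.1
      have h5 : (1 / 2 : ℝ) ^ (k + 1) ≤ 1 / 2 := by
        rw [pow_succ]
        have : (1 / 2 : ℝ) ^ k ≤ 1 := pow_le_one₀ (by norm_num) (by norm_num)
        linarith
      linarith
    | succ m hm ih =>
      rw [(hs m).2.2.1]
      have h1 := (hs m).2.2.2.2.2 _ (hmem k m hm)
      rw [hk m] at h1
      have h2 : ‖(s m).φ (y (s (k + 1)).n)‖ ≤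
          ‖((s m).φ + g (s (m + 1)).n) (y (s (k + 1)).n)‖ +
            ‖g (s (m + 1)).n (y (s (k + 1)).n)‖ := by
        have h3 : (s m).φ (y (s (k + 1)).n) =
            ((s m).φ + g (s (m + 1)).n) (y (s (k + 1)).n) -
              g (s (m + 1)).n (y (s (k + 1)).n) := by
          simp
        conv_lhs => rw [h3]
        exact norm_sub_le _ _
      have h4 : (1 / 2 : ℝ) ^ m = 2 * (1 / 2 : ℝ) ^ (m + 1) := by
        rw [pow_succ]; ring
      linarith
  obtain ⟨ψ, hψ⟩ := Pool.Agent.H85.JN.exists_ultra_limit (hyperfilter ℕ)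
    (fun m => (s m).φ) 2 hbound
  have hψlow : ∀ k, 1 / 2 ≤ ‖ψ (y (s (k + 1)).n)‖ := by
    intro k
    refine ge_of_tendsto (hψ (y (s (k + 1)).n)).norm ?_
    have h1 : ∀ᶠ m in atTop, 1 / 2 ≤ ‖(s m).φ (y (s (k + 1)).n)‖ := by
      filter_upwards [eventually_ge_atTop (k + 1)] with m hm
      have h2 := hlow k m hm
      have : (0 : ℝ) < (1 / 2 : ℝ) ^ m := by positivity
      linarith
    rw [← Nat.cofinite_eq_atTop] at h1
    exact h1.filter_mono hyperfilter_le_cofinite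
  have hn : Tendsto (fun k => (s (k + 1)).n) atTop atTop := by
    refine tendsto_atTop_mono (fun k => ?_) tendsto_id
    have := (hs k).2.1
    rw [hk k] at this
    exact this
  have hfin := ((hynull ψ).comp hn).norm
  rw [norm_zero] at hfin
  have : (1 / 2 : ℝ) ≤ 0 := ge_of_tendsto' hfin (fun k => hψlow k)
  norm_num at this

end Aux

end Pool.Agent.H85.WMP
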