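import Mathlib
import Pool.Agent.H85.WMPDefs
import Pool.Agent.H85.WMPProof

/-!
# Domain spaces with the weak maximizing property for all range spaces

We prove: if `E` is a Banach space (real or complex) such that the pair `(E, F)` has the weak
maximizing property for every Banach space `F`, then `E` is finite dimensional.

The proof (in `Pool.Agent.H85.WMPProof`) uses the Josefson-Nissenzweig theorem, which is proved
in `Pool.Agent.H85.JN`.
-/

namespace Pool.Agent.H85.WMPAllRangesMain

open Pool.Agent.H85.WMP

universe u v

/-- **Main theorem** (affirmative answer to Q1).  Let `𝕜` be `ℝ` or `ℂ` and let `E` be a Banach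
space over `𝕜` such that `(E, F)` has the weak maximizing property for every Banach space `F`.
Then `E` is finite dimensional. -/
theorem result (𝕜 : Type) [RCLike 𝕜] (E : Type u) [NormedAddCommGroup E] [NormedSpace 𝕜 E]
    [CompleteSpace E]
    (hE : ∀ (F : Type v) [NormedAddCommGroup F] [NormedSpace 𝕜 F] [CompleteSpace F],
      HasWMP 𝕜 E F) :
    FiniteDimensional 𝕜 E :=
  finiteDimensional_of_wmp (hE (lp (fun _ : ULift.{v} ℕ => 𝕜) ⊤))

end Pool.Agent.H85.WMPAllRangesMain
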